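import Mathlib
import Pool.Agent.Lib.MP_8f66f0_al_Aut.Out
import Pool.Agent.Lib.MP_8f66f0_al_Uni.PDef

/-! Definitions of the classes of groups in the theorem on all finite-dimensional
representations. -/

set_option autoImplicit false

namespace Pool.Agent.Lib.MP_8f66f0_al_Wreath

open Pool.Agent.Lib.MP_8f66f0_al_Uni

/-- `H` embeds in a general linear group over a commutative ring. -/
def IsLinear.{v, u} (H : Type u) [Group H] : Prop :=
  ∃ (R : Type v) (_ : CommRing R) (m : ℕ) (ρ : H →* Matrix.GeneralLinearGroup (Fin m) R),
    Function.Injective ρ

/-- The hypothesis on the elements of a group: roots are unique for large primes and proper powers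
of large prime exponent are rare, and for suitable primes all nontrivial elements are detected or
have infinite order in a representation. -/
def GoodElements.{v, u} (H : Type u) [Group H] : Prop :=
  PowerSep H ∧ ∀ m : ℕ, 0 < m → ∃ p : ℕ, p.Prime ∧ p ≡ 1 [MOD m] ∧
    ∀ c : H, c ≠ 1 → PDet.{v} p c

/-- The smallest class of groups which contains

* the groups which embed in a general linear group over some commutative ring,
* the holomorphs `F ⋊ Aut F` of the finitely generated groups `F` which are residually
  unitriangular over the integers (for instance of free groups of finite rank),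
* the outer automorphism groups of the free groups of finite rank,
* the power separated groups `G` for which, for all large primes `p`, all elements of infinite
  order are detected, or of infinite order in some representation over a domain of
  characteristic zero in which `p` is not a unit,

and is closed under subgroups (and isomorphic groups), finite direct products, finite index
overgroups and directed unions. -/
inductive DetClass.{v, u} : ∀ (G : Type u) [Group G], Prop
  | lin (G : Type u) [Group G] (R : Type v) [CommRing R] (m : ℕ)
      (ρ : G →* Matrix.GeneralLinearGroup (Fin m) R) (hρ : Function.Injective ρ) : DetClass G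
  | hol (F : Type u) [Group F] [Group.FG F] (hF : Pool.Agent.Lib.MP_8f66f0_al_Aut.ResUnip F) :
      DetClass (F ⋊[MonoidHom.id (MulAut F)] MulAut F)
  | out (ι : Type u) [Finite ι] :
      DetClass (Pool.Agent.Lib.MP_8f66f0_al_Aut.OutAut (FreeGroup ι))
  | good (G : Type u) [Group G] (hG : PowerSep G) (N : ℕ)
      (hd : ∀ p : ℕ, p.Prime → N < p → ∀ c : G, (∀ n : ℕ, 0 < n → c ^ n ≠ 1) →
        PDet.{v} p c) : DetClass G
  | sub (G K : Type u) [Group G] [Group K] (φ : K →* G) (hφ : Function.Injective φ)
      (hG : DetClass G) : DetClass K
  | prod (G K : Type u) [Group G] [Group K] (hG : DetClass G) (hK : DetClass K) :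
      DetClass (G × K)
  | virt (G : Type u) [Group G] (K : Subgroup G) [K.FiniteIndex] (hK : DetClass K) : DetClass G
  | loc (G : Type u) [Group G] (h : ∀ H : Subgroup G, H.FG → DetClass H) : DetClass G

end Pool.Agent.Lib.MP_8f66f0_al_Wreath
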