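import Mathlib
import Pool.Agent.Lib.MP_8f66f0_al_FinQ.Detect
import Pool.Agent.Lib.MP_8f66f0_al_Uni.Sep

namespace Pool.Agent.Lib.MP_8f66f0_al_Plus
end Pool.Agent.Lib.MP_8f66f0_al_Plus

/-! Linear groups over arbitrary fields. -/

set_option autoImplicit false
set_option linter.unusedSectionVars false

namespace Pool.Agent.Lib.MP_8f66f0_al_Wreath

open Pool.Agent.Lib.MP_8f66f0_al_Dennis Pool.Agent.Lib.MP_8f66f0_al_FinQ
open Pool.Agent.Lib.MP_8f66f0_al_Plus Pool.Agent.Lib.MP_8f66f0_al_Uni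

/-- Elements of infinite order in a representation in characteristic zero. -/
theorem pdet_of_charZero.{v, u} {Γ : Type u} [Group Γ] [Group.FG Γ] {F : Type v} [Field F]
    [CharZero F] {k : ℕ} (ρ : Γ →* Matrix.GeneralLinearGroup (Fin k) F) :
    ∃ N : ℕ, ∀ p : ℕ, p.Prime → N < p → ∀ c : Γ, (∀ n : ℕ, 0 < n → ρ c ^ n ≠ 1) →
      PDet.{v} p c := by
  have hFG : Group.FG ρ.range := Group.fg_range ρ
  obtain ⟨T, ρ', hinj⟩ := exists_fg_ring' ρ.range.subtype (Subgroup.subtype_injective ρ.range)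
  obtain ⟨N, hN0, hN⟩ := not_isUnit_natCast T
  refine ⟨N, fun p hp hlt c hc => Or.inr ⟨Algebra.adjoin ℤ (T : Set F), inferInstance,
    inferInstance, inferInstance, k, ρ'.comp ρ.rangeRestrict, ?_, ?_⟩⟩
  · exact hN p hp fun h => absurd (Nat.le_of_dvd (Nat.pos_of_ne_zero hN0) h) (by omega)
  · intro n hn h
    apply hc n hn
    rw [MonoidHom.comp_apply, ← map_pow] at h
    have h1 := hinj (h.trans (map_one ρ').symm)
    have h2 := congrArg Subtype.val h1
    rwa [Subgroup.coe_pow, Subgroup.coe_one] at h2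

/-- Elements of infinite order in a representation in positive characteristic are detected. -/
theorem detected_of_charP {Γ : Type*} [Group Γ] [Group.FG Γ] {F : Type*} [Field F] (p : ℕ)
    [hp : Fact p.Prime] [CharP F p] {k : ℕ} (ρ : Γ →* Matrix.GeneralLinearGroup (Fin k) F) {c : Γ}
    (hc : ∀ n : ℕ, 0 < n → ρ c ^ n ≠ 1) : Detected c := by
  set Ω := AlgebraicClosure F
  have hcp : CharP Ω p := charP_of_injective_algebraMap (algebraMap F Ω).injective p
  set σ := (Matrix.GeneralLinearGroup.map (algebraMap F Ω)).comp ρ with hσ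
  have hσinj : ∀ n : ℕ, σ c ^ n = 1 → ρ c ^ n = 1 := by
    intro n hn
    have h1 : Matrix.GeneralLinearGroup.map (n := Fin k) (algebraMap F Ω) (ρ c ^ n) = 1 := by
      rw [map_pow]; exact hn
    apply Units.ext
    ext i j
    apply (algebraMap F Ω).injective
    have h2 := congrArg (fun u : Matrix.GeneralLinearGroup (Fin k) Ω =>
      (u : Matrix (Fin k) (Fin k) Ω) i j) h1
    refine h2.trans ?_
    rw [Units.val_one, Units.val_one, Matrix.one_apply, Matrix.one_apply]
    split_ifs
    · rw [map_one]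
    · rw [map_zero]
  by_cases heig : ∃ μ, (σ c : Matrix (Fin k) (Fin k) Ω).charpoly.IsRoot μ ∧
      ∀ N : ℕ, 0 < N → μ ^ N ≠ 1
  · obtain ⟨μ, hμ, hμ'⟩ := heig
    obtain ⟨lam, hlam⟩ := exists_lam_of_not_root σ c hμ hμ'
    exact detected_of_hom lam hlam
  · push Not at heig
    obtain ⟨M, hM, hM1⟩ := exists_pow_unipotent (σ c : Matrix (Fin k) (Fin k) Ω) heig
    exfalso
    refine hc (M * p ^ k) (Nat.mul_pos hM (pow_pos hp.out.pos k)) (hσinj _ ?_)
    apply Units.ext
    rw [Units.val_pow_eq_pow_val, pow_mul, unipotent_charP p _ hM1, Units.val_one]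

/-- Elements of infinite order in a representation over a field. -/
theorem pdet_of_field.{v, u} {Γ : Type u} [Group Γ] [Group.FG Γ] {F : Type v} [Field F]
    {k : ℕ} (ρ : Γ →* Matrix.GeneralLinearGroup (Fin k) F) :
    ∃ N : ℕ, ∀ p : ℕ, p.Prime → N < p → ∀ c : Γ, (∀ n : ℕ, 0 < n → ρ c ^ n ≠ 1) →
      PDet.{v} p c := by
  obtain ⟨q, hq⟩ := CharP.exists F
  rcases CharP.char_is_prime_or_zero F q with hprime | hzero
  · have : Fact q.Prime := ⟨hprime⟩
    exact ⟨0, fun p _ _ c hc => Or.inl (detected_of_charP q ρ hc)⟩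
  · subst hzero
    have : CharZero F := CharP.charP_to_charZero F
    exact pdet_of_charZero ρ

/-- Power separation for linear groups over a field, with torsion. -/
theorem powerSep_of_linear {G : Type*} [Group G] [Group.FG G] {F : Type*} [Field F] {m : ℕ}
    (ρ : G →* Matrix.GeneralLinearGroup (Fin m) F) (hρ : Function.Injective ρ) : PowerSep G := by
  obtain ⟨p, hp⟩ := CharP.exists F
  rcases CharP.char_is_prime_or_zero F p with hprime | hzero
  · -- positive characteristic
    obtain ⟨T, ρ', hρ'inj⟩ := exists_fg_ring' ρ hρ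
    have hft : Algebra.FiniteType ℤ (Algebra.adjoin ℤ (T : Set F)) :=
      (Subalgebra.fg_iff_finiteType _).mp (Subalgebra.fg_adjoin_finset T)
    have hnoeth : IsNoetherianRing (Algebra.adjoin ℤ (T : Set F)) :=
      Algebra.FiniteType.isNoetherianRing ℤ _
    have : Fact p.Prime := ⟨hprime⟩
    obtain ⟨J, hJ⟩ := Ideal.exists_maximal (Algebra.adjoin ℤ (T : Set F))
    have hft0 : Algebra.FiniteType ℤ (Algebra.adjoin ℤ (T : Set F) ⧸ J) :=
      Algebra.FiniteType.of_surjective (Ideal.Quotient.mkₐ ℤ J) (Ideal.Quotient.mkₐ_surjective ℤ J)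
    let _ : Field (Algebra.adjoin ℤ (T : Set F) ⧸ J) := Ideal.Quotient.field J
    have hft1 : @Algebra.FiniteType ℤ (Algebra.adjoin ℤ (T : Set F) ⧸ J) _ _
        (Ring.toIntAlgebra _) := by
      convert! hft0
    obtain ⟨hf, q, hq, hq0⟩ := finite_field_of_finiteType (Algebra.adjoin ℤ (T : Set F) ⧸ J)
    have hqJ : ((q : ℕ) : Algebra.adjoin ℤ (T : Set F)) ∈ J := by
      rw [← Ideal.Quotient.eq_zero_iff_mem, map_natCast]
      exact hq0
    have hres := virtuallyResiduallyFiniteQ_of_linear ρ' hρ'inj hq J hJ.ne_top hqJ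
    have : Fact q.Prime := ⟨hq⟩
    refine ⟨hres.roots, fun u v hv => ?_⟩
    refine Set.Subsingleton.finite ?_
    rintro a ⟨ha, hua⟩ b ⟨hb, hub⟩
    by_contra hne
    obtain ⟨g, hg⟩ := isConj_iff.mp (hua.symm.trans hub)
    obtain ⟨N, hN, hv1⟩ := linear_torsion (p := p) (ρ v) (ρ g) (Nat.Prime.pos ha)
      (Nat.Prime.pos hb) hne (by
        rw [← map_pow, ← map_pow, ← map_inv, ← map_mul, ← map_mul, hg])
    exact hv N hN (hρ (by rw [map_pow, hv1, map_one]))
  · subst hzero
    have : CharZero F := CharP.charP_to_charZero F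
    exact PowerSep.of_virtuallyResiduallyFinite (virtuallyResiduallyFinite_of_linear ρ hρ)

section family

variable {Γ : Type*} [Group Γ] {ι : Type*} [Finite ι]

/-- If `x` has finite order under all members of a finite jointly injective family then it has
finite order. -/
lemma exists_infinite_of_family {G : ι → Type*} [∀ i, Group (G i)] (f : ∀ i, Γ →* G i)
    (hinj : ∀ x, (∀ i, f i x = 1) → x = 1) {x : Γ} (hx : ∀ n : ℕ, 0 < n → x ^ n ≠ 1) :
    ∃ i, ∀ n : ℕ, 0 < n → f i x ^ n ≠ 1 := by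
  classical
  by_contra hcon
  push Not at hcon
  choose n hn hf using hcon
  have := Fintype.ofFinite ι
  refine hx (∏ i, n i) (Finset.prod_pos fun i _ => hn i) (hinj _ fun i => ?_)
  obtain ⟨d, hd⟩ := Finset.dvd_prod_of_mem n (Finset.mem_univ i)
  rw [hd, map_pow, pow_mul, hf, one_pow]

/-- Power separation from a finite jointly injective family. -/
theorem powerSep_of_family {G : ι → Type*} [∀ i, Group (G i)] (f : ∀ i, Γ →* G i)
    (hinj : ∀ x, (∀ i, f i x = 1) → x = 1) (h : ∀ i, PowerSep (G i)) : PowerSep Γ := by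
  classical
  have := Fintype.ofFinite ι
  refine ⟨?_, fun u v hv => ?_⟩
  · choose N hN using fun i => (h i).1
    refine ⟨∑ i, N i, fun l hl hlt x y hxy => ?_⟩
    have h1 : ∀ i, f i x = f i y := by
      intro i
      apply hN i l hl
      · exact (Finset.single_le_sum (fun j _ => Nat.zero_le (N j)) (Finset.mem_univ i)).trans_lt hlt
      · rw [← map_pow, ← map_pow, hxy]
    rw [← mul_inv_eq_one]
    apply hinj
    intro i
    rw [map_mul, map_inv, h1, mul_inv_cancel]
  · obtain ⟨i, hi⟩ := exists_infinite_of_family f hinj hv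
    refine ((h i).2 (f i u) (f i v) hi).subset ?_
    rintro l ⟨hl, hc⟩
    refine ⟨hl, ?_⟩
    have := (f i).map_isConj hc
    rwa [map_pow] at this

end family

/-- Finite families of representations over fields of arbitrary characteristics. -/
theorem powerSep_of_linear_family {Γ : Type*} [Group Γ] [Group.FG Γ] {ι : Type*} [Finite ι]
    {F : ι → Type*} [∀ i, Field (F i)] {k : ι → ℕ}
    (ρ : ∀ i, Γ →* Matrix.GeneralLinearGroup (Fin (k i)) (F i))
    (hinj : ∀ x, (∀ i, ρ i x = 1) → x = 1) : PowerSep Γ := by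
  refine powerSep_of_family (fun i => (ρ i).rangeRestrict) ?_ ?_
  · intro x hx
    apply hinj
    intro i
    exact congrArg Subtype.val (hx i)
  · intro i
    have : Group.FG (ρ i).range := Group.fg_range (ρ i)
    exact powerSep_of_linear (ρ i).range.subtype (Subgroup.subtype_injective _)

theorem pdet_of_linear_family.{v, u} {Γ : Type u} [Group Γ] [Group.FG Γ]
    (htf : ∀ g : Γ, ∀ n : ℕ, 0 < n → g ^ n = 1 → g = 1) {ι : Type*} [Finite ι]
    {F : ι → Type v} [∀ i, Field (F i)] {k : ι → ℕ}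
    (ρ : ∀ i, Γ →* Matrix.GeneralLinearGroup (Fin (k i)) (F i))
    (hinj : ∀ x, (∀ i, ρ i x = 1) → x = 1) :
    ∀ m : ℕ, 0 < m → ∃ p : ℕ, p.Prime ∧ p ≡ 1 [MOD m] ∧ ∀ c : Γ, c ≠ 1 → PDet.{v} p c := by
  classical
  intro m hm
  have := Fintype.ofFinite ι
  choose N hN using fun i => pdet_of_field (ρ i)
  obtain ⟨p, hp, hlt, hmod⟩ := Nat.exists_prime_gt_modEq_one (∑ i, N i) hm.ne'
  refine ⟨p, hp, hmod, fun c hc => ?_⟩
  have hinf : ∀ n : ℕ, 0 < n → c ^ n ≠ 1 := fun n hn h => hc (htf c n hn h)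
  obtain ⟨i, hi⟩ := exists_infinite_of_family ρ hinj hinf
  exact hN i p hp ((Finset.single_le_sum (fun j _ => Nat.zero_le (N j))
    (Finset.mem_univ i)).trans_lt hlt) c hi

/-- A finitely generated torsion-free linear group over a field of characteristic zero satisfies
the hypotheses: it lies in `GL_m(R)` for a finitely generated domain `R`, in which only finitely
many primes are invertible (`not_isUnit_natCast`, Dennis/Cofinite.lean), and
`Nat.exists_prime_gt_modEq_one`. (Enlarge the finite set of generators of `R`, by the entries of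
generators of the group and of their inverses.) -/
theorem pdet_of_linear.{v, u} {Γ : Type u} [Group Γ] [Group.FG Γ]
    (htf : ∀ g : Γ, ∀ n : ℕ, 0 < n → g ^ n = 1 → g = 1) {F : Type v} [Field F] [CharZero F]
    {k : ℕ} (ρ : Γ →* Matrix.GeneralLinearGroup (Fin k) F) (hρ : Function.Injective ρ) :
    ∀ m : ℕ, 0 < m → ∃ p : ℕ, p.Prime ∧ p ≡ 1 [MOD m] ∧ ∀ c : Γ, c ≠ 1 → PDet.{v} p c :=
  pdet_of_linear_family htf (ι := Unit) (fun _ => ρ) fun x hx =>
    hρ ((hx ()).trans (map_one ρ).symm)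

end Pool.Agent.Lib.MP_8f66f0_al_Wreath
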