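import Mathlib
import Pool.Agent.Lib.MP_8f66f0_al_Dennis.Deriv
import Pool.Agent.Lib.MP_8f66f0_al_Wreath.Lin

/-! Linear groups over arbitrary commutative rings: a finitely generated torsion-free subgroup of
`GL_m(R)`, `R` commutative, has a finite jointly injective family of representations over fields. -/

set_option autoImplicit false
set_option linter.unusedSectionVars false

namespace Pool.Agent.Lib.MP_8f66f0_al_Wreath

open Pool.Agent.Lib Pool.Agent.Lib.MP_8f66f0_al_Dennis IsLocalRing

universe v u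

/-- An injective ring homomorphism into matrices over a field gives a homomorphism of general
linear groups. -/
theorem exists_rep_of_finite {Λ : Type v} [CommRing Λ] (K : Type v) [Field K] [Algebra K Λ]
    [Module.Finite K Λ] (m : ℕ) :
    ∃ (k : ℕ) (f : Matrix.GeneralLinearGroup (Fin m) Λ →* Matrix.GeneralLinearGroup (Fin k) K),
      Function.Injective f := by
  classical
  set d := Module.finrank K Λ
  let b : Module.Basis (Fin d) K Λ := Module.finBasis K Λ
  let φ : Λ →+* Matrix (Fin d) (Fin d) K := (Algebra.leftMulMatrix b).toRingHom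
  have hφ : Function.Injective φ := Algebra.leftMulMatrix_injective b
  let g : Matrix (Fin m) (Fin m) Λ →+* Matrix (Fin (m * d)) (Fin (m * d)) K :=
    ((Matrix.reindexAlgEquiv K K (finProdFinEquiv (m := m) (n := d))).toRingEquiv.toRingHom.comp
      (Matrix.compRingEquiv (Fin m) (Fin d) K).toRingHom).comp φ.mapMatrix
  have hg : Function.Injective g := by
    have h1 : Function.Injective (φ.mapMatrix (m := Fin m)) := by
      intro a b hab
      ext i j
      apply hφ
      exact congrFun (congrFun hab i) j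
    exact ((Matrix.reindexAlgEquiv K K (finProdFinEquiv (m := m) (n := d))).injective.comp
      (Matrix.compRingEquiv (Fin m) (Fin d) K).injective).comp h1
  exact ⟨m * d, Units.map g.toMonoidHom, Units.map_injective hg⟩

/-- A Noetherian ring with a nilpotent ideal `M` and a section of `Λ → Λ / M` is finite over the
quotient. -/
theorem finite_of_section {Λ : Type v} [CommRing Λ] [IsNoetherianRing Λ] (M : Ideal Λ)
    (hM : IsNilpotent M) (K : Type v) [Field K] [Algebra K Λ]
    (hK : ∀ x : Λ, ∃ c : K, x - algebraMap K Λ c ∈ M) : Module.Finite K Λ := by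
  classical
  obtain ⟨t, ht⟩ := hM
  have key : ∀ i, i ≤ t → ((M ^ (t - i)).restrictScalars K).FG := by
    intro i
    induction i with
    | zero =>
      intro _
      rw [Nat.sub_zero, ht]
      have : (Submodule.restrictScalars K (0 : Ideal Λ)) = ⊥ := Submodule.restrictScalars_bot K Λ Λ
      rw [this]
      exact Submodule.fg_bot
    | succ i ih =>
      intro hi
      have h1 := ih (by omega)
      obtain ⟨S, hS⟩ := (IsNoetherian.noetherian (M ^ (t - (i + 1))) :
        (M ^ (t - (i + 1)) : Ideal Λ).FG)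
      have h2 : (M ^ (t - (i + 1))).restrictScalars K =
          Submodule.span K (S : Set Λ) ⊔ (M ^ (t - i)).restrictScalars K := by
        apply le_antisymm
        · intro x hx
          have hx' : x ∈ Submodule.span Λ (S : Set Λ) := by rw [hS]; exact hx
          refine Submodule.span_induction (p := fun y _ => y ∈
            Submodule.span K (S : Set Λ) ⊔ (M ^ (t - i)).restrictScalars K) ?_ ?_ ?_ ?_ hx'
          · intro y hy
            exact Submodule.mem_sup_left (Submodule.subset_span hy)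
          · exact Submodule.zero_mem _
          · intro y z _ _ hy hz
            exact Submodule.add_mem _ hy hz
          · intro a y _ hy
            obtain ⟨c, hc⟩ := hK a
            have e : a • y = c • y + (a - algebraMap K Λ c) * y := by
              rw [smul_eq_mul, Algebra.smul_def (R := K)]; ring
            rw [e]
            refine Submodule.add_mem _ (Submodule.smul_mem _ _ hy) ?_
            refine Submodule.mem_sup_right ?_
            have hy' : y ∈ M ^ (t - (i + 1)) := by
              obtain ⟨y1, hy1, y2, hy2, rfl⟩ := Submodule.mem_sup.mp hy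
              refine Ideal.add_mem _ ?_ ?_
              · rw [← hS]
                exact (Submodule.span_le_restrictScalars K Λ (S : Set Λ)) hy1
              · exact Ideal.pow_le_pow_right (by omega) hy2
            have e2 : t - i = 1 + (t - (i + 1)) := by omega
            change _ ∈ M ^ (t - i)
            rw [e2, pow_add, pow_one]
            exact Ideal.mul_mem_mul hc hy'
        · apply sup_le
          · rw [← hS]
            exact Submodule.span_le_restrictScalars K Λ (S : Set Λ)
          · intro x hx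
            exact Ideal.pow_le_pow_right (by omega) hx
      rw [h2]
      exact Submodule.FG.sup ⟨S, rfl⟩ h1
  have h := key t le_rfl
  rw [Nat.sub_self, pow_zero] at h
  refine ⟨?_⟩
  convert h
  ext x
  simp

/-- The local case in residue characteristic zero. -/
theorem exists_finite_field_of_charZero (Λ : Type v) [CommRing Λ] [IsNoetherianRing Λ]
    [IsLocalRing Λ] (hnil : IsNilpotent (maximalIdeal Λ))
    (h0 : ∀ n : ℕ, n ≠ 0 → (n : Λ) ∉ maximalIdeal Λ) :
    ∃ (K : Type v) (_ : Field K) (_ : Algebra K Λ), Module.Finite K Λ := by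
  classical
  have hQ : Nonempty (Algebra ℚ Λ) := by
    rw [EqualCharZero.nonempty_algebraRat_iff]
    intro I hI
    have hle : I ≤ maximalIdeal Λ := le_maximalIdeal hI
    refine ⟨?_⟩
    have hz : ∀ n : ℕ, ((n : ℕ) : Λ ⧸ I) = 0 → n = 0 := by
      intro n hn
      by_contra hne
      apply h0 n hne
      apply hle
      rw [← Ideal.Quotient.eq_zero_iff_mem, map_natCast]
      exact hn
    intro a b hab
    wlog hle' : a ≤ b generalizing a b
    · exact (this hab.symm (by omega)).symm
    obtain ⟨c, rfl⟩ := Nat.exists_eq_add_of_le hle'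
    have h1 : ((c : ℕ) : Λ ⧸ I) = 0 := by
      rw [Nat.cast_add] at hab
      exact left_eq_add.mp hab
    rw [hz c h1, add_zero]
  obtain ⟨hQ⟩ := hQ
  let K : Type v := Λ ⧸ maximalIdeal Λ
  let fK : Field K := Ideal.Quotient.field _
  have hfs : Algebra.FormallySmooth ℚ K := by
    have := formallySmooth_of_charZero ℚ K
    convert this
  let s : K →ₐ[ℚ] Λ := Algebra.FormallySmooth.lift (maximalIdeal Λ) hnil (AlgHom.id ℚ K)
  have hs : ∀ x : K, Ideal.Quotient.mk (maximalIdeal Λ) (s x) = x := fun x =>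
    Algebra.FormallySmooth.mk_lift (maximalIdeal Λ) hnil (AlgHom.id ℚ K) x
  let aK : Algebra K Λ := s.toRingHom.toAlgebra
  refine ⟨K, fK, aK, ?_⟩
  refine finite_of_section (maximalIdeal Λ) hnil K fun x => ?_
  refine ⟨Ideal.Quotient.mk _ x, ?_⟩
  rw [← Ideal.Quotient.eq_zero_iff_mem, map_sub, sub_eq_zero]
  exact (hs _).symm

/-- The local case. -/
theorem exists_rep_of_local {Λ : Type v} [CommRing Λ] [IsNoetherianRing Λ]
    [IsLocalRing Λ] (hnil : IsNilpotent (maximalIdeal Λ)) (m : ℕ) :
    ∃ (K : Type v) (_ : Field K) (k : ℕ)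
      (f : Matrix.GeneralLinearGroup (Fin m) Λ →* Matrix.GeneralLinearGroup (Fin k) K),
      ∀ x, f x = 1 → ∃ n : ℕ, 0 < n ∧ x ^ n = 1 := by
  classical
  by_cases h0 : ∀ n : ℕ, n ≠ 0 → (n : Λ) ∉ maximalIdeal Λ
  · obtain ⟨K, fK, aK, hK⟩ := exists_finite_field_of_charZero Λ hnil h0
    obtain ⟨k, f, hf⟩ := exists_rep_of_finite (Λ := Λ) K m
    refine ⟨K, fK, k, f, fun x hx => ⟨1, one_pos, ?_⟩⟩
    rw [pow_one]
    exact hf (hx.trans (map_one f).symm)
  · push Not at h0
    obtain ⟨n, hn0, hn⟩ := h0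
    refine ⟨Λ ⧸ maximalIdeal Λ, Ideal.Quotient.field _, m,
      Matrix.GeneralLinearGroup.map (Ideal.Quotient.mk (maximalIdeal Λ)), fun x hx => ?_⟩
    obtain ⟨t, ht⟩ := hnil
    have h1 := (MP_8f66f0_al_Dennis.map_eq_one_iff _ _).mp hx
    have h2 := h1.pow_pow hn t
    refine ⟨n ^ t, Nat.pow_pos (Nat.pos_of_ne_zero hn0), ?_⟩
    apply Units.ext
    ext i j
    have h3 := h2 i j
    rw [pow_succ, ht, zero_mul] at h3
    have h4 : ((x : Matrix (Fin m) (Fin m) Λ) ^ n ^ t - 1) i j = 0 := h3
    rw [Matrix.sub_apply, sub_eq_zero] at h4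
    rw [Units.val_pow_eq_pow_val, h4, Units.val_one]

/-- The primary case. -/
theorem exists_rep_of_primary_ring {S : Type v} [CommRing S] [IsNoetherianRing S] [Nontrivial S]
    (hnn : ∀ x y : S, x * y = 0 → x = 0 ∨ IsNilpotent y) (m : ℕ) :
    ∃ (K : Type v) (_ : Field K) (k : ℕ)
      (f : Matrix.GeneralLinearGroup (Fin m) S →* Matrix.GeneralLinearGroup (Fin k) K),
      ∀ x, f x = 1 → ∃ n : ℕ, 0 < n ∧ x ^ n = 1 := by
  classical
  set P : Ideal S := nilradical S with hP
  have hprime : P.IsPrime := by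
    refine ⟨?_, ?_⟩
    · intro h
      have h1 : (1 : S) ∈ P := by rw [h]; trivial
      have h2 : IsNilpotent (1 : S) := mem_nilradical.mp h1
      exact not_isNilpotent_one h2
    · intro x y hxy
      obtain ⟨n, hn⟩ := mem_nilradical.mp hxy
      rw [mul_pow] at hn
      rcases hnn _ _ hn with h | ⟨k, hk⟩
      · exact Or.inl (mem_nilradical.mpr ⟨n, h⟩)
      · exact Or.inr (mem_nilradical.mpr ⟨n * k, by rw [pow_mul]; exact hk⟩)
  have hle : P.primeCompl ≤ nonZeroDivisors S := by
    intro y hy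
    rw [mem_nonZeroDivisors_iff_right]
    intro x hxy
    rcases hnn _ _ hxy with h | h
    · exact h
    · exact absurd (mem_nilradical.mpr h) hy
  let Λ := Localization.AtPrime P
  have hinj : Function.Injective (algebraMap S Λ) := IsLocalization.injective Λ hle
  have hnoeth : IsNoetherianRing Λ := IsLocalization.isNoetherianRing P.primeCompl Λ inferInstance
  have hnil : IsNilpotent (maximalIdeal Λ) := by
    obtain ⟨n, hn⟩ := IsNoetherianRing.isNilpotent_nilradical S
    have hn' : P ^ n = ⊥ := hn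
    refine ⟨n, ?_⟩
    rw [← Localization.AtPrime.map_eq_maximalIdeal, ← Ideal.map_pow, hn']
    exact Ideal.map_bot
  obtain ⟨K, fK, k, f, hf⟩ := exists_rep_of_local hnil m
  refine ⟨K, fK, k, f.comp (Matrix.GeneralLinearGroup.map (algebraMap S Λ)), fun x hx => ?_⟩
  obtain ⟨n, hn, hxn⟩ := hf _ hx
  refine ⟨n, hn, ?_⟩
  rw [← map_pow] at hxn
  apply Units.ext
  ext i j
  apply hinj
  have h2 := congrArg (fun u : Matrix.GeneralLinearGroup (Fin m) Λ =>
    (u : Matrix (Fin m) (Fin m) Λ) i j) hxn
  refine h2.trans ?_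
  rw [Units.val_one, Units.val_one, Matrix.one_apply, Matrix.one_apply]
  split_ifs
  · rw [map_one]
  · rw [map_zero]

lemma quotient_primary {R : Type v} [CommRing R] {q : Ideal R} (hq : q.IsPrimary) :
    Nontrivial (R ⧸ q) ∧ ∀ x y : R ⧸ q, x * y = 0 → x = 0 ∨ IsNilpotent y := by
  obtain ⟨hne, hq⟩ := Ideal.isPrimary_iff.mp hq
  refine ⟨Ideal.Quotient.nontrivial_iff.mpr hne, fun x y hxy => ?_⟩
  obtain ⟨x, rfl⟩ := Ideal.Quotient.mk_surjective x
  obtain ⟨y, rfl⟩ := Ideal.Quotient.mk_surjective y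
  rw [← map_mul, Ideal.Quotient.eq_zero_iff_mem] at hxy
  rcases hq hxy with h | ⟨n, hn⟩
  · exact Or.inl (Ideal.Quotient.eq_zero_iff_mem.mpr h)
  · right
    refine ⟨n, ?_⟩
    rw [← map_pow]
    exact Ideal.Quotient.eq_zero_iff_mem.mpr hn

/-- Krull's intersection theorem for primary rings. -/
lemma krull_primary {S : Type v} [CommRing S] [IsNoetherianRing S] [Nontrivial S]
    (hnn : ∀ x y : S, x * y = 0 → x = 0 ∨ IsNilpotent y) {J : Ideal S} (hJ : J ≠ ⊤) {x : S}
    (hx : ∀ k : ℕ, x ∈ J ^ k) : x = 0 := by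
  have h1 : x ∈ (⨅ i : ℕ, J ^ i • ⊤ : Submodule S S) := by
    rw [Submodule.mem_iInf]
    intro k
    rw [smul_eq_mul, Ideal.mul_top]
    exact hx k
  obtain ⟨r, hr⟩ := (J.mem_iInf_smul_pow_eq_bot_iff x).mp h1
  have h2 : x * (1 - (r : S)) = 0 := by
    rw [mul_sub, mul_one, mul_comm, ← smul_eq_mul, hr, sub_self]
  rcases hnn _ _ h2 with h | ⟨n, hn⟩
  · exact h
  · exfalso
    apply hJ
    rw [Ideal.eq_top_iff_one, ← Ideal.Quotient.eq_zero_iff_mem, map_one]
    have h3 := congrArg (Ideal.Quotient.mk J) hn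
    rw [map_pow, map_sub, map_one, Ideal.Quotient.eq_zero_iff_mem.mpr r.2, sub_zero, one_pow,
      map_zero] at h3
    exact h3

/-- Congruence subgroups show that linear groups over Noetherian rings are virtually residually
finite-`q`, when the intersection of the powers of the ideal is zero. -/
lemma virtuallyResiduallyFiniteQ_of_krull {R : Type v} [CommRing R] {m : ℕ}
    [IsNoetherianRing R] {G : Type u} [Group G]
    (ρ : G →* Matrix.GeneralLinearGroup (Fin m) R) (hρ : Function.Injective ρ)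
    {q : ℕ} (hq : q.Prime) (J : Ideal R) (hJ : ∀ x, (∀ k : ℕ, x ∈ J ^ k) → x = 0)
    (hqJ : (q : R) ∈ J) [Finite (R ⧸ J)] :
    VirtuallyResiduallyFiniteQ q G := by
  have : Fact q.Prime := ⟨hq⟩
  set f : G →* Matrix.GeneralLinearGroup (Fin m) (R ⧸ J) :=
    (Matrix.GeneralLinearGroup.map (Ideal.Quotient.mk J)).comp ρ with hf
  refine ⟨f.ker, inferInstance, fun h hh => ?_⟩
  have hcong : ∀ x : f.ker, CongOne J (ρ x : Matrix (Fin m) (Fin m) R) := by
    intro x
    have h1 : Matrix.GeneralLinearGroup.map (Ideal.Quotient.mk J) (ρ (x : G)) = 1 := x.2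
    rwa [MP_8f66f0_al_Dennis.map_eq_one_iff] at h1
  -- a nonzero entry
  have hne : ∃ i j, ((ρ h : Matrix (Fin m) (Fin m) R) - 1) i j ≠ 0 := by
    by_contra hcon
    push Not at hcon
    apply hh
    apply Subtype.ext
    apply hρ
    rw [Subgroup.coe_one, map_one]
    apply Units.ext
    ext i j
    have := hcon i j
    rw [Matrix.sub_apply, sub_eq_zero] at this
    exact this
  obtain ⟨i, j, hij⟩ := hne
  have hkrull : ∃ k, ((ρ h : Matrix (Fin m) (Fin m) R) - 1) i j ∉ J ^ k := by
    by_contra hcon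
    push Not at hcon
    exact hij (hJ _ hcon)
  obtain ⟨k, hk⟩ := hkrull
  have hfinq : Finite (R ⧸ J ^ k) :=
    Ideal.finite_quotient_pow (IsNoetherian.noetherian J) k
  set F : f.ker →* Matrix.GeneralLinearGroup (Fin m) (R ⧸ J ^ k) :=
    ((Matrix.GeneralLinearGroup.map (Ideal.Quotient.mk (J ^ k))).comp ρ).comp f.ker.subtype with hF
  refine ⟨F.ker, inferInstance, ?_, ?_⟩
  · rw [Subgroup.index_ker]
    have hp : IsPGroup q F.range := by
      rintro ⟨_, x, rfl⟩
      refine ⟨k, ?_⟩
      apply Subtype.ext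
      rw [Subgroup.coe_pow, Subgroup.coe_one]
      change (F x) ^ q ^ k = 1
      rw [← map_pow]
      change Matrix.GeneralLinearGroup.map (Ideal.Quotient.mk (J ^ k)) (ρ ((x ^ q ^ k : f.ker) : G))
        = 1
      rw [MP_8f66f0_al_Dennis.map_eq_one_iff]
      have h2 := (hcong x).pow_pow hqJ k
      intro i j
      have h3 := h2 i j
      rw [Subgroup.coe_pow, map_pow, Units.val_pow_eq_pow_val]
      exact Ideal.pow_le_pow_right (by omega) h3
    exact IsPGroup.iff_card.mp hp
  · intro hmem
    rw [MonoidHom.mem_ker] at hmem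
    change Matrix.GeneralLinearGroup.map (Ideal.Quotient.mk (J ^ k)) (ρ (h : G)) = 1 at hmem
    rw [MP_8f66f0_al_Dennis.map_eq_one_iff] at hmem
    exact hk (hmem i j)

/-- Power separation for linear groups over primary rings which are finitely generated. -/
theorem powerSep_of_primary_ring {S : Type v} [CommRing S] [Nontrivial S]
    [Algebra.FiniteType ℤ S] (hnn : ∀ x y : S, x * y = 0 → x = 0 ∨ IsNilpotent y) {m : ℕ}
    {G : Type u} [Group G] [Group.FG G] (ρ : G →* Matrix.GeneralLinearGroup (Fin m) S)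
    (hρ : Function.Injective ρ) : Pool.Agent.Lib.MP_8f66f0_al_Uni.PowerSep G := by
  have hnoeth : IsNoetherianRing S := Algebra.FiniteType.isNoetherianRing ℤ _
  obtain ⟨J, hJ⟩ := Ideal.exists_maximal S
  have hft0 : Algebra.FiniteType ℤ (S ⧸ J) :=
    Algebra.FiniteType.of_surjective (Ideal.Quotient.mkₐ ℤ J) (Ideal.Quotient.mkₐ_surjective ℤ J)
  let _ : Field (S ⧸ J) := Ideal.Quotient.field J
  have hft1 : @Algebra.FiniteType ℤ (S ⧸ J) _ _ (Ring.toIntAlgebra _) := by
    convert! hft0
  obtain ⟨hf, q, hq, hq0⟩ := finite_field_of_finiteType (S ⧸ J)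
  have hqJ : ((q : ℕ) : S) ∈ J := by
    rw [← Ideal.Quotient.eq_zero_iff_mem, map_natCast]
    exact hq0
  have hres := virtuallyResiduallyFiniteQ_of_krull ρ hρ hq J
    (fun x hx => krull_primary hnn hJ.ne_top hx) hqJ
  have : Fact q.Prime := ⟨hq⟩
  refine ⟨hres.roots, fun u v hv => ?_⟩
  obtain ⟨K, fK, k, f, hf'⟩ := exists_rep_of_primary_ring hnn m
  set g : G →* Matrix.GeneralLinearGroup (Fin k) K := f.comp ρ with hg
  have hgr : Group.FG g.range := Group.fg_range g
  have hv' : ∀ n : ℕ, 0 < n → g.rangeRestrict v ^ n ≠ 1 := by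
    intro n hn h
    have h1 : f (ρ (v ^ n)) = 1 := by
      have h2 := congrArg Subtype.val h
      rw [Subgroup.coe_pow, Subgroup.coe_one, MonoidHom.coe_rangeRestrict] at h2
      rw [map_pow, map_pow]
      exact h2
    obtain ⟨l, hl, h3⟩ := hf' _ h1
    refine hv (n * l) (Nat.mul_pos hn hl) (hρ ?_)
    rw [pow_mul, map_pow, h3, map_one]
  refine ((powerSep_of_linear g.range.subtype (Subgroup.subtype_injective _)).2
    (g.rangeRestrict u) (g.rangeRestrict v) hv').subset ?_
  rintro l ⟨hl, hc⟩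
  refine ⟨hl, ?_⟩
  have := g.rangeRestrict.map_isConj hc
  rwa [map_pow] at this

/-- A linear group over a commutative Noetherian ring has a finite family of representations over
fields with torsion kernel. -/
theorem exists_family_of_noetherian {R : Type v} [CommRing R] [IsNoetherianRing R] {m : ℕ}
    {Γ : Type u} [Group Γ] (ρ : Γ →* Matrix.GeneralLinearGroup (Fin m) R)
    (hρ : Function.Injective ρ) :
    ∃ (ι : Type v) (_ : Finite ι) (F : ι → Type v) (_ : ∀ i, Field (F i)) (k : ι → ℕ)
      (σ : ∀ i, Γ →* Matrix.GeneralLinearGroup (Fin (k i)) (F i)),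
      ∀ x, (∀ i, σ i x = 1) → ∃ n : ℕ, 0 < n ∧ x ^ n = 1 := by
  classical
  obtain ⟨s, hs, hs'⟩ := Submodule.isLasker R R (⊥ : Ideal R)
  have hex : ∀ q : s, ∃ (K : Type v) (_ : Field K) (k : ℕ)
      (f : Matrix.GeneralLinearGroup (Fin m) (R ⧸ q.1) →* Matrix.GeneralLinearGroup (Fin k) K),
      ∀ x, f x = 1 → ∃ n : ℕ, 0 < n ∧ x ^ n = 1 := by
    intro q
    obtain ⟨h1, h2⟩ := quotient_primary (hs' q.2)
    exact exists_rep_of_primary_ring h2 m
  choose F fF k f hf using hex
  refine ⟨s, inferInstance, F, fF, k, fun i =>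
    ((f i).comp (Matrix.GeneralLinearGroup.map (Ideal.Quotient.mk i.1))).comp ρ, fun x hx => ?_⟩
  choose n hn hxn using fun i => hf i _ (hx i)
  refine ⟨∏ i, n i, Finset.prod_pos fun i _ => hn i, hρ ?_⟩
  rw [map_pow, map_one]
  apply Units.ext
  ext i j
  rw [← sub_eq_zero, ← Matrix.sub_apply]
  have hmem : ∀ q : s, (((ρ x ^ ∏ i, n i : Matrix.GeneralLinearGroup (Fin m) R) :
      Matrix (Fin m) (Fin m) R) - 1) i j ∈ q.1 := by
    intro q
    obtain ⟨d, hd⟩ := Finset.dvd_prod_of_mem n (Finset.mem_univ q)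
    have h1 : Matrix.GeneralLinearGroup.map (Ideal.Quotient.mk q.1) (ρ x ^ ∏ i, n i) = 1 := by
      rw [hd, pow_mul, map_pow, map_pow, hxn q, one_pow]
    exact (MP_8f66f0_al_Dennis.map_eq_one_iff _ _).mp h1 i j
  have h2 : (((ρ x ^ ∏ i, n i : Matrix.GeneralLinearGroup (Fin m) R) :
      Matrix (Fin m) (Fin m) R) - 1) i j ∈ s.inf id := by
    rw [Submodule.mem_finsetInf]
    intro q hq
    exact hmem ⟨q, hq⟩
  rw [hs] at h2
  exact h2

/-- Power separation for finitely generated linear groups over finitely generated rings. -/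
theorem powerSep_of_finiteType {R : Type v} [CommRing R] [hft : Algebra.FiniteType ℤ R] {m : ℕ}
    {Γ : Type u} [Group Γ] [Group.FG Γ] (ρ : Γ →* Matrix.GeneralLinearGroup (Fin m) R)
    (hρ : Function.Injective ρ) : Pool.Agent.Lib.MP_8f66f0_al_Uni.PowerSep Γ := by
  classical
  have hnoeth : IsNoetherianRing R := Algebra.FiniteType.isNoetherianRing ℤ _
  obtain ⟨s, hs, hs'⟩ := Submodule.isLasker R R (⊥ : Ideal R)
  let g : ∀ q : s, Γ →* Matrix.GeneralLinearGroup (Fin m) (R ⧸ q.1) := fun q =>
    (Matrix.GeneralLinearGroup.map (Ideal.Quotient.mk q.1)).comp ρ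
  refine powerSep_of_family (ι := s) (fun q => (g q).rangeRestrict) ?_ ?_
  · intro x hx
    apply hρ
    rw [map_one]
    apply Units.ext
    ext i j
    rw [← sub_eq_zero, ← Matrix.sub_apply]
    have h2 : ((ρ x : Matrix (Fin m) (Fin m) R) - 1) i j ∈ s.inf id := by
      rw [Submodule.mem_finsetInf]
      intro q hq
      have h1 : Matrix.GeneralLinearGroup.map (Ideal.Quotient.mk q) (ρ x) = 1 :=
        congrArg Subtype.val (hx ⟨q, hq⟩)
      exact (MP_8f66f0_al_Dennis.map_eq_one_iff _ _).mp h1 i j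
    rw [hs] at h2
    exact h2
  · intro q
    obtain ⟨h1, h2⟩ := quotient_primary (hs' q.2)
    have hgr : Group.FG (g q).range := Group.fg_range (g q)
    have hft' : Algebra.FiniteType ℤ (R ⧸ q.1) :=
      Algebra.FiniteType.of_surjective (Ideal.Quotient.mkₐ ℤ q.1)
        (Ideal.Quotient.mkₐ_surjective ℤ q.1)
    have hft'' : @Algebra.FiniteType ℤ (R ⧸ q.1) _ _ (Ring.toIntAlgebra _) := by
      convert! hft'
    exact powerSep_of_primary_ring h2 (g q).range.subtype (Subgroup.subtype_injective _)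

/-- A finitely generated linear group over a commutative ring is linear over a finitely generated
subring. -/
lemma exists_fg_ring_comm {F : Type v} [CommRing F] {m : ℕ} {G : Type u} [Group G] [Group.FG G]
    (ρ : G →* Matrix.GeneralLinearGroup (Fin m) F) (hρ : Function.Injective ρ) :
    ∃ (R : Subalgebra ℤ F) (ρ' : G →* Matrix.GeneralLinearGroup (Fin m) R),
      Algebra.FiniteType ℤ R ∧ Function.Injective ρ' := by
  classical
  obtain ⟨S, hS⟩ := (Group.fg_def.mp ‹Group.FG G›)
  set T : Finset F := (S ×ˢ (Finset.univ : Finset (Fin m × Fin m))).biUnion fun x =>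
    {(ρ x.1 : Matrix (Fin m) (Fin m) F) x.2.1 x.2.2,
      ((ρ x.1)⁻¹ : Matrix.GeneralLinearGroup (Fin m) F) x.2.1 x.2.2} with hT
  set R : Subalgebra ℤ F := Algebra.adjoin ℤ (T : Set F) with hR
  have hfg : R.FG := Subalgebra.fg_adjoin_finset T
  have hft : Algebra.FiniteType ℤ R := R.fg_iff_finiteType.mp hfg
  set ι : R →+* F := algebraMap R F with hι
  have hιinj : Function.Injective ι := Subtype.val_injective
  set μ : Matrix.GeneralLinearGroup (Fin m) R →* Matrix.GeneralLinearGroup (Fin m) F :=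
    Matrix.GeneralLinearGroup.map ι with hμ
  have hμinj : Function.Injective μ := by
    intro a b hab
    apply Units.ext
    ext i j
    have h1 := congrArg (fun u : Matrix.GeneralLinearGroup (Fin m) F =>
      (u : Matrix (Fin m) (Fin m) F) i j) hab
    exact h1
  have hrange : ∀ g : G, ρ g ∈ μ.range := by
    have hle : Subgroup.closure (S : Set G) ≤ μ.range.comap ρ := by
      rw [Subgroup.closure_le]
      intro s hs
      have hmem : ∀ i j, (ρ s : Matrix (Fin m) (Fin m) F) i j ∈ R := by
        intro i j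
        apply Algebra.subset_adjoin
        rw [hT, Finset.mem_coe, Finset.mem_biUnion]
        exact ⟨(s, (i, j)), Finset.mem_product.mpr ⟨hs, Finset.mem_univ _⟩, by simp⟩
      have hmem' : ∀ i j, ((ρ s)⁻¹ : Matrix.GeneralLinearGroup (Fin m) F) i j ∈ R := by
        intro i j
        apply Algebra.subset_adjoin
        rw [hT, Finset.mem_coe, Finset.mem_biUnion]
        exact ⟨(s, (i, j)), Finset.mem_product.mpr ⟨hs, Finset.mem_univ _⟩, by simp⟩
      set M : Matrix (Fin m) (Fin m) R := Matrix.of fun i j => ⟨_, hmem i j⟩ with hM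
      set M' : Matrix (Fin m) (Fin m) R := Matrix.of fun i j => ⟨_, hmem' i j⟩ with hM'
      have hMm : M.map ι = (ρ s : Matrix (Fin m) (Fin m) F) := rfl
      have hMm' : M'.map ι = ((ρ s)⁻¹ : Matrix.GeneralLinearGroup (Fin m) F) := rfl
      have h1 : M * M' = 1 := by
        apply Matrix.map_injective hιinj
        change (M * M').map ι = (1 : Matrix (Fin m) (Fin m) R).map ι
        rw [Matrix.map_mul, hMm, hMm', Matrix.map_one _ (map_zero _) (map_one _), ← Units.val_mul,
          mul_inv_cancel, Units.val_one]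
      have h2 : M' * M = 1 := by
        apply Matrix.map_injective hιinj
        change (M' * M).map ι = (1 : Matrix (Fin m) (Fin m) R).map ι
        rw [Matrix.map_mul, hMm, hMm', Matrix.map_one _ (map_zero _) (map_one _), ← Units.val_mul,
          inv_mul_cancel, Units.val_one]
      refine ⟨⟨M, M', h1, h2⟩, ?_⟩
      apply Units.ext
      rfl
    intro g
    have : g ∈ Subgroup.closure (S : Set G) := by rw [hS]; trivial
    exact hle this
  set ρ' : G →* Matrix.GeneralLinearGroup (Fin m) R :=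
    ((MonoidHom.ofInjective hμinj).symm.toMonoidHom).comp (ρ.codRestrict μ.range hrange) with hρ'
  have hρ'inj : Function.Injective ρ' := by
    intro a b hab
    apply hρ
    have h1 := (MonoidHom.ofInjective hμinj).symm.injective hab
    exact congrArg Subtype.val h1
  exact ⟨R, ρ', hft, hρ'inj⟩

/-- A finitely generated subgroup of `GL_m(R)`, `R` any commutative ring, has a finite
family of representations over fields with torsion kernel. -/
theorem exists_family_of_commRing {R : Type v} [CommRing R] {m : ℕ}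
    {Γ : Type u} [Group Γ] [Group.FG Γ]
    (ρ : Γ →* Matrix.GeneralLinearGroup (Fin m) R) (hρ : Function.Injective ρ) :
    ∃ (ι : Type v) (_ : Finite ι) (F : ι → Type v) (_ : ∀ i, Field (F i)) (k : ι → ℕ)
      (σ : ∀ i, Γ →* Matrix.GeneralLinearGroup (Fin (k i)) (F i)),
      ∀ x, (∀ i, σ i x = 1) → ∃ n : ℕ, 0 < n ∧ x ^ n = 1 := by
  obtain ⟨R', ρ', hft, hinj⟩ := exists_fg_ring_comm ρ hρ
  have : IsNoetherianRing R' := Algebra.FiniteType.isNoetherianRing ℤ _
  exact exists_family_of_noetherian ρ' hinj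

/-- Power separation for finitely generated linear groups over commutative rings. -/
theorem powerSep_of_commRing {R : Type v} [CommRing R] {m : ℕ}
    {Γ : Type u} [Group Γ] [Group.FG Γ]
    (ρ : Γ →* Matrix.GeneralLinearGroup (Fin m) R) (hρ : Function.Injective ρ) :
    Pool.Agent.Lib.MP_8f66f0_al_Uni.PowerSep Γ := by
  obtain ⟨R', ρ', hft, hinj⟩ := exists_fg_ring_comm ρ hρ
  have hft' : @Algebra.FiniteType ℤ R' _ _ (Ring.toIntAlgebra _) := by
    convert! hft
  exact powerSep_of_finiteType ρ' hinj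

/-- Good primes for the elements of infinite order of finitely generated linear groups over
commutative rings. -/
theorem pdet_of_commRing_inf {R : Type v} [CommRing R] {m : ℕ}
    {Γ : Type u} [Group Γ] [Group.FG Γ]
    (ρ : Γ →* Matrix.GeneralLinearGroup (Fin m) R) (hρ : Function.Injective ρ) :
    ∃ N : ℕ, ∀ p : ℕ, p.Prime → N < p → ∀ c : Γ, (∀ n : ℕ, 0 < n → c ^ n ≠ 1) →
      Pool.Agent.Lib.MP_8f66f0_al_Uni.PDet.{v} p c := by
  classical
  obtain ⟨ι, _, F, _, k, σ, hσ⟩ := exists_family_of_commRing ρ hρ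
  have := Fintype.ofFinite ι
  choose N hN using fun i => pdet_of_field (σ i)
  refine ⟨∑ i, N i, fun p hp hlt c hc => ?_⟩
  have hinf : ∃ i, ∀ n : ℕ, 0 < n → σ i c ^ n ≠ 1 := by
    by_contra hcon
    push Not at hcon
    choose n hn hf using hcon
    obtain ⟨l, hl, h1⟩ := hσ (c ^ ∏ i, n i) (by
      intro i
      obtain ⟨d, hd⟩ := Finset.dvd_prod_of_mem n (Finset.mem_univ i)
      rw [hd, map_pow, pow_mul, hf, one_pow])
    rw [← pow_mul] at h1
    exact hc _ (Nat.mul_pos (Finset.prod_pos fun i _ => hn i) hl) h1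
  obtain ⟨i, hi⟩ := hinf
  exact hN i p hp ((Finset.single_le_sum (fun j _ => Nat.zero_le (N j))
    (Finset.mem_univ i)).trans_lt hlt) c hi

/-- Good primes for finitely generated torsion-free linear groups over commutative rings. -/
theorem pdet_of_commRing {R : Type v} [CommRing R] {m : ℕ}
    {Γ : Type u} [Group Γ] [Group.FG Γ] (htf : ∀ g : Γ, ∀ n : ℕ, 0 < n → g ^ n = 1 → g = 1)
    (ρ : Γ →* Matrix.GeneralLinearGroup (Fin m) R) (hρ : Function.Injective ρ) :
    ∀ m : ℕ, 0 < m → ∃ p : ℕ, p.Prime ∧ p ≡ 1 [MOD m] ∧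
      ∀ c : Γ, c ≠ 1 → Pool.Agent.Lib.MP_8f66f0_al_Uni.PDet.{v} p c := by
  intro m hm
  obtain ⟨N, hN⟩ := pdet_of_commRing_inf ρ hρ
  obtain ⟨p, hp, hlt, hmod⟩ := Nat.exists_prime_gt_modEq_one N hm.ne'
  exact ⟨p, hp, hmod, fun c hc => hN p hp hlt c fun n hn h => hc (htf c n hn h)⟩

end Pool.Agent.Lib.MP_8f66f0_al_Wreath
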