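import Mathlib

namespace Pool.Agent.Lib.MP_8f66f0_al_Dennis
end Pool.Agent.Lib.MP_8f66f0_al_Dennis
namespace Pool.Agent.Lib.MP_8f66f0_al_FinQ
end Pool.Agent.Lib.MP_8f66f0_al_FinQ
namespace Pool.Agent.Lib.MP_8f66f0_al_Plus
end Pool.Agent.Lib.MP_8f66f0_al_Plus

/-! Tensor powers of matrices over a group ring and the regular wreath product: definitions. -/

set_option autoImplicit false
set_option linter.unusedSectionVars false

namespace Pool.Agent.Lib.MP_8f66f0_al_Wreath

open Pool.Agent.Lib.MP_8f66f0_al_Dennis Pool.Agent.Lib.MP_8f66f0_al_FinQ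
open Pool.Agent.Lib.MP_8f66f0_al_Plus

section defs

variable {Γ : Type*} [Group Γ] {C : Type*} [Group C] {n : ℕ}

/-- The translate of a function on the group `C`. -/
def sh {α : Type*} (s : C) (f : C → α) : C → α := fun x => f (s⁻¹ * x)

lemma sh_apply {α : Type*} (s : C) (f : C → α) (x : C) : sh s f x = f (s⁻¹ * x) := rfl

@[simp] lemma sh_one {α : Type*} (f : C → α) : sh (1 : C) f = f := by
  funext x; rw [sh_apply, inv_one, one_mul]

lemma sh_sh {α : Type*} (s t : C) (f : C → α) : sh s (sh t f) = sh (s * t) f := by
  funext x; rw [sh_apply, sh_apply, sh_apply, mul_inv_rev, mul_assoc]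

lemma sh_inv_sh {α : Type*} (s : C) (f : C → α) : sh s⁻¹ (sh s f) = f := by
  rw [sh_sh, inv_mul_cancel, sh_one]

lemma sh_sh_inv {α : Type*} (s : C) (f : C → α) : sh s (sh s⁻¹ f) = f := by
  rw [sh_sh, mul_inv_cancel, sh_one]

/-- The inclusion of the base group in the wreath product. -/
def base : (C → Γ) →* RegularWreathProduct Γ C where
  toFun g := ⟨g, 1⟩
  map_one' := rfl
  map_mul' g h := by ext <;> simp

lemma base_injective : Function.Injective (base : (C → Γ) →* RegularWreathProduct Γ C) := by
  intro g h hgh
  exact congrArg RegularWreathProduct.left hgh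

/-- The homomorphism of group rings given by the inclusion of the base group. -/
noncomputable def baseHom : MonoidAlgebra ℤ (C → Γ) →+* MonoidAlgebra ℤ (RegularWreathProduct Γ C) :=
  MonoidAlgebra.mapDomainRingHom ℤ base

/-- The translation on the group ring of the base group. -/
noncomputable def shHom (s : C) : MonoidAlgebra ℤ (C → Γ) →+* MonoidAlgebra ℤ (C → Γ) :=
  MonoidAlgebra.mapDomainRingHom ℤ
    { toFun := sh s
      map_one' := rfl
      map_mul' := fun _ _ => rfl }

/-- The diagonal homomorphism. -/
def diag : Γ →* (C → Γ) where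
  toFun g := fun _ => g
  map_one' := rfl
  map_mul' _ _ := rfl

/-- A function is constant. -/
def IsCst {α : Type*} (i : C → α) : Prop := ∀ x, i x = i 1

lemma IsCst.sh {α : Type*} {i : C → α} (h : IsCst i) (s : C) : sh s i = i := by
  funext x
  rw [sh_apply, h, h x]

lemma isCst_of_sh {α : Type*} {i : C → α} (h : ∀ s : C, MP_8f66f0_al_Wreath.sh s i = i) : IsCst i := by
  intro x
  have := congrFun (h x) x
  rw [sh_apply, inv_mul_cancel] at this
  exact this.symm

variable [Fintype C]

/-- The tensor product of a family of elements of the group ring, an element of the group ring of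
the product. -/
noncomputable def tp (a : C → MonoidAlgebra ℤ Γ) : MonoidAlgebra ℤ (C → Γ) := by
  classical
  exact MonoidAlgebra.ofCoeff (Finsupp.onFinset (Fintype.piFinset fun x => (a x).coeff.support)
    (fun g => ∏ x, (a x).coeff (g x)) (by
      intro g hg
      rw [Fintype.mem_piFinset]
      intro x
      rw [Finsupp.mem_support_iff]
      exact fun h => hg (Finset.prod_eq_zero (Finset.mem_univ x) h)))

lemma coeff_tp (a : C → MonoidAlgebra ℤ Γ) (g : C → Γ) :
    (tp a).coeff g = ∏ x, (a x).coeff (g x) := rfl

/-- The tensor power of a matrix over the group ring. -/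
noncomputable def ten (A : Matrix (Fin n) (Fin n) (MonoidAlgebra ℤ Γ)) :
    Matrix (C → Fin n) (C → Fin n) (MonoidAlgebra ℤ (C → Γ)) :=
  Matrix.of fun i j => tp fun x => A (i x) (j x)

open Classical in
/-- The matrix which is `A` diagonally on the constant indices and the identity elsewhere. -/
noncomputable def dia (A : Matrix (Fin n) (Fin n) (MonoidAlgebra ℤ Γ)) :
    Matrix (C → Fin n) (C → Fin n) (MonoidAlgebra ℤ (C → Γ)) :=
  Matrix.of fun i j =>
    if IsCst i ∧ IsCst j then MonoidAlgebra.mapDomainRingHom ℤ diag (A (i 1) (j 1))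
    else if i = j then 1 else 0

open Classical in
/-- The translations as matrices over the group ring of the wreath product. -/
noncomputable def trn (n : ℕ) (s : C) :
    Matrix (C → Fin n) (C → Fin n) (MonoidAlgebra ℤ (RegularWreathProduct Γ C)) :=
  Matrix.of fun i j => if i = sh s j then
    MonoidAlgebra.single (RegularWreathProduct.inl s) 1 else 0

end defs

section wchar

variable {Γ : Type*} [Group Γ] {C : Type*} [Group C] [Fintype C] {E : Type*} [CommRing E]

/-- The one-dimensional representation of the wreath product given by `χ` and `ω`. -/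
def wchar (χ : Γ →* E) (ω : C →* E) : RegularWreathProduct Γ C →* E where
  toFun h := (∏ x, χ (h.left x)) * ω h.right
  map_one' := by simp
  map_mul' g h := by
    simp only [RegularWreathProduct.mul_left, RegularWreathProduct.mul_right, Pi.mul_apply,
      map_mul, Finset.prod_mul_distrib]
    rw [Fintype.prod_equiv (Equiv.mulLeft g.right⁻¹) (fun x => χ (h.left (g.right⁻¹ * x)))
      (fun x => χ (h.left x)) fun x => rfl]
    ring

lemma wchar_apply (χ : Γ →* E) (ω : C →* E) (h : RegularWreathProduct Γ C) :
    wchar χ ω h = (∏ x, χ (h.left x)) * ω h.right := rfl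

end wchar

section fielddefs

variable {C : Type*} [Group C] [Fintype C] [DecidableEq C] {n : ℕ} {E : Type*} [CommRing E]

/-- The tensor power of a matrix over a commutative ring. -/
def tenE (M : Matrix (Fin n) (Fin n) E) : Matrix (C → Fin n) (C → Fin n) E :=
  Matrix.of fun i j => ∏ x, M (i x) (j x)

open Classical in
/-- The matrix which is `K` on the constant indices and the identity elsewhere. -/
noncomputable def diaE (K : Matrix (Fin n) (Fin n) E) : Matrix (C → Fin n) (C → Fin n) E :=
  Matrix.of fun i j => if IsCst i ∧ IsCst j then K (i 1) (j 1) else if i = j then 1 else 0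

open Classical in
/-- The permutation matrices of the translations times a character. -/
noncomputable def trnE (n : ℕ) (ω : C →* E) (s : C) : Matrix (C → Fin n) (C → Fin n) E :=
  Matrix.of fun i j => if i = sh s j then ω s else 0

/-- The determinant of `Z` on the image of the idempotent `e = |C|⁻¹ ∑ ω(s) s`. -/
noncomputable def dete {E : Type*} [Field E] (ω : C →* E)
    (Z : Matrix (C → Fin n) (C → Fin n) E) : E :=
  (1 + (Z - 1) * ((Fintype.card C : E)⁻¹ • ∑ s, trnE n ω s)).det

end fielddefs

end Pool.Agent.Lib.MP_8f66f0_al_Wreath
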