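import Mathlib
import Pool.Agent.Lib.MP_8f66f0_al_Wreath.Basic

namespace Pool.Agent.Lib.MP_8f66f0_al_Dennis
end Pool.Agent.Lib.MP_8f66f0_al_Dennis
namespace Pool.Agent.Lib.MP_8f66f0_al_FinQ
end Pool.Agent.Lib.MP_8f66f0_al_FinQ
namespace Pool.Agent.Lib.MP_8f66f0_al_Plus
end Pool.Agent.Lib.MP_8f66f0_al_Plus

/-! Tensor powers of elements and of matrices over a group ring. -/

set_option autoImplicit false
set_option linter.unusedSectionVars false

namespace Pool.Agent.Lib.MP_8f66f0_al_Wreath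

open Pool.Agent.Lib.MP_8f66f0_al_Dennis Pool.Agent.Lib.MP_8f66f0_al_FinQ
open Pool.Agent.Lib.MP_8f66f0_al_Plus

section tp

variable {Γ : Type*} [Group Γ] {C : Type*} [Group C] [Fintype C] [DecidableEq C] {n : ℕ}

lemma support_tp (a : C → MonoidAlgebra ℤ Γ) :
    (tp a).coeff.support ⊆ Fintype.piFinset fun x => (a x).coeff.support := by
  intro g hg
  rw [Finsupp.mem_support_iff, coeff_tp] at hg
  rw [Fintype.mem_piFinset]
  intro x
  rw [Finsupp.mem_support_iff]
  exact fun h => hg (Finset.prod_eq_zero (Finset.mem_univ x) h)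

/-- Coefficient of `g`: `∑ h ∈ ∏ support (a x), ∏ x, a x (h x) * b x ((h x)⁻¹ * g x)`, use
`Finset.prod_univ_sum`. -/
theorem tp_mul (a b : C → MonoidAlgebra ℤ Γ) : tp a * tp b = tp fun x => a x * b x := by
  apply MonoidAlgebra.coeff_injective
  ext g
  rw [MonoidAlgebra.coeff_mul_apply_left, coeff_tp,
    Finsupp.sum_of_support_subset (tp a).coeff (support_tp a)
      (fun h r => r * (tp b).coeff (h⁻¹ * g)) (fun i _ => zero_mul _)]
  simp only [coeff_tp, Pi.mul_apply, Pi.inv_apply, MonoidAlgebra.coeff_mul_apply_left,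
    Finsupp.sum]
  rw [Finset.prod_univ_sum]
  refine Finset.sum_congr rfl fun h _ => ?_
  rw [Finset.prod_mul_distrib]

/-- `tp` of a family of sums (only what `ten_mul` needs): compare coefficients, again
`Finset.prod_univ_sum`. -/
theorem tp_sum (F : C → Fin n → MonoidAlgebra ℤ Γ) :
    tp (fun x => ∑ k, F x k) = ∑ k : C → Fin n, tp fun x => F x (k x) := by
  apply MonoidAlgebra.coeff_injective
  ext g
  rw [coeff_tp, MonoidAlgebra.coeff_sum, Finsupp.finsetSum_apply]
  simp only [coeff_tp, MonoidAlgebra.coeff_sum, Finsupp.finsetSum_apply]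
  rw [Finset.prod_univ_sum]
  refine Finset.sum_congr ?_ fun k _ => rfl
  simp

theorem ten_mul (A B : Matrix (Fin n) (Fin n) (MonoidAlgebra ℤ Γ)) :
    (ten A * ten B : Matrix (C → Fin n) (C → Fin n) (MonoidAlgebra ℤ (C → Γ))) = ten (A * B) := by
  ext1 i j
  rw [Matrix.mul_apply]
  simp only [ten, Matrix.of_apply, Matrix.mul_apply, tp_sum, tp_mul]

lemma tp_zero {a : C → MonoidAlgebra ℤ Γ} {x : C} (h : a x = 0) : tp a = 0 := by
  apply MonoidAlgebra.coeff_injective
  ext g
  rw [coeff_tp, Finset.prod_eq_zero (Finset.mem_univ x) (by rw [h]; rfl)]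
  rfl

lemma tp_one : tp (fun _ : C => (1 : MonoidAlgebra ℤ Γ)) = 1 := by
  classical
  apply MonoidAlgebra.coeff_injective
  ext g
  rw [coeff_tp, MonoidAlgebra.one_def, MonoidAlgebra.one_def]
  simp only [MonoidAlgebra.coeff_single]
  by_cases hg : g = 1
  · subst hg
    simp
  · rw [Finsupp.single_eq_of_ne hg]
    obtain ⟨x, hx⟩ := Function.ne_iff.mp hg
    exact Finset.prod_eq_zero (Finset.mem_univ x) (Finsupp.single_eq_of_ne hx)

theorem ten_one : (ten (1 : Matrix (Fin n) (Fin n) (MonoidAlgebra ℤ Γ)) :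
    Matrix (C → Fin n) (C → Fin n) (MonoidAlgebra ℤ (C → Γ))) = 1 := by
  ext1 i j
  rw [ten, Matrix.of_apply]
  by_cases h : i = j
  · subst h
    simp only [Matrix.one_apply_eq]
    exact tp_one
  · obtain ⟨x, hx⟩ := Function.ne_iff.mp h
    rw [Matrix.one_apply_ne h]
    exact tp_zero (x := x) (Matrix.one_apply_ne hx)

/-- The constant index. -/
def cst (k : Fin n) : C → Fin n := fun _ => k

lemma isCst_cst (k : Fin n) : IsCst (cst k : C → Fin n) := fun _ => rfl

lemma IsCst.eq_cst {i : C → Fin n} (h : IsCst i) : i = cst (i 1) := by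
  funext x
  exact h x

/-- Matrices of the shape of `dia`. -/
noncomputable def dia' {R : Type*} [Semiring R] (A : Matrix (Fin n) (Fin n) R) :
    Matrix (C → Fin n) (C → Fin n) R := by
  classical
  exact Matrix.of fun i j => if IsCst i ∧ IsCst j then A (i 1) (j 1) else if i = j then 1 else 0

lemma dia'_mul {R : Type*} [Semiring R] (A B : Matrix (Fin n) (Fin n) R) :
    (dia' A * dia' B : Matrix (C → Fin n) (C → Fin n) R) = dia' (A * B) := by
  classical
  ext1 i j
  rw [Matrix.mul_apply]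
  simp only [dia', Matrix.of_apply]
  by_cases hi : IsCst i
  · by_cases hj : IsCst j
    · rw [if_pos ⟨hi, hj⟩, Matrix.mul_apply]
      symm
      refine Finset.sum_of_injOn (fun k => cst k) ?_ ?_ ?_ ?_
      · intro a _ b _ hab
        exact congrFun hab 1
      · intro a _
        exact Finset.mem_coe.mpr (Finset.mem_univ _)
      · intro k _ hk
        have hk' : ¬ IsCst k := fun h => hk ⟨k 1, by simp, h.eq_cst.symm⟩
        have h1 : ¬ i = k := fun h => hk' (h ▸ hi)
        rw [if_neg (fun h => hk' h.2), if_neg h1, zero_mul]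
      · intro k _
        rw [if_pos ⟨hi, isCst_cst k⟩, if_pos ⟨isCst_cst k, hj⟩]
        rfl
    · have h1 : ¬ i = j := fun h => hj (h ▸ hi)
      rw [if_neg (fun h => hj h.2), if_neg h1]
      refine Finset.sum_eq_zero fun k _ => ?_
      by_cases hk : IsCst k
      · have h2 : ¬ k = j := fun h => hj (h ▸ hk)
        rw [if_neg (fun h => hj h.2 : ¬ (IsCst k ∧ IsCst j)), if_neg h2, mul_zero]
      · have h2 : ¬ i = k := fun h => hk (h ▸ hi)
        rw [if_neg (fun h => hk h.2 : ¬ (IsCst i ∧ IsCst k)), if_neg h2, zero_mul]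
  · rw [if_neg (fun h => hi h.1)]
    rw [Finset.sum_eq_single i]
    · rw [if_neg (fun h => hi h.1 : ¬ (IsCst i ∧ IsCst i)), if_pos rfl, one_mul,
        if_neg (fun h => hi h.1)]
    · intro k _ hk
      rw [if_neg (fun h => hi h.1), if_neg (Ne.symm hk), zero_mul]
    · intro h
      exact absurd (Finset.mem_univ _) h

lemma dia'_one {R : Type*} [Semiring R] :
    (dia' (1 : Matrix (Fin n) (Fin n) R) : Matrix (C → Fin n) (C → Fin n) R) = 1 := by
  classical
  ext1 i j
  simp only [dia', Matrix.of_apply, Matrix.one_apply]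
  by_cases h : IsCst i ∧ IsCst j
  · rw [if_pos h]
    by_cases hij : i = j
    · rw [if_pos hij, if_pos (congrFun hij 1)]
    · rw [if_neg hij, if_neg]
      intro h1
      apply hij
      rw [h.1.eq_cst, h.2.eq_cst, h1]
  · rw [if_neg h]

lemma dia_eq (A : Matrix (Fin n) (Fin n) (MonoidAlgebra ℤ Γ)) :
    (dia A : Matrix (C → Fin n) (C → Fin n) (MonoidAlgebra ℤ (C → Γ))) =
      dia' (A.map (MonoidAlgebra.mapDomainRingHom ℤ diag)) := rfl

theorem dia_mul (A B : Matrix (Fin n) (Fin n) (MonoidAlgebra ℤ Γ)) :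
    (dia A * dia B : Matrix (C → Fin n) (C → Fin n) (MonoidAlgebra ℤ (C → Γ))) = dia (A * B) := by
  rw [dia_eq, dia_eq, dia_eq, dia'_mul, Matrix.map_mul]

theorem dia_one : (dia (1 : Matrix (Fin n) (Fin n) (MonoidAlgebra ℤ Γ)) :
    Matrix (C → Fin n) (C → Fin n) (MonoidAlgebra ℤ (C → Γ))) = 1 := by
  rw [dia_eq, Matrix.map_one _ (map_zero _) (map_one _), dia'_one]

variable {E : Type*} [CommRing E]

/-- Evaluation at the character `∏ x, χ (g x)`. -/
theorem lift_tp (χ : Γ →* E) (φ : (C → Γ) →* E) (hφ : ∀ g, φ g = ∏ x, χ (g x))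
    (a : C → MonoidAlgebra ℤ Γ) :
    MonoidAlgebra.lift ℤ E (C → Γ) φ (tp a) = ∏ x, MonoidAlgebra.lift ℤ E Γ χ (a x) := by
  rw [MonoidAlgebra.lift_apply,
    Finsupp.sum_of_support_subset (tp a).coeff (support_tp a)
      (fun a b => b • φ a) (fun i _ => zero_smul _ _)]
  simp only [MonoidAlgebra.lift_apply, Finsupp.sum]
  rw [Finset.prod_univ_sum]
  refine Finset.sum_congr rfl fun h _ => ?_
  rw [coeff_tp, hφ]
  simp only [zsmul_eq_mul]
  rw [Finset.prod_mul_distrib, Int.cast_prod]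

theorem lift_ten (χ : Γ →* E) (φ : (C → Γ) →* E) (hφ : ∀ g, φ g = ∏ x, χ (g x))
    (A : Matrix (Fin n) (Fin n) (MonoidAlgebra ℤ Γ)) :
    (ten A).map (MonoidAlgebra.lift ℤ E (C → Γ) φ) = tenE (A.map (MonoidAlgebra.lift ℤ E Γ χ)) := by
  ext1 i j
  rw [Matrix.map_apply]
  simp only [ten, tenE, Matrix.of_apply, Matrix.map_apply]
  exact lift_tp χ φ hφ _

theorem lift_dia (χ : Γ →* E) (φ : (C → Γ) →* E) (hφ : ∀ g, φ g = ∏ x, χ (g x))
    (A : Matrix (Fin n) (Fin n) (MonoidAlgebra ℤ Γ)) :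
    (dia A).map (MonoidAlgebra.lift ℤ E (C → Γ) φ) =
      diaE (A.map (MonoidAlgebra.lift ℤ E Γ (χ ^ Fintype.card C))) := by
  classical
  ext1 i j
  rw [Matrix.map_apply]
  simp only [dia, diaE, Matrix.of_apply, Matrix.map_apply]
  by_cases h : IsCst i ∧ IsCst j
  · rw [if_pos h, if_pos h]
    have key : ((MonoidAlgebra.lift ℤ E (C → Γ) φ).toRingHom.comp
        (MonoidAlgebra.mapDomainRingHom ℤ diag)) =
        (MonoidAlgebra.lift ℤ E Γ (χ ^ Fintype.card C)).toRingHom := by
      refine MonoidAlgebra.ringHom_ext' ?_ ?_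
      · exact RingHom.ext_int _ _
      · ext g
        simp [diag, hφ]
    exact congrArg (fun f : MonoidAlgebra ℤ Γ →+* E => f (A (i 1) (j 1))) key
  · rw [if_neg h, if_neg h]
    by_cases hij : i = j
    · rw [if_pos hij, if_pos hij, map_one]
    · rw [if_neg hij, if_neg hij, map_zero]

end tp

end Pool.Agent.Lib.MP_8f66f0_al_Wreath
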