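import Mathlib
import Pool.Agent.Lib.MP_8f66f0_al_Wreath.Basic

namespace Pool.Agent.Lib.MP_8f66f0_al_Dennis
end Pool.Agent.Lib.MP_8f66f0_al_Dennis
namespace Pool.Agent.Lib.MP_8f66f0_al_FinQ
end Pool.Agent.Lib.MP_8f66f0_al_FinQ
namespace Pool.Agent.Lib.MP_8f66f0_al_Plus
end Pool.Agent.Lib.MP_8f66f0_al_Plus

/-! Invariant matrices whose fixed coefficients are divisible by the order of the group are traces. -/

set_option autoImplicit false
set_option linter.unusedSectionVars false

namespace Pool.Agent.Lib.MP_8f66f0_al_Wreath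

open Pool.Agent.Lib.MP_8f66f0_al_Dennis Pool.Agent.Lib.MP_8f66f0_al_FinQ
open Pool.Agent.Lib.MP_8f66f0_al_Plus

/-- An invariant integral function whose values at fixed points are divisible by the (prime) order
of the group is a trace: put `f y = m y / p` at fixed points, `f y = m y` if `y` is the chosen
representative of its (free) orbit, `f y = 0` otherwise. -/
theorem exists_trace {C Y : Type*} [Group C] [Fintype C] (hC : (Fintype.card C).Prime)
    [MulAction C Y] (m : Y → ℤ) (hinv : ∀ (s : C) (y : Y), m (s • y) = m y)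
    (hfix : ∀ y : Y, (∀ s : C, s • y = y) → ((Fintype.card C : ℕ) : ℤ) ∣ m y) :
    ∃ f : Y → ℤ, (∀ y, m y = 0 → f y = 0) ∧ ∀ y, ∑ s : C, f (s⁻¹ • y) = m y := by
  classical
  set rep : Y → Y := fun y => (Quotient.mk (MulAction.orbitRel C Y) y).out with hrep
  have hrepmem : ∀ y, ∃ s : C, s • y = rep y := by
    intro y
    have h : (MulAction.orbitRel C Y) (rep y) y := Quotient.mk_out y
    exact MulAction.mem_orbit_iff.mp h
  have hrepsmul : ∀ (s : C) (y : Y), rep (s • y) = rep y := by
    intro s y
    simp only [hrep]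
    congr 1
    apply Quotient.sound
    exact MulAction.mem_orbit_iff.mpr ⟨s, rfl⟩
  set f : Y → ℤ := fun y => if (∀ s : C, s • y = y) then m y / (Fintype.card C : ℤ)
    else if y = rep y then m y else 0 with hf
  refine ⟨f, ?_, ?_⟩
  · intro y hy
    simp only [hf]
    split_ifs <;> simp [hy]
  · intro y
    by_cases hy : ∀ s : C, s • y = y
    · have h1 : ∀ s : C, f (s⁻¹ • y) = m y / (Fintype.card C : ℤ) := by
        intro s
        rw [hy s⁻¹]
        simp only [hf]
        rw [if_pos hy]
      rw [Finset.sum_congr rfl fun s _ => h1 s, Finset.sum_const, Finset.card_univ,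
        nsmul_eq_mul]
      exact Int.mul_ediv_cancel' (hfix y hy)
    · have hstab : MulAction.stabilizer C y = ⊥ := by
        have : Fact (Nat.card C).Prime := ⟨by rw [Nat.card_eq_fintype_card]; exact hC⟩
        rcases (MulAction.stabilizer C y).eq_bot_or_eq_top_of_prime_card with h | h
        · exact h
        · exfalso
          apply hy
          intro s
          have : s ∈ MulAction.stabilizer C y := by rw [h]; exact Subgroup.mem_top s
          exact MulAction.mem_stabilizer_iff.mp this
      have hnf : ∀ s : C, ¬ ∀ t : C, t • (s⁻¹ • y) = s⁻¹ • y := by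
        intro s h
        apply hy
        intro t
        have h1 := h (s⁻¹ * t * s)
        rw [smul_smul, mul_assoc, mul_assoc, mul_inv_cancel, mul_one, ← smul_smul] at h1
        exact smul_left_cancel _ h1
      have h1 : ∀ s : C, f (s⁻¹ • y) = if s⁻¹ • y = rep y then m y else 0 := by
        intro s
        simp only [hf]
        rw [if_neg (hnf s), hrepsmul, hinv]
      rw [Finset.sum_congr rfl fun s _ => h1 s]
      obtain ⟨s0, hs0⟩ := hrepmem y
      rw [Finset.sum_eq_single s0⁻¹]
      · rw [inv_inv, if_pos hs0]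
      · intro s _ hs
        rw [if_neg]
        intro h
        apply hs
        have h2 : s * s0 ∈ MulAction.stabilizer C y := by
          rw [MulAction.mem_stabilizer_iff, ← smul_smul, hs0, ← h, smul_smul, mul_inv_cancel,
            one_smul]
        rw [hstab, Subgroup.mem_bot] at h2
        exact eq_inv_of_mul_eq_one_left h2
      · intro h; exact absurd (Finset.mem_univ _) h

section trn

variable {Γ : Type*} [Group Γ] {C : Type*} [Group C] [Fintype C] [DecidableEq C] {n : ℕ}

lemma trn_one : (trn n (1 : C) :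
    Matrix (C → Fin n) (C → Fin n) (MonoidAlgebra ℤ (RegularWreathProduct Γ C))) = 1 := by
  ext1 i j
  rw [trn, Matrix.of_apply, sh_one, map_one, Matrix.one_apply]
  by_cases h : i = j
  · rw [if_pos h, if_pos h]; rfl
  · rw [if_neg h, if_neg h]

lemma eq_sh_iff {α : Type*} (s : C) (i k : C → α) : i = sh s k ↔ k = sh s⁻¹ i :=
  ⟨fun h => by rw [h, sh_inv_sh], fun h => by rw [h, sh_sh_inv]⟩

lemma trn_mul_apply (s : C)
    (M : Matrix (C → Fin n) (C → Fin n) (MonoidAlgebra ℤ (RegularWreathProduct Γ C)))
    (i j : C → Fin n) : ((trn n s : Matrix (C → Fin n) (C → Fin n)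
      (MonoidAlgebra ℤ (RegularWreathProduct Γ C))) * M) i j =
      MonoidAlgebra.single (RegularWreathProduct.inl s) 1 * M (sh s⁻¹ i) j := by
  rw [Matrix.mul_apply, Finset.sum_eq_single (sh s⁻¹ i)]
  · rw [trn, Matrix.of_apply, if_pos (by rw [sh_sh_inv])]
  · intro k _ hk
    rw [trn, Matrix.of_apply, if_neg (fun h => hk ((eq_sh_iff s i k).mp h)), zero_mul]
  · intro h; exact absurd (Finset.mem_univ _) h

lemma mul_trn_apply (s : C)
    (M : Matrix (C → Fin n) (C → Fin n) (MonoidAlgebra ℤ (RegularWreathProduct Γ C)))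
    (i j : C → Fin n) : (M * (trn n s : Matrix (C → Fin n) (C → Fin n)
      (MonoidAlgebra ℤ (RegularWreathProduct Γ C)))) i j =
      M i (sh s j) * MonoidAlgebra.single (RegularWreathProduct.inl s) 1 := by
  rw [Matrix.mul_apply, Finset.sum_eq_single (sh s j)]
  · rw [trn, Matrix.of_apply, if_pos rfl]
  · intro k _ hk
    rw [trn, Matrix.of_apply, if_neg hk, mul_zero]
  · intro h; exact absurd (Finset.mem_univ _) h

lemma trn_mul (s t : C) : (trn n (s * t) :
    Matrix (C → Fin n) (C → Fin n) (MonoidAlgebra ℤ (RegularWreathProduct Γ C))) =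
      trn n s * trn n t := by
  ext1 i j
  rw [trn_mul_apply, trn, trn, Matrix.of_apply, Matrix.of_apply]
  by_cases h : i = sh (s * t) j
  · have h2 : sh s⁻¹ i = sh t j := by
      rw [h, ← sh_sh, sh_inv_sh]
    rw [if_pos h, if_pos h2, MonoidAlgebra.single_mul_single, map_mul, one_mul]
  · have h2 : sh s⁻¹ i ≠ sh t j := by
      intro h3
      apply h
      rw [← sh_sh, ← h3, sh_sh_inv]
    rw [if_neg h, if_neg h2, mul_zero]

/-- Conjugation of an element of the group ring of the base group. -/
lemma conj_baseHom (s : C) (x : MonoidAlgebra ℤ (C → Γ)) :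
    MonoidAlgebra.single (RegularWreathProduct.inl s) 1 * baseHom x *
      MonoidAlgebra.single (RegularWreathProduct.inl s⁻¹) 1 = baseHom (shHom s x) := by
  induction x using MonoidAlgebra.induction_linear with
  | zero => simp only [map_zero, mul_zero, zero_mul]
  | add x y hx hy => rw [map_add, map_add, map_add, mul_add, add_mul, hx, hy]
  | single g a =>
    have h1 : (baseHom (MonoidAlgebra.single g a) :
        MonoidAlgebra ℤ (RegularWreathProduct Γ C)) = MonoidAlgebra.single (base g) a :=
      MonoidAlgebra.mapDomain_single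
    have h2 : shHom s (MonoidAlgebra.single g a) = MonoidAlgebra.single (sh s g) a :=
      MonoidAlgebra.mapDomain_single
    have h3 : (baseHom (MonoidAlgebra.single (sh s g) a) :
        MonoidAlgebra ℤ (RegularWreathProduct Γ C)) = MonoidAlgebra.single (base (sh s g)) a :=
      MonoidAlgebra.mapDomain_single
    rw [h1, h2, h3, MonoidAlgebra.single_mul_single, MonoidAlgebra.single_mul_single, one_mul,
      mul_one]
    congr 1
    ext x
    · simp only [RegularWreathProduct.mul_left, RegularWreathProduct.mul_right,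
        RegularWreathProduct.left_inl, RegularWreathProduct.right_inl, Pi.mul_apply,
        Pi.one_apply, mul_one, one_mul]
      rfl
    · simp only [RegularWreathProduct.mul_right, RegularWreathProduct.right_inl]
      change s * 1 * s⁻¹ = 1
      rw [mul_one, mul_inv_cancel]

/-- Conjugation by a translation. -/
theorem trn_conj (s : C) (F : Matrix (C → Fin n) (C → Fin n) (MonoidAlgebra ℤ (C → Γ))) :
    trn n s * F.map baseHom * trn n s⁻¹ =
      (Matrix.of fun i j => shHom s (F (sh s⁻¹ i) (sh s⁻¹ j))).map baseHom := by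
  ext1 i j
  rw [mul_trn_apply, trn_mul_apply, Matrix.map_apply, Matrix.map_apply, Matrix.of_apply,
    conj_baseHom]

lemma coeff_shHom (s : C) (x : MonoidAlgebra ℤ (C → Γ)) (g : C → Γ) :
    (shHom s x).coeff g = x.coeff (sh s⁻¹ g) := by
  have hinj : Function.Injective (sh s : (C → Γ) → (C → Γ)) := by
    intro a b h
    rw [← sh_inv_sh s a, h, sh_inv_sh]
  have h := Finsupp.mapDomain_apply hinj x.coeff (sh s⁻¹ g)
  rw [sh_sh_inv] at h
  exact h

/-- The coefficients of `ten A` and `dia A` are invariant. -/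
theorem ten_inv (s : C) (A : Matrix (Fin n) (Fin n) (MonoidAlgebra ℤ Γ)) :
    (Matrix.of fun i j => shHom s (ten A (sh s⁻¹ i) (sh s⁻¹ j)) :
      Matrix (C → Fin n) (C → Fin n) (MonoidAlgebra ℤ (C → Γ))) = ten A := by
  ext i j g
  rw [Matrix.of_apply, coeff_shHom, ten, Matrix.of_apply, Matrix.of_apply, coeff_tp, coeff_tp]
  rw [Fintype.prod_equiv (Equiv.mulLeft s) (fun x => (A (sh s⁻¹ i x) (sh s⁻¹ j x)).coeff
    (sh s⁻¹ g x)) (fun x => (A (i x) (j x)).coeff (g x))]
  intro x
  simp only [sh_apply, inv_inv, Equiv.coe_mulLeft]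

lemma isCst_sh_iff {α : Type*} (s : C) (i : C → α) : IsCst (sh s i) ↔ IsCst i := by
  constructor
  · intro h
    have := h.sh s⁻¹
    rw [sh_inv_sh] at this
    rw [this]
    exact h
  · intro h
    rw [h.sh s]
    exact h

theorem dia_inv (s : C) (A : Matrix (Fin n) (Fin n) (MonoidAlgebra ℤ Γ)) :
    (Matrix.of fun i j => shHom s (dia A (sh s⁻¹ i) (sh s⁻¹ j)) :
      Matrix (C → Fin n) (C → Fin n) (MonoidAlgebra ℤ (C → Γ))) = dia A := by
  ext1 i j
  rw [Matrix.of_apply, dia, Matrix.of_apply, Matrix.of_apply]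
  by_cases h : IsCst i ∧ IsCst j
  · rw [if_pos h, if_pos ⟨(isCst_sh_iff _ i).mpr h.1, (isCst_sh_iff _ j).mpr h.2⟩, h.1.sh, h.2.sh]
    have hcomp : ∀ y : MonoidAlgebra ℤ Γ, shHom s (MonoidAlgebra.mapDomainRingHom ℤ diag y) =
        MonoidAlgebra.mapDomainRingHom ℤ (diag : Γ →* (C → Γ)) y := by
      intro y
      induction y using MonoidAlgebra.induction_linear with
      | zero => simp only [map_zero]
      | add x y hx hy => rw [map_add, map_add, hx, hy]
      | single g a =>
        have h1 : MonoidAlgebra.mapDomainRingHom ℤ (diag : Γ →* (C → Γ))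
            (MonoidAlgebra.single g a) = MonoidAlgebra.single (diag g) a :=
          MonoidAlgebra.mapDomain_single
        have h2 : shHom s (MonoidAlgebra.single (diag g : C → Γ) a) =
            MonoidAlgebra.single (sh s (diag g)) a := MonoidAlgebra.mapDomain_single
        rw [h1, h2]
        rfl
    exact hcomp _
  · rw [if_neg h, if_neg (fun h2 => h ⟨(isCst_sh_iff _ i).mp h2.1, (isCst_sh_iff _ j).mp h2.2⟩)]
    by_cases hij : i = j
    · rw [if_pos hij, if_pos (by rw [hij]), map_one]
    · rw [if_neg hij, if_neg (fun h2 => hij (by rw [← sh_sh_inv s i, h2, sh_sh_inv])), map_zero]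

/-- The action of `C` on the triples `(i, j, g)`. -/
def tripleAction (C : Type*) [Group C] (n : ℕ) (Γ : Type*) :
    MulAction C ((C → Fin n) × (C → Fin n) × (C → Γ)) where
  smul s y := (sh s y.1, sh s y.2.1, sh s y.2.2)
  one_smul y := by
    change (sh 1 y.1, sh 1 y.2.1, sh 1 y.2.2) = y
    simp only [sh_one]
  mul_smul s t y := by
    change (sh (s * t) y.1, sh (s * t) y.2.1, sh (s * t) y.2.2) =
      (sh s (sh t y.1), sh s (sh t y.2.1), sh s (sh t y.2.2))
    simp only [sh_sh]

/-- `ten A - dia A` is a trace: apply `exists_trace` to the action of `C` on triples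
`(i, j, g)` by `sh` and the function `(ten A - dia A) i j g`; at a fixed triple `i`, `j`, `g` are
constant and the value is `a ^ p - a`, `a = (A (i 1) (j 1)).coeff (g 1)`, divisible by `p`. -/
theorem exists_trace_ten (hC : (Fintype.card C).Prime)
    (A : Matrix (Fin n) (Fin n) (MonoidAlgebra ℤ Γ)) :
    ∃ F : Matrix (C → Fin n) (C → Fin n) (MonoidAlgebra ℤ (C → Γ)),
      ∑ s : C, trn n s * F.map baseHom * trn n s⁻¹ = (ten A - dia A).map baseHom := by
  classical
  set M : Matrix (C → Fin n) (C → Fin n) (MonoidAlgebra ℤ (C → Γ)) := ten A - dia A with hM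
  have hMinv : ∀ (s : C) (i j : C → Fin n), shHom s (M (sh s⁻¹ i) (sh s⁻¹ j)) = M i j := by
    intro s i j
    have h1 := congrFun (congrFun (ten_inv s A) i) j
    have h2 := congrFun (congrFun (dia_inv s A) i) j
    rw [Matrix.of_apply] at h1 h2
    rw [hM, Matrix.sub_apply, Matrix.sub_apply, map_sub, h1, h2]
  letI act := tripleAction C n Γ
  have hsmul : ∀ (s : C) (y : (C → Fin n) × (C → Fin n) × (C → Γ)),
      s • y = (sh s y.1, sh s y.2.1, sh s y.2.2) := fun s y => rfl
  obtain ⟨f, hf0, hf⟩ := @exists_trace C ((C → Fin n) × (C → Fin n) × (C → Γ)) _ _ hC act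
    (fun y => (M y.1 y.2.1).coeff y.2.2) (by
      intro s y
      rw [hsmul]
      change (M (sh s y.1) (sh s y.2.1)).coeff (sh s y.2.2) = (M y.1 y.2.1).coeff y.2.2
      rw [← hMinv s (sh s y.1) (sh s y.2.1), coeff_shHom, sh_inv_sh, sh_inv_sh, sh_inv_sh]) (by
      intro y hy
      have hi : IsCst y.1 := isCst_of_sh fun s => congrArg Prod.fst (hy s)
      have hj : IsCst y.2.1 := isCst_of_sh fun s => congrArg (fun z => z.2.1) (hy s)
      have hg : IsCst y.2.2 := isCst_of_sh fun s => congrArg (fun z => z.2.2) (hy s)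
      set a : ℤ := (A (y.1 1) (y.2.1 1)).coeff (y.2.2 1) with ha
      have h1 : (ten A y.1 y.2.1).coeff y.2.2 = a ^ Fintype.card C := by
        rw [ten, Matrix.of_apply, coeff_tp]
        rw [Finset.prod_congr rfl (g := fun _ => a) (fun x _ => by rw [hi x, hj x, hg x])]
        rw [Finset.prod_const, Finset.card_univ]
      have h2 : (dia A y.1 y.2.1).coeff y.2.2 = a := by
        rw [dia, Matrix.of_apply, if_pos ⟨hi, hj⟩]
        have hinj : Function.Injective (diag : Γ →* (C → Γ)) := fun a b h => congrFun h 1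
        have h3 := Finsupp.mapDomain_apply hinj (A (y.1 1) (y.2.1 1)).coeff (y.2.2 1)
        have h4 : (diag (y.2.2 1) : C → Γ) = y.2.2 := by
          funext x
          exact (hg x).symm
        rw [h4] at h3
        exact h3
      change ((Fintype.card C : ℕ) : ℤ) ∣ (M y.1 y.2.1).coeff y.2.2
      have h5 : (M y.1 y.2.1).coeff y.2.2 = a ^ Fintype.card C - a := by
        rw [hM, Matrix.sub_apply, ← h1, ← h2]
        rfl
      rw [h5]
      have : Fact (Fintype.card C).Prime := ⟨hC⟩
      rw [← ZMod.intCast_zmod_eq_zero_iff_dvd]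
      push_cast
      rw [ZMod.pow_card, sub_self])
  -- the matrix `F`
  have hsupp : ∀ (i j : C → Fin n) (g : C → Γ), f (i, j, g) ≠ 0 →
      g ∈ (M i j).coeff.support := by
    intro i j g h
    rw [Finsupp.mem_support_iff]
    exact fun h2 => h (hf0 (i, j, g) h2)
  set F : Matrix (C → Fin n) (C → Fin n) (MonoidAlgebra ℤ (C → Γ)) := Matrix.of fun i j =>
    MonoidAlgebra.ofCoeff (Finsupp.onFinset (M i j).coeff.support (fun g => f (i, j, g))
      (fun g h => hsupp i j g h)) with hF
  have hFc : ∀ i j g, (F i j).coeff g = f (i, j, g) := fun i j g => rfl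
  refine ⟨F, ?_⟩
  rw [Finset.sum_congr rfl fun s _ => trn_conj s F]
  ext1 i j
  rw [Matrix.sum_apply, Matrix.map_apply]
  simp only [Matrix.map_apply, Matrix.of_apply]
  rw [← map_sum]
  congr 1
  ext g
  have hsum : (∑ s : C, shHom s (F (sh s⁻¹ i) (sh s⁻¹ j))).coeff g =
      ∑ s : C, (shHom s (F (sh s⁻¹ i) (sh s⁻¹ j))).coeff g := by
    have := map_sum ((Finsupp.applyAddHom g).comp
      (MonoidAlgebra.coeffAddEquiv.toAddMonoidHom : MonoidAlgebra ℤ (C → Γ) →+ _))
      (fun s : C => shHom s (F (sh s⁻¹ i) (sh s⁻¹ j))) Finset.univ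
    exact this
  rw [hsum]
  simp only [coeff_shHom, hFc]
  exact hf (i, j, g)

end trn

end Pool.Agent.Lib.MP_8f66f0_al_Wreath
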