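import Mathlib
import Pool.Agent.Lib.MP_8f66f0_al_Wreath.Tp
import Pool.Agent.Lib.MP_8f66f0_al_Wreath.Trn

namespace Pool.Agent.Lib.MP_8f66f0_al_Dennis
end Pool.Agent.Lib.MP_8f66f0_al_Dennis
namespace Pool.Agent.Lib.MP_8f66f0_al_FinQ
end Pool.Agent.Lib.MP_8f66f0_al_FinQ
namespace Pool.Agent.Lib.MP_8f66f0_al_Plus
end Pool.Agent.Lib.MP_8f66f0_al_Plus
namespace Pool.Agent.Lib.MP_8f66f0_al_Uni
end Pool.Agent.Lib.MP_8f66f0_al_Uni

/-! An invertible matrix over the group ring of the wreath product. -/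

set_option autoImplicit false
set_option linter.unusedSectionVars false

namespace Pool.Agent.Lib.MP_8f66f0_al_Wreath

open Pool.Agent.Lib.MP_8f66f0_al_Dennis Pool.Agent.Lib.MP_8f66f0_al_FinQ
open Pool.Agent.Lib.MP_8f66f0_al_Plus Pool.Agent.Lib.MP_8f66f0_al_Uni

section ring

variable {R : Type*} [Ring R] {C : Type*} [Group C] [Fintype C]

lemma norm_mul_norm {T : C → R} (hT1 : T 1 = 1) (hT : ∀ s t, T (s * t) = T s * T t) {f Z : R}
    (hf : ∑ s, T s * f * T s⁻¹ = Z - 1) : (∑ s, T s) * f * (∑ s, T s) = (Z - 1) * ∑ s, T s := by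
  have h1 : ∀ s ∈ (Finset.univ : Finset C), T s * f * T s⁻¹ * ∑ t, T t = T s * f * ∑ t, T t := by
    intro s _
    rw [mul_assoc (T s * f)]
    congr 1
    rw [Finset.mul_sum, ← Equiv.sum_comp (Equiv.mulLeft s⁻¹) T]
    exact Finset.sum_congr rfl fun t _ => by rw [Equiv.coe_mulLeft, hT]
  rw [← hf, Finset.sum_mul Finset.univ (fun s => T s * f * T s⁻¹), Finset.sum_congr rfl h1,
    ← Finset.sum_mul, ← Finset.sum_mul]

lemma norm_comm {T : C → R} {Z : R} (hZ : ∀ s, T s * Z = Z * T s) :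
    (∑ s, T s) * Z = Z * ∑ s, T s := by
  rw [Finset.sum_mul, Finset.mul_sum]
  exact Finset.sum_congr rfl fun s _ => hZ s

/-- The inverse of `1 + f * ∑ s, T s`. -/
lemma inverse_aux {T : C → R} (hT1 : T 1 = 1) (hT : ∀ s t, T (s * t) = T s * T t) {f Z Z' : R}
    (hf : ∑ s, T s * f * T s⁻¹ = Z - 1) (hZZ' : Z * Z' = 1) (hZ'Z : Z' * Z = 1)
    (hZ' : ∀ s, T s * Z' = Z' * T s) :
    (1 + f * ∑ s, T s) * (1 - f * Z' * ∑ s, T s) = 1 ∧
      (1 - f * Z' * ∑ s, T s) * (1 + f * ∑ s, T s) = 1 := by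
  have h1 := norm_mul_norm hT1 hT hf
  have h2 := norm_comm hZ'
  set N := ∑ s, T s with hN
  constructor
  · have e1 : N * f * Z' * N = (Z - 1) * Z' * N := by
      calc N * f * Z' * N = N * f * (Z' * N) := by noncomm_ring
        _ = N * f * (N * Z') := by rw [h2]
        _ = (N * f * N) * Z' := by noncomm_ring
        _ = (Z - 1) * N * Z' := by rw [h1]
        _ = (Z - 1) * (N * Z') := by noncomm_ring
        _ = (Z - 1) * Z' * N := by rw [h2]; noncomm_ring
    calc (1 + f * N) * (1 - f * Z' * N) = 1 + f * N - f * Z' * N - f * (N * f * Z' * N) := by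
          noncomm_ring
      _ = 1 + f * N - f * Z' * N - f * ((Z - 1) * Z' * N) := by rw [e1]
      _ = 1 + f * N - f * (Z * Z') * N := by noncomm_ring
      _ = 1 := by rw [hZZ']; noncomm_ring
  · calc (1 - f * Z' * N) * (1 + f * N) = 1 + f * N - f * Z' * N - f * Z' * (N * f * N) := by
          noncomm_ring
      _ = 1 + f * N - f * Z' * N - f * Z' * ((Z - 1) * N) := by rw [h1]
      _ = 1 + f * N - f * (Z' * Z) * N := by noncomm_ring
      _ = 1 := by rw [hZ'Z]; noncomm_ring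

end ring

section det

variable {E : Type*} [Field E] [CharZero E] {C : Type*} [Group C] [Fintype C] {I : Type*}
  [Fintype I] [DecidableEq I]

lemma det_norm {T : C → Matrix I I E} (hT1 : T 1 = 1) (hT : ∀ s t, T (s * t) = T s * T t)
    {f Z : Matrix I I E} (hf : ∑ s, T s * f * T s⁻¹ = Z - 1) :
    (1 + f * ∑ s, T s).det = (1 + (Z - 1) * ((Fintype.card C : E)⁻¹ • ∑ s, T s)).det := by
  have hc : (Fintype.card C : E) ≠ 0 := Nat.cast_ne_zero.mpr Fintype.card_ne_zero
  have h1 := norm_mul_norm hT1 hT hf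
  have h2 : (∑ s, T s) * (∑ s, T s) = (Fintype.card C : E) • ∑ s, T s := by
    rw [Finset.sum_mul]
    have : ∀ s ∈ (Finset.univ : Finset C), T s * ∑ t, T t = ∑ t, T t := by
      intro s _
      rw [Finset.mul_sum, ← Equiv.sum_comp (Equiv.mulLeft s) T]
      exact Finset.sum_congr rfl fun t _ => by rw [Equiv.coe_mulLeft, hT]
    rw [Finset.sum_congr rfl this, Finset.sum_const, Finset.card_univ, ← Nat.cast_smul_eq_nsmul E]
  set N := ∑ s, T s with hN
  set q := (Fintype.card C : E) with hq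
  set e := q⁻¹ • N with he
  have hee : e * e = e := by
    rw [he, Matrix.smul_mul, Matrix.mul_smul, h2, smul_smul, smul_smul, mul_assoc,
      inv_mul_cancel₀ hc, mul_one]
  have hN' : N = q • e := by rw [he, smul_smul, mul_inv_cancel₀ hc, one_smul]
  have e1 : f * N = (q • (f * e)) * e := by
    rw [Matrix.smul_mul, mul_assoc, hee, hN', Matrix.mul_smul]
  have e2 : e * (q • (f * e)) = (Z - 1) * e := by
    have h3 : e * (q • (f * e)) = q⁻¹ • (N * f * N) := by
      rw [Matrix.mul_smul, he, Matrix.mul_smul, Matrix.smul_mul, Matrix.mul_smul, smul_smul,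
        smul_smul, mul_inv_cancel₀ hc, one_mul, mul_assoc]
    rw [h3, h1, he, Matrix.mul_smul]
  rw [e1, Matrix.det_one_add_mul_comm, e2]

end det

section big

variable {Γ : Type*} [Group Γ] {C : Type*} [Group C] [Fintype C] [DecidableEq C] {n : ℕ}

/-- The matrix over the group ring of the wreath product. With `Z = ten A * dia B`, `Z' = dia A *
ten B` and `∑ s, T s * f * T s⁻¹ = Z - 1` it is `1 + f * ∑ s, T s`, with inverse
`1 - f * Z' * ∑ s, T s`. -/
theorem exists_big (hC : (Fintype.card C).Prime)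
    {A B : Matrix (Fin n) (Fin n) (MonoidAlgebra ℤ Γ)} (hAB : A * B = 1) (hBA : B * A = 1) :
    ∃ X Y : Matrix (C → Fin n) (C → Fin n) (MonoidAlgebra ℤ (RegularWreathProduct Γ C)),
      X * Y = 1 ∧ Y * X = 1 ∧
      ∀ {E : Type} [Field E] [CharZero E] (χ : Γ →* E) (ω : C →* E),
        (X.map (MonoidAlgebra.lift ℤ E _ (wchar χ ω))).det =
          dete ω (tenE (A.map (MonoidAlgebra.lift ℤ E Γ χ)) *
            diaE (B.map (MonoidAlgebra.lift ℤ E Γ (χ ^ Fintype.card C)))) := by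
  obtain ⟨F, hF⟩ := exists_trace_ten (C := C) hC A
  set T : C → Matrix (C → Fin n) (C → Fin n) (MonoidAlgebra ℤ (RegularWreathProduct Γ C)) :=
    fun s => trn n s with hT
  have hT1 : T 1 = 1 := trn_one
  have hTm : ∀ s t, T (s * t) = T s * T t := fun s t => trn_mul s t
  have hTinv : ∀ s, T s⁻¹ * T s = 1 := fun s => by rw [← hTm, inv_mul_cancel, hT1]
  have hmap : ∀ P P' : Matrix (C → Fin n) (C → Fin n) (MonoidAlgebra ℤ (C → Γ)),
      (P * P').map (baseHom (Γ := Γ) (C := C)) = P.map baseHom * P'.map baseHom :=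
    fun P P' => Matrix.map_mul
  have hcomm : ∀ (P : Matrix (C → Fin n) (C → Fin n) (MonoidAlgebra ℤ (C → Γ))),
      (∀ s : C, (Matrix.of fun i j => shHom s (P (sh s⁻¹ i) (sh s⁻¹ j)) :
        Matrix (C → Fin n) (C → Fin n) (MonoidAlgebra ℤ (C → Γ))) = P) →
      ∀ s, T s * P.map baseHom = P.map baseHom * T s := by
    intro P hP s
    have h1 := trn_conj s P
    rw [hP s] at h1
    calc T s * P.map baseHom = (T s * P.map baseHom * T s⁻¹) * T s := by
          rw [mul_assoc _ (T s⁻¹), hTinv, mul_one]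
      _ = P.map baseHom * T s := by rw [hT]; exact congrArg (· * trn n s) h1
  set f := F.map baseHom * (dia B).map (baseHom (Γ := Γ) (C := C)) with hf
  set Z := (ten A * dia B : Matrix (C → Fin n) (C → Fin n) (MonoidAlgebra ℤ (C → Γ))) with hZ
  set Z' := (dia A * ten B : Matrix (C → Fin n) (C → Fin n) (MonoidAlgebra ℤ (C → Γ))) with hZ'
  have hdiaAB : (dia A * dia B : Matrix (C → Fin n) (C → Fin n) (MonoidAlgebra ℤ (C → Γ))) = 1 := by
    rw [dia_mul, hAB, dia_one]
  have hdiaBA : (dia B * dia A : Matrix (C → Fin n) (C → Fin n) (MonoidAlgebra ℤ (C → Γ))) = 1 := by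
    rw [dia_mul, hBA, dia_one]
  have htenAB : (ten A * ten B : Matrix (C → Fin n) (C → Fin n) (MonoidAlgebra ℤ (C → Γ))) = 1 := by
    rw [ten_mul, hAB, ten_one]
  have htenBA : (ten B * ten A : Matrix (C → Fin n) (C → Fin n) (MonoidAlgebra ℤ (C → Γ))) = 1 := by
    rw [ten_mul, hBA, ten_one]
  have hone : (1 : Matrix (C → Fin n) (C → Fin n) (MonoidAlgebra ℤ (C → Γ))).map
      (baseHom (Γ := Γ) (C := C)) = 1 := Matrix.map_one _ (map_zero _) (map_one _)
  have hsub : ∀ P P' : Matrix (C → Fin n) (C → Fin n) (MonoidAlgebra ℤ (C → Γ)),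
      (P - P').map (baseHom (Γ := Γ) (C := C)) = P.map baseHom - P'.map baseHom :=
    fun P P' => Matrix.map_sub _ (map_sub _) _ _
  have hfZ : ∑ s, T s * f * T s⁻¹ = Z.map baseHom - 1 := by
    have h1 : ∀ s ∈ (Finset.univ : Finset C), T s * f * T s⁻¹ =
        (T s * F.map baseHom * T s⁻¹) * (dia B).map baseHom := by
      intro s _
      have h2 := hcomm (dia B) (fun t => dia_inv t B) s⁻¹
      calc T s * f * T s⁻¹ = T s * F.map baseHom * ((dia B).map baseHom * T s⁻¹) := by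
            rw [hf]; simp only [mul_assoc]
        _ = T s * F.map baseHom * (T s⁻¹ * (dia B).map baseHom) := by rw [h2]
        _ = _ := by simp only [mul_assoc]
    rw [Finset.sum_congr rfl h1, ← Finset.sum_mul, hF, ← hmap, sub_mul, hdiaAB, hsub, hone]
  have hZZ' : Z.map baseHom * Z'.map (baseHom (Γ := Γ) (C := C)) = 1 := by
    rw [← hmap, hZ, hZ', mul_assoc, ← mul_assoc (dia B), hdiaBA, one_mul, htenAB, hone]
  have hZ'Z : Z'.map baseHom * Z.map (baseHom (Γ := Γ) (C := C)) = 1 := by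
    rw [← hmap, hZ, hZ', mul_assoc, ← mul_assoc (ten B), htenBA, one_mul, hdiaAB, hone]
  have hTZ' : ∀ s, T s * Z'.map baseHom = Z'.map baseHom * T s := by
    intro s
    rw [hZ', hmap, ← mul_assoc, hcomm (dia A) (fun t => dia_inv t A), mul_assoc,
      hcomm (ten B) (fun t => ten_inv t B), mul_assoc]
  obtain ⟨h1, h2⟩ := inverse_aux hT1 hTm hfZ hZZ' hZ'Z hTZ'
  refine ⟨_, _, h1, h2, ?_⟩
  intro E _ _ χ ω
  set θ := (MonoidAlgebra.lift ℤ E _ (wchar χ ω)).toRingHom with hθ
  have hθT : ∀ s, θ.mapMatrix (T s) = trnE n ω s := by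
    intro s
    ext i j
    rw [RingHom.mapMatrix_apply, Matrix.map_apply, hT]
    change θ (if i = sh s j then _ else _) = if i = sh s j then _ else _
    by_cases hij : i = sh s j
    · rw [if_pos hij, if_pos hij, hθ]
      change MonoidAlgebra.lift ℤ E _ (wchar χ ω) _ = _
      rw [MonoidAlgebra.lift_single, wchar_apply]
      simp
    · rw [if_neg hij, if_neg hij, map_zero]
  set φ : (C → Γ) →* E := (wchar χ ω).comp base with hφ
  have hφg : ∀ g, φ g = ∏ x, χ (g x) := by
    intro g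
    change (∏ x, χ (g x)) * ω 1 = _
    rw [map_one, mul_one]
  have hθφ : ∀ P : Matrix (C → Fin n) (C → Fin n) (MonoidAlgebra ℤ (C → Γ)),
      θ.mapMatrix (P.map baseHom) = P.map (MonoidAlgebra.lift ℤ E (C → Γ) φ) := by
    intro P
    ext i j
    rw [RingHom.mapMatrix_apply, Matrix.map_apply, Matrix.map_apply, Matrix.map_apply]
    generalize P i j = x
    induction x using MonoidAlgebra.induction_linear with
    | zero => rw [map_zero, map_zero, map_zero]
    | add x y hx hy => rw [map_add, map_add, map_add, hx, hy]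
    | single g a =>
      have h3 : baseHom (MonoidAlgebra.single g a) = MonoidAlgebra.single (base g) a :=
        MonoidAlgebra.mapDomain_single
      rw [h3, hθ]
      change MonoidAlgebra.lift ℤ E _ (wchar χ ω) _ = _
      rw [MonoidAlgebra.lift_single, MonoidAlgebra.lift_single]
      rfl
  have hX : (1 + f * ∑ s, T s).map (MonoidAlgebra.lift ℤ E _ (wchar χ ω)) =
      1 + θ.mapMatrix f * ∑ s, trnE n ω s := by
    change θ.mapMatrix (1 + f * ∑ s, T s) = _
    rw [map_add, map_one, map_mul, map_sum]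
    simp_rw [hθT]
  have hZE : θ.mapMatrix (Z.map baseHom) = tenE (A.map (MonoidAlgebra.lift ℤ E Γ χ)) *
      diaE (B.map (MonoidAlgebra.lift ℤ E Γ (χ ^ Fintype.card C))) := by
    rw [hZ, hmap, map_mul, hθφ, hθφ, lift_ten χ φ hφg, lift_dia χ φ hφg]
  have hfE : ∑ s, trnE n ω s * θ.mapMatrix f * trnE n ω s⁻¹ =
      tenE (A.map (MonoidAlgebra.lift ℤ E Γ χ)) *
      diaE (B.map (MonoidAlgebra.lift ℤ E Γ (χ ^ Fintype.card C))) - 1 := by
    have h3 := congrArg θ.mapMatrix hfZ
    rw [map_sum, map_sub, map_one, hZE] at h3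
    rw [← h3]
    refine Finset.sum_congr rfl fun s _ => ?_
    have h4 : θ.mapMatrix (T s * f * T s⁻¹) =
        θ.mapMatrix (T s) * θ.mapMatrix f * θ.mapMatrix (T s⁻¹) := by
      rw [map_mul θ.mapMatrix (T s * f), map_mul θ.mapMatrix (T s)]
    rw [h4, hθT, hθT]
  rw [hX, dete]
  refine det_norm ?_ ?_ hfE
  · rw [← hθT, hT1, map_one]
  · intro s t
    rw [← hθT, hTm, map_mul, hθT, hθT]

end big

end Pool.Agent.Lib.MP_8f66f0_al_Wreath
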