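import Mathlib
import Pool.Agent.Lib.MP_8f66f0_al_Wreath.Basic

namespace Pool.Agent.Lib.MP_8f66f0_al_Dennis
end Pool.Agent.Lib.MP_8f66f0_al_Dennis
namespace Pool.Agent.Lib.MP_8f66f0_al_FinQ
end Pool.Agent.Lib.MP_8f66f0_al_FinQ
namespace Pool.Agent.Lib.MP_8f66f0_al_Plus
end Pool.Agent.Lib.MP_8f66f0_al_Plus

/-! The determinant of a tensor power on the eigenspaces of the translations. -/

set_option autoImplicit false
set_option linter.unusedSectionVars false

namespace Pool.Agent.Lib.MP_8f66f0_al_Wreath

open Pool.Agent.Lib.MP_8f66f0_al_Dennis Pool.Agent.Lib.MP_8f66f0_al_FinQ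
open Pool.Agent.Lib.MP_8f66f0_al_Plus

section ratio

variable {C : Type*} [Group C] [Fintype C] [DecidableEq C] {n : ℕ} {E : Type*} [Field E] [CharZero E]

/-- The idempotent of a character. -/
noncomputable def rtE (n : ℕ) (ω : C →* E) : Matrix (C → Fin n) (C → Fin n) E :=
  (Fintype.card C : E)⁻¹ • ∑ s, trnE n ω s

lemma rt_trn_mul (ω : C →* E) (s t : C) :
    trnE n ω s * trnE n ω t = trnE n ω (s * t) := by
  ext i j
  rw [Matrix.mul_apply, Finset.sum_eq_single (sh t j)]
  · simp only [trnE, Matrix.of_apply, sh_sh, if_true]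
    split_ifs with h
    · rw [map_mul]
    · rw [zero_mul]
  · intro k _ hk
    simp only [trnE, Matrix.of_apply, if_neg hk, mul_zero]
  · intro h
    exact absurd (Finset.mem_univ _) h

lemma rt_card : (Fintype.card C : E) ≠ 0 := by
  exact Nat.cast_ne_zero.mpr Fintype.card_ne_zero

lemma rtE_idem (ω : C →* E) : rtE n ω * rtE n ω = rtE n ω := by
  unfold rtE
  rw [smul_mul_smul_comm, Finset.sum_mul_sum]
  have h1 : ∀ s : C, ∑ t, trnE n ω s * trnE n ω t = ∑ t, trnE n ω t := by
    intro s
    simp only [rt_trn_mul]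
    exact Fintype.sum_equiv (Equiv.mulLeft s) _ _ fun x => rfl
  rw [Finset.sum_congr rfl fun s _ => h1 s, Finset.sum_const, Finset.card_univ,
    ← Nat.cast_smul_eq_nsmul E, smul_smul, mul_assoc, inv_mul_cancel₀ rt_card, mul_one]

lemma rtE_apply (ω : C →* E) (i j : C → Fin n) :
    rtE n ω i j = (Fintype.card C : E)⁻¹ * ∑ s, if i = sh s j then ω s else 0 := by
  classical
  unfold rtE
  rw [Matrix.smul_apply, smul_eq_mul, Matrix.sum_apply]
  rfl

lemma dete_eq (ω : C →* E) (Z : Matrix (C → Fin n) (C → Fin n) E) :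
    dete ω Z = (1 + (Z - 1) * rtE n ω).det := rfl

lemma dete_mul (ω : C →* E) (Z W : Matrix (C → Fin n) (C → Fin n) E)
    (hW : W * rtE n ω = rtE n ω * W) : dete ω (Z * W) = dete ω Z * dete ω W := by
  rw [dete_eq, dete_eq, dete_eq, ← Matrix.det_mul]
  congr 1
  have he := rtE_idem (n := n) ω
  have h1 : rtE n ω * ((W - 1) * rtE n ω) = (W - 1) * rtE n ω := by
    rw [sub_mul, mul_sub, ← mul_assoc, ← hW, mul_assoc, he, one_mul, he]
  calc 1 + (Z * W - 1) * rtE n ω
      = 1 + (W - 1) * rtE n ω + (Z - 1) * rtE n ω + (Z - 1) * ((W - 1) * rtE n ω) := by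
        noncomm_ring
    _ = 1 + (W - 1) * rtE n ω + (Z - 1) * rtE n ω
          + (Z - 1) * (rtE n ω * ((W - 1) * rtE n ω)) := by rw [h1]
    _ = _ := by noncomm_ring

lemma dete_one (ω : C →* E) : dete ω (1 : Matrix (C → Fin n) (C → Fin n) E) = 1 := by
  rw [dete_eq, sub_self, zero_mul, add_zero, Matrix.det_one]

lemma rt_comm_of (ω : C →* E) (W : Matrix (C → Fin n) (C → Fin n) E)
    (hW : ∀ s i j, W i (sh s j) = W (sh s⁻¹ i) j) : W * rtE n ω = rtE n ω * W := by
  unfold rtE
  rw [Matrix.mul_smul, Matrix.smul_mul, Matrix.mul_sum, Matrix.sum_mul]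
  congr 1
  refine Finset.sum_congr rfl fun s _ => ?_
  ext i j
  rw [Matrix.mul_apply, Matrix.mul_apply, Finset.sum_eq_single (sh s j),
    Finset.sum_eq_single (sh s⁻¹ i)]
  · simp only [trnE, Matrix.of_apply, sh_sh_inv, if_true]
    rw [hW, mul_comm]
  · intro k _ hk
    have : ¬ i = sh s k := by
      intro h
      apply hk
      rw [h, sh_inv_sh]
    simp only [trnE, Matrix.of_apply, if_neg this, zero_mul]
  · intro h
    exact absurd (Finset.mem_univ _) h
  · intro k _ hk
    simp only [trnE, Matrix.of_apply, if_neg hk, mul_zero]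
  · intro h
    exact absurd (Finset.mem_univ _) h

lemma tenE_comm (ω : C →* E) (M : Matrix (Fin n) (Fin n) E) :
    tenE M * rtE n ω = rtE n ω * tenE (C := C) M := by
  refine rt_comm_of ω _ fun s i j => ?_
  simp only [tenE, Matrix.of_apply, sh_apply, inv_inv]
  exact Fintype.prod_equiv (Equiv.mulLeft s⁻¹) _ _ fun x => by
    simp only [Equiv.coe_mulLeft, mul_inv_cancel_left]

lemma isCst_sh_iff' (s : C) (i : C → Fin n) : IsCst (sh s i) ↔ IsCst i := by
  constructor
  · intro h
    have := h.sh s⁻¹
    rw [sh_inv_sh] at this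
    rw [this]
    exact h
  · intro h
    rw [h.sh]
    exact h

lemma diaE_comm (ω : C →* E) (K : Matrix (Fin n) (Fin n) E) :
    diaE K * rtE n ω = rtE n ω * diaE (C := C) K := by
  refine rt_comm_of ω _ fun s i j => ?_
  simp only [diaE, Matrix.of_apply]
  by_cases h : IsCst i ∧ IsCst j
  · have h1 : IsCst i ∧ IsCst (sh s j) := ⟨h.1, (isCst_sh_iff' s j).mpr h.2⟩
    have h2 : IsCst (sh s⁻¹ i) ∧ IsCst j := ⟨(isCst_sh_iff' s⁻¹ i).mpr h.1, h.2⟩
    rw [if_pos h1, if_pos h2, h.1.sh, h.2.sh]
  · have h1 : ¬ (IsCst i ∧ IsCst (sh s j)) := fun h' => h ⟨h'.1, (isCst_sh_iff' s j).mp h'.2⟩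
    have h2 : ¬ (IsCst (sh s⁻¹ i) ∧ IsCst j) := fun h' => h ⟨(isCst_sh_iff' s⁻¹ i).mp h'.1, h'.2⟩
    rw [if_neg h1, if_neg h2]
    have : i = sh s j ↔ sh s⁻¹ i = j := by
      constructor
      · intro h
        rw [h, sh_inv_sh]
      · intro h
        rw [← h, sh_sh_inv]
    simp only [this]

lemma tenE_mul (M N : Matrix (Fin n) (Fin n) E) :
    tenE (C := C) (M * N) = tenE M * tenE N := by
  ext i j
  rw [Matrix.mul_apply]
  simp only [tenE, Matrix.of_apply, Matrix.mul_apply, ← Finset.prod_mul_distrib]
  rw [Finset.prod_univ_sum, Fintype.piFinset_univ]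

lemma tenE_diagonal (D : Fin n → E) :
    tenE (C := C) (Matrix.diagonal D) = Matrix.diagonal fun i => ∏ x, D (i x) := by
  ext i j
  simp only [tenE, Matrix.of_apply]
  by_cases h : i = j
  · subst h
    rw [Matrix.diagonal_apply_eq]
    exact Finset.prod_congr rfl fun x _ => by rw [Matrix.diagonal_apply_eq]
  · rw [Matrix.diagonal_apply_ne _ h]
    obtain ⟨x, hx⟩ := Function.ne_iff.mp h
    exact Finset.prod_eq_zero (Finset.mem_univ x) (Matrix.diagonal_apply_ne _ hx)

lemma tenE_one : tenE (C := C) (1 : Matrix (Fin n) (Fin n) E) = 1 := by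
  rw [← Matrix.diagonal_one, tenE_diagonal]
  simp

/-- The multiplicative function. -/
noncomputable def detT (ω : C →* E) : Matrix (Fin n) (Fin n) E →* E where
  toFun M := dete ω (tenE M)
  map_one' := by rw [tenE_one, dete_one]
  map_mul' M N := by rw [tenE_mul, dete_mul _ _ _ (tenE_comm ω N)]

lemma detT_apply (ω : C →* E) (M : Matrix (Fin n) (Fin n) E) : detT ω M = dete ω (tenE M) := rfl

lemma hom_transvection (F : Matrix (Fin n) (Fin n) E →* E) (i j : Fin n) (hij : i ≠ j) (c : E) :
    F (Matrix.transvection i j c) = 1 := by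
  have h2 : (2 : E) ≠ 0 := two_ne_zero
  set D : Matrix (Fin n) (Fin n) E := Matrix.diagonal (fun k => if k = i then 2 else 1) with hD
  set D' : Matrix (Fin n) (Fin n) E := Matrix.diagonal (fun k => if k = i then 2⁻¹ else 1) with hD'
  have hDD : D * D' = 1 := by
    rw [hD, hD', Matrix.diagonal_mul_diagonal, ← Matrix.diagonal_one]
    congr 1
    funext k
    by_cases hk : k = i
    · simp [hk]
    · simp [hk]
  have hconj : D * Matrix.transvection i j c * D' =
      Matrix.transvection i j c * Matrix.transvection i j c := by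
    rw [Matrix.transvection_mul_transvection_same _ _ hij]
    ext a b
    rw [hD, hD', Matrix.mul_diagonal, Matrix.diagonal_mul]
    simp only [Matrix.transvection, Matrix.add_apply, Matrix.one_apply, Matrix.single_apply]
    by_cases ha : a = i
    · subst ha
      by_cases hb : b = a
      · subst hb
        simp [hij.symm]
      · by_cases hb' : j = b
        · subst hb'
          simp [hb, Ne.symm hb]
          ring
        · simp [hb, Ne.symm hb, hb']
    · by_cases hb : b = i
      · subst hb
        simp [ha, Ne.symm ha]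
      · simp [ha, hb, Ne.symm ha]
  have hF := congrArg F hconj
  rw [map_mul, map_mul, map_mul, mul_comm (F D), mul_assoc, ← map_mul F D, hDD, map_one,
    mul_one] at hF
  have hne : F (Matrix.transvection i j c) ≠ 0 := by
    intro h0
    have h3 : F (Matrix.transvection i j c * Matrix.transvection i j (-c)) = 1 := by
      rw [Matrix.transvection_mul_transvection_same _ _ hij, add_neg_cancel,
        Matrix.transvection_zero, map_one]
    rw [map_mul, h0, zero_mul] at h3
    exact zero_ne_one h3
  exact mul_left_cancel₀ hne (by rw [mul_one]; exact hF.symm)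

lemma sum_char (ω : C →* E) (hω : ω ≠ 1) : ∑ s, ω s = 0 := by
  obtain ⟨t, ht⟩ : ∃ t, ω t ≠ 1 := by
    by_contra hcon
    push Not at hcon
    exact hω (MonoidHom.ext hcon)
  have h1 : ω t * ∑ s, ω s = ∑ s, ω s := by
    rw [Finset.mul_sum]
    exact Fintype.sum_equiv (Equiv.mulLeft t) _ _ fun s => by
      simp only [Equiv.coe_mulLeft, map_mul]
  have h2 : (ω t - 1) * ∑ s, ω s = 0 := by
    rw [sub_mul, one_mul, h1, sub_self]
  rcases mul_eq_zero.mp h2 with h | h
  · exact absurd (sub_eq_zero.mp h) ht
  · exact h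

/-- The translations act freely on the functions which are not constant. -/
lemma sh_free (hC : (Fintype.card C).Prime) (i : C → Fin n) (hi : ¬ IsCst i) (s : C)
    (hs : sh s i = i) : s = 1 := by
  by_contra hne
  apply hi
  have : Fact (Nat.card C).Prime := ⟨by rw [Nat.card_eq_fintype_card]; exact hC⟩
  apply isCst_of_sh
  intro t
  have ht : t ∈ Subgroup.zpowers s := mem_zpowers_of_prime_card rfl hne
  let S : Subgroup C :=
    { carrier := {u | sh u i = i}
      one_mem' := sh_one i
      mul_mem' := by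
        intro a b ha hb
        simp only [Set.mem_ofPred_eq] at ha hb ⊢
        rw [← sh_sh, hb, ha]
      inv_mem' := by
        intro a ha
        simp only [Set.mem_ofPred_eq] at ha ⊢
        conv_lhs => rw [← ha]
        rw [sh_inv_sh] }
  have hS : Subgroup.zpowers s ≤ S := by
    rw [Subgroup.zpowers_le]
    exact hs
  exact hS ht

lemma sh_inj_of (hC : (Fintype.card C).Prime) (i : C → Fin n) (hi : ¬ IsCst i) (s t : C)
    (hs : sh s i = sh t i) : s = t := by
  have h : sh (t⁻¹ * s) i = i := by
    rw [← sh_sh, hs, sh_inv_sh]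
  have := sh_free hC i hi _ h
  exact (inv_mul_eq_one.mp this).symm

lemma exists_tau (hC : (Fintype.card C).Prime) (ω : C →* E) :
    ∃ τ : (C → Fin n) → E, ∀ i, ¬ IsCst i → τ i ≠ 0 ∧ ∀ s, τ (sh s i) = ω s * τ i := by
  classical
  let S : Setoid (C → Fin n) :=
    { r := fun i j => ∃ s, i = sh s j
      iseqv :=
        { refl := fun i => ⟨1, (sh_one i).symm⟩
          symm := by
            rintro i j ⟨s, rfl⟩
            exact ⟨s⁻¹, (sh_inv_sh s j).symm⟩
          trans := by
            rintro i j k ⟨s, rfl⟩ ⟨t, rfl⟩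
            exact ⟨s * t, sh_sh s t k⟩ } }
  let rep : (C → Fin n) → (C → Fin n) := fun i => Quotient.out (Quotient.mk S i)
  have hrep : ∀ i, ∃ s, i = sh s (rep i) := by
    intro i
    have h1 : Quotient.mk S (rep i) = Quotient.mk S i := Quotient.out_eq _
    have h2 : S.r (rep i) i := Quotient.exact h1
    exact S.symm h2
  choose c hc using hrep
  have hrs : ∀ s i, rep (sh s i) = rep i := by
    intro s i
    have : Quotient.mk S (sh s i) = Quotient.mk S i := Quotient.sound ⟨s, rfl⟩
    simp only [rep, this]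
  refine ⟨fun i => ω (c i), fun i hi => ⟨?_, fun s => ?_⟩⟩
  · intro h0
    have h1 : ω (c i * (c i)⁻¹) = 1 := by rw [mul_inv_cancel, map_one]
    rw [map_mul] at h1
    simp only at h0
    rw [h0, zero_mul] at h1
    exact zero_ne_one h1
  · have hr : ¬ IsCst (rep i) := by
      intro h
      apply hi
      rw [hc i, isCst_sh_iff']
      exact h
    have h1 : sh (s * c i) (rep i) = sh (c (sh s i)) (rep i) := by
      rw [← sh_sh, ← hc i]
      conv_rhs => rw [← hrs s i]
      exact hc (sh s i)
    have h2 := sh_inj_of hC _ hr _ _ h1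
    simp only
    rw [← h2, map_mul]

lemma rtE_cst_one (i j : C → Fin n) (hi : IsCst i) :
    rtE n (1 : C →* E) i j = if i = j then 1 else 0 := by
  rw [rtE_apply]
  have h1 : ∀ s : C, (i = sh s j ↔ i = j) := by
    intro s
    constructor
    · intro h
      have h2 : sh s⁻¹ i = j := by rw [h, sh_inv_sh]
      rw [hi.sh] at h2
      exact h2
    · rintro rfl
      exact (hi.sh s).symm
  by_cases h : i = j
  · rw [if_pos h, Finset.sum_congr rfl fun s _ => if_pos ((h1 s).mpr h)]
    simp only [MonoidHom.one_apply, Finset.sum_const, Finset.card_univ, nsmul_eq_mul, mul_one]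
    exact inv_mul_cancel₀ rt_card
  · rw [if_neg h, Finset.sum_congr rfl fun s _ => if_neg (fun h' => h ((h1 s).mp h'))]
    rw [Finset.sum_const_zero, mul_zero]

lemma rtE_cst (ω : C →* E) (hω : ω ≠ 1) (i j : C → Fin n) (hi : IsCst i) :
    rtE n ω i j = 0 := by
  rw [rtE_apply]
  have h1 : ∀ s : C, (i = sh s j ↔ i = j) := by
    intro s
    constructor
    · intro h
      have h2 : sh s⁻¹ i = j := by rw [h, sh_inv_sh]
      rw [hi.sh] at h2
      exact h2
    · rintro rfl
      exact (hi.sh s).symm
  by_cases h : i = j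
  · rw [Finset.sum_congr rfl fun s _ => if_pos ((h1 s).mpr h), sum_char ω hω, mul_zero]
  · rw [Finset.sum_congr rfl fun s _ => if_neg (fun h' => h ((h1 s).mp h'))]
    rw [Finset.sum_const_zero, mul_zero]

lemma rtE_off (ω : C →* E) (i j : C → Fin n) (hi : ¬ IsCst i) (hj : IsCst j) :
    rtE n ω i j = 0 := by
  rw [rtE_apply, Finset.sum_eq_zero, mul_zero]
  intro s _
  rw [if_neg]
  intro h
  apply hi
  rw [h, isCst_sh_iff']
  exact hj

lemma det_diaE (K : Matrix (Fin n) (Fin n) E) : (diaE (C := C) K).det = K.det := by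
  classical
  rw [Matrix.twoBlockTriangular_det (diaE (C := C) K) (fun i => IsCst i)]
  · have h1 : (Matrix.toSquareBlockProp (diaE (C := C) K) fun i => ¬ IsCst i) = 1 := by
      ext i j
      rw [Matrix.toSquareBlockProp_def]
      simp only [Matrix.of_apply, diaE]
      rw [if_neg (fun h => i.2 h.1), Matrix.one_apply]
      by_cases h : i = j
      · rw [if_pos h, if_pos (congrArg _ h)]
      · rw [if_neg h, if_neg (fun h' => h (Subtype.ext h'))]
    rw [h1, Matrix.det_one, mul_one]
    let f : {i : C → Fin n // IsCst i} ≃ Fin n :=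
      { toFun := fun i => i.1 1
        invFun := fun k => ⟨fun _ => k, fun _ => rfl⟩
        left_inv := by
          intro i
          apply Subtype.ext
          funext x
          exact (i.2 x).symm
        right_inv := fun k => rfl }
    rw [← Matrix.det_submatrix_equiv_self f K]
    congr 1
    ext i j
    rw [Matrix.toSquareBlockProp_def, Matrix.submatrix_apply]
    simp only [Matrix.of_apply, diaE]
    rw [if_pos ⟨i.2, j.2⟩]
    rfl
  · intro i hi j hj
    simp only [diaE, Matrix.of_apply]
    rw [if_neg (fun h => hi h.1), if_neg]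
    rintro rfl
    exact hi hj

lemma diaE_sub_one_apply (K : Matrix (Fin n) (Fin n) E) (i j : C → Fin n) (hj : ¬ IsCst j) :
    (diaE K - 1) i j = 0 := by
  rw [Matrix.sub_apply, Matrix.one_apply]
  simp only [diaE, Matrix.of_apply]
  rw [if_neg (fun h => hj h.2), sub_self]

lemma dete_diaE_one (K : Matrix (Fin n) (Fin n) E) :
    dete (1 : C →* E) (diaE K) = K.det := by
  classical
  rw [dete_eq, ← det_diaE (C := C) K]
  congr 1
  have h1 : (diaE K - 1) * rtE n (1 : C →* E) = diaE K - 1 := by
    ext i j
    rw [Matrix.mul_apply]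
    rw [Finset.sum_eq_single j]
    · by_cases hj : IsCst j
      · rw [rtE_cst_one j j hj, if_pos rfl, mul_one]
      · rw [diaE_sub_one_apply K i j hj, zero_mul]
    · intro k _ hk
      by_cases hk' : IsCst k
      · rw [rtE_cst_one k j hk', if_neg hk, mul_zero]
      · rw [diaE_sub_one_apply K i k hk', zero_mul]
    · intro h
      exact absurd (Finset.mem_univ _) h
  rw [h1]
  abel

lemma dete_diaE (ω : C →* E) (hω : ω ≠ 1) (K : Matrix (Fin n) (Fin n) E) :
    dete ω (diaE K) = 1 := by
  classical
  rw [dete_eq]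
  have h1 : (diaE K - 1) * rtE n ω = 0 := by
    ext i j
    rw [Matrix.mul_apply]
    refine Finset.sum_eq_zero fun k _ => ?_
    by_cases hk' : IsCst k
    · rw [rtE_cst ω hω k j hk', mul_zero]
    · rw [diaE_sub_one_apply K i k hk', zero_mul]
  rw [h1, add_zero, Matrix.det_one]

instance decIsCst (i : C → Fin n) : Decidable (IsCst i) :=
  inferInstanceAs (Decidable (∀ x, i x = i 1))

/-- The block of the non-constant indices. -/
noncomputable def blk (ω : C →* E) (d : (C → Fin n) → E) :
    Matrix {i : C → Fin n // ¬ IsCst i} {i : C → Fin n // ¬ IsCst i} E :=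
  Matrix.of fun i j => (1 : Matrix (C → Fin n) (C → Fin n) E) i.1 j.1 + (d i.1 - 1) * rtE n ω i.1 j.1

lemma blk_det (hC : (Fintype.card C).Prime) (ω : C →* E) (d : (C → Fin n) → E) :
    (blk ω d).det = (blk 1 d).det := by
  obtain ⟨τ, hτ⟩ := exists_tau (n := n) hC ω
  have h1 : (Matrix.of fun i j => τ (j : {i : C → Fin n // ¬ IsCst i}).1 * blk ω d i j).det =
      (Matrix.of fun i j => τ (i : {i : C → Fin n // ¬ IsCst i}).1 * blk 1 d i j).det := by
    congr 1
    ext i j
    simp only [Matrix.of_apply, blk, Matrix.one_apply]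
    have h2 : τ j.1 * rtE n ω i.1 j.1 = τ i.1 * rtE n (1 : C →* E) i.1 j.1 := by
      rw [rtE_apply, rtE_apply, mul_left_comm, mul_left_comm (τ i.1)]
      congr 1
      rw [Finset.mul_sum, Finset.mul_sum]
      refine Finset.sum_congr rfl fun s _ => ?_
      by_cases h : i.1 = sh s j.1
      · rw [if_pos h, if_pos h, h, (hτ j.1 j.2).2 s, MonoidHom.one_apply]
        ring
      · rw [if_neg h, if_neg h]
        simp
    by_cases h : i.1 = j.1
    · rw [if_pos h]
      linear_combination (d i.1 - 1) * h2 + congrArg τ h.symm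
    · rw [if_neg h]
      linear_combination (d i.1 - 1) * h2
  rw [Matrix.det_mul_row, Matrix.det_mul_column] at h1
  refine mul_left_cancel₀ ?_ h1
  exact Finset.prod_ne_zero_iff.mpr fun i _ => (hτ i.1 i.2).1

lemma dete_diagonal_one (D : Fin n → E) :
    dete (1 : C →* E) (Matrix.diagonal fun i => ∏ x, D (i x)) =
      (∏ k, D k) ^ Fintype.card C * (blk (1 : C →* E) fun i => ∏ x, D (i x)).det := by
  rw [dete_eq, Matrix.twoBlockTriangular_det _ (fun i => IsCst i)]
  · congr 1
    · have h1 : (Matrix.toSquareBlockProp (1 + (Matrix.diagonal (fun i : C → Fin n =>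
          ∏ x, D (i x)) - 1) * rtE n (1 : C →* E)) fun i => IsCst i) =
          Matrix.diagonal fun i => D (i.1 1) ^ Fintype.card C := by
        ext i j
        rw [Matrix.toSquareBlockProp_def]
        simp only [Matrix.of_apply]
        rw [← Matrix.diagonal_one, Matrix.diagonal_sub, Matrix.add_apply, Matrix.diagonal_mul,
          rtE_cst_one _ _ i.2, Matrix.diagonal_apply, Matrix.diagonal_apply]
        have h2 : ∏ x, D (i.1 x) = D (i.1 1) ^ Fintype.card C := by
          rw [Finset.prod_congr rfl fun x _ => by rw [i.2 x], Finset.prod_const,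
            Finset.card_univ]
        rw [h2]
        by_cases h : i = j
        · rw [if_pos h, if_pos (congrArg _ h)]
          ring
        · have h' : ¬ i.1 = j.1 := fun h' => h (Subtype.ext h')
          rw [if_neg h, if_neg h']
          ring
      rw [h1, Matrix.det_diagonal, ← Finset.prod_pow]
      exact Fintype.prod_equiv
        { toFun := fun i => i.1 1
          invFun := fun k => ⟨fun _ => k, fun _ => rfl⟩
          left_inv := by
            intro i
            apply Subtype.ext
            funext x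
            exact (i.2 x).symm
          right_inv := fun k => rfl } _ _ fun i => rfl
    · congr 1
      ext i j
      rw [Matrix.toSquareBlockProp_def]
      simp only [Matrix.of_apply, blk]
      rw [Matrix.add_apply, sub_mul, one_mul, Matrix.sub_apply, Matrix.diagonal_mul]
      ring
  · intro i hi j hj
    rw [Matrix.add_apply, sub_mul, one_mul, Matrix.sub_apply, Matrix.diagonal_mul,
      rtE_off _ i j hi hj, Matrix.one_apply, if_neg]
    · ring
    · rintro rfl
      exact hi hj

lemma dete_diagonal (ω : C →* E) (hω : ω ≠ 1) (D : Fin n → E) :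
    dete ω (Matrix.diagonal fun i => ∏ x, D (i x)) =
      (blk ω fun i => ∏ x, D (i x)).det := by
  rw [dete_eq, Matrix.twoBlockTriangular_det _ (fun i => IsCst i)]
  · rw [← one_mul (blk ω fun i => ∏ x, D (i x)).det]
    congr 1
    · have h1 : (Matrix.toSquareBlockProp (1 + (Matrix.diagonal (fun i : C → Fin n =>
          ∏ x, D (i x)) - 1) * rtE n ω) fun i => IsCst i) = 1 := by
        ext i j
        rw [Matrix.toSquareBlockProp_def]
        simp only [Matrix.of_apply]
        rw [Matrix.add_apply, sub_mul, one_mul, Matrix.sub_apply, Matrix.diagonal_mul,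
          rtE_cst ω hω _ _ i.2, Matrix.one_apply, Matrix.one_apply]
        by_cases h : i = j
        · rw [if_pos h, if_pos (congrArg _ h)]
          ring
        · have h' : ¬ i.1 = j.1 := fun h' => h (Subtype.ext h')
          rw [if_neg h, if_neg h']
          ring
      rw [h1, Matrix.det_one]
    · congr 1
      ext i j
      rw [Matrix.toSquareBlockProp_def]
      simp only [Matrix.of_apply, blk]
      rw [Matrix.add_apply, sub_mul, one_mul, Matrix.sub_apply, Matrix.diagonal_mul]
      ring
  · intro i hi j hj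
    rw [Matrix.add_apply, sub_mul, one_mul, Matrix.sub_apply, Matrix.diagonal_mul,
      rtE_off _ i j hi hj, Matrix.one_apply, if_neg]
    · ring
    · rintro rfl
      exact hi hj

lemma detT_ratio (hC : (Fintype.card C).Prime) (ω : C →* E) (hω : ω ≠ 1)
    (M : Matrix (Fin n) (Fin n) E) (hM : M.det ≠ 0) :
    detT (1 : C →* E) M = M.det ^ Fintype.card C * detT ω M := by
  refine Matrix.diagonal_transvection_induction_of_det_ne_zero
    (fun M => detT (1 : C →* E) M = M.det ^ Fintype.card C * detT ω M) M hM ?_ ?_ ?_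
  · intro D _
    simp only [detT_apply, tenE_diagonal]
    rw [dete_diagonal_one, dete_diagonal ω hω, blk_det hC ω, Matrix.det_diagonal]
  · intro t
    simp only [Matrix.TransvectionStruct.toMatrix]
    rw [hom_transvection _ _ _ t.hij, hom_transvection _ _ _ t.hij,
      Matrix.det_transvection_of_ne _ _ t.hij, one_pow, one_mul]
  · intro A B _ _ hA hB
    simp only [map_mul, Matrix.det_mul, mul_pow]
    rw [hA, hB]
    ring

/-- Write `e = |C|⁻¹ ∑ s, trnE n ω s`, an idempotent. Everything below only depends on: `tenE` is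
multiplicative and commutes with `e`; so
`dete ω (tenE M * diaE K) = dete ω (tenE M) * dete ω (diaE K)` (`diaE K` also commutes with `e`),
and `M ↦ dete ω (tenE M)` is multiplicative. -/
theorem dete_ratio (hC : (Fintype.card C).Prime) (ω : C →* E) (hω : ω ≠ 1)
    (M K : Matrix (Fin n) (Fin n) E) (hM : M.det ≠ 0) (hK : K.det ≠ 0) :
    ∃ N : ℕ, 0 < N ∧ dete (1 : C →* E) (tenE M * diaE K) ^ N =
      (M.det ^ Fintype.card C * K.det * dete ω (tenE M * diaE K)) ^ N := by
  refine ⟨1, one_pos, ?_⟩
  rw [pow_one, pow_one, dete_mul _ _ _ (diaE_comm _ K), dete_mul _ _ _ (diaE_comm _ K),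
    dete_diaE_one, dete_diaE ω hω, ← detT_apply, ← detT_apply, detT_ratio hC ω hω M hM]
  ring

end ratio

end Pool.Agent.Lib.MP_8f66f0_al_Wreath
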