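import Mathlib
import Pool.Agent.Lib.MP_8f66f0_al_FinQ.Pair
import Pool.Agent.Lib.MP_8f66f0_al_Uni.PDef

namespace Pool.Agent.Lib.MP_8f66f0_al_Plus
end Pool.Agent.Lib.MP_8f66f0_al_Plus

/-! Classes of infinite order in the wreath product. -/

set_option autoImplicit false
set_option linter.unusedSectionVars false

namespace Pool.Agent.Lib.MP_8f66f0_al_Wreath

open Pool.Agent.Lib.MP_8f66f0_al_Dennis Pool.Agent.Lib.MP_8f66f0_al_FinQ
open Pool.Agent.Lib.MP_8f66f0_al_Plus Pool.Agent.Lib.MP_8f66f0_al_Uni

section wreathDet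

variable {Γ : Type*} [Group Γ] {C : Type*} [Group C] [Fintype C]

lemma rwp_pow_right (w : RegularWreathProduct Γ C) (k : ℕ) : (w ^ k).right = w.right ^ k :=
  map_pow (RegularWreathProduct.rightHom : RegularWreathProduct Γ C →* C) w k

lemma rwp_pow_card_right (w : RegularWreathProduct Γ C) :
    (w ^ Fintype.card C).right = 1 := by
  rw [rwp_pow_right, pow_card_eq_one]

lemma rwp_mul_left (v w : RegularWreathProduct Γ C) (x : C) :
    (v * w).left x = v.left x * w.left (v.right⁻¹ * x) := rfl

lemma rwp_mul_left' (v w : RegularWreathProduct Γ C) (y : C) :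
    (v * w).left (v.right * y) = v.left (v.right * y) * w.left y := by
  rw [rwp_mul_left, inv_mul_cancel_left]

/-- Powers of elements of the base group. -/
lemma rwp_pow_left_of_right {w : RegularWreathProduct Γ C} (hw : w.right = 1) (k : ℕ) :
    (w ^ k).left = w.left ^ k := by
  induction k with
  | zero => simp
  | succ k ih =>
    rw [pow_succ, pow_succ, ← ih]
    funext x
    rw [rwp_mul_left, Pi.mul_apply, rwp_pow_right, hw, one_pow, inv_one, one_mul]

/-- The coordinates of a conjugate of an element of the base group. -/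
lemma rwp_conj_left (v u : RegularWreathProduct Γ C) (hu : u.right = 1) (y : C) :
    (v * u * v⁻¹).left (v.right * y) =
      v.left (v.right * y) * u.left y * (v.left (v.right * y))⁻¹ := by
  rw [rwp_mul_left, rwp_mul_left', RegularWreathProduct.mul_right, hu, mul_one,
    inv_mul_cancel_left, RegularWreathProduct.inv_left]
  rfl

/-- The coordinates of the power of a conjugate. -/
lemma rwp_conj_pow_left (v w : RegularWreathProduct Γ C) (y : C) :
    ((v * w * v⁻¹) ^ Fintype.card C).left (v.right * y) =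
      v.left (v.right * y) * (w ^ Fintype.card C).left y * (v.left (v.right * y))⁻¹ := by
  rw [conj_pow, rwp_conj_left _ _ (rwp_pow_card_right w)]

/-- A power of an element of infinite order has a nontrivial coordinate. -/
lemma rwp_exists_coord_ne_one {h : RegularWreathProduct Γ C}
    (hh : ∀ k : ℕ, 0 < k → h ^ k ≠ 1) : ∃ x, (h ^ Fintype.card C).left x ≠ 1 := by
  by_contra hcon
  push Not at hcon
  apply hh (Fintype.card C) Fintype.card_pos
  apply RegularWreathProduct.ext
  · funext x
    exact hcon x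
  · exact rwp_pow_card_right h

open Classical in
/-- The class cocycle of the wreath product induced by a class cocycle. -/
noncomputable def rwpCocycle (c : Γ) (δ : Γ → Γ → ℤ) (v w : RegularWreathProduct Γ C) : ℤ :=
  ∑ y : C, if IsConj c ((w ^ Fintype.card C).left y) then
    δ (v.left (v.right * y)) ((w ^ Fintype.card C).left y) else 0

lemma rwpCocycle_mul {c : Γ} {δ : Γ → Γ → ℤ} (hδ : IsClassCocycle c δ)
    (g h w : RegularWreathProduct Γ C) :
    rwpCocycle c δ (g * h) w = rwpCocycle c δ g (h * w * h⁻¹) + rwpCocycle c δ h w := by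
  classical
  have h0 : rwpCocycle c δ g (h * w * h⁻¹) = ∑ y : C,
      if IsConj c (((h * w * h⁻¹) ^ Fintype.card C).left (h.right * y)) then
        δ (g.left (g.right * (h.right * y)))
          (((h * w * h⁻¹) ^ Fintype.card C).left (h.right * y)) else 0 :=
    (Fintype.sum_equiv (Equiv.mulLeft h.right) _ _ (fun y => rfl)).symm
  rw [h0]
  unfold rwpCocycle
  rw [← Finset.sum_add_distrib]
  refine Finset.sum_congr rfl fun y _ => ?_
  have h1 : IsConj c (((h * w * h⁻¹) ^ Fintype.card C).left (h.right * y)) ↔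
      IsConj c ((w ^ Fintype.card C).left y) := by
    have h2 : IsConj ((w ^ Fintype.card C).left y)
        (((h * w * h⁻¹) ^ Fintype.card C).left (h.right * y)) := by
      rw [rwp_conj_pow_left]
      exact isConj_iff.mpr ⟨_, rfl⟩
    exact ⟨fun h3 => h3.trans h2.symm, fun h3 => h3.trans h2⟩
  by_cases hc : IsConj c ((w ^ Fintype.card C).left y)
  · rw [if_pos hc, if_pos (h1.mpr hc), if_pos hc, rwp_conj_pow_left, ← hδ _ _ _ hc]
    congr 1
    rw [RegularWreathProduct.mul_right, mul_assoc, rwp_mul_left, inv_mul_cancel_left]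
  · rw [if_neg hc, if_neg (fun h3 => hc (h1.mp h3)), if_neg hc, add_zero]

lemma rwpCocycle_pow {c : Γ} {δ : Γ → Γ → ℤ} (hδ : IsClassCocycle c δ)
    (h : RegularWreathProduct Γ C) (k : ℕ) :
    rwpCocycle c δ (h ^ (k + 1)) h = (k + 1) * rwpCocycle c δ h h := by
  induction k with
  | zero => simp
  | succ k ih =>
    rw [pow_succ, rwpCocycle_mul hδ, mul_inv_cancel_right, ih]
    push_cast
    ring

theorem detected_rwp {c : Γ} {δ : Γ → Γ → ℤ} (hδ : IsClassCocycle c δ) (h0 : δ c c ≠ 0)
    {h : RegularWreathProduct Γ C} {x : C} (hx : (h ^ Fintype.card C).left x = c) :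
    Detected h := by
  classical
  refine ⟨rwpCocycle c δ, fun g h' w _ => rwpCocycle_mul hδ g h' w, fun h1 => ?_⟩
  obtain ⟨k, hk⟩ := Nat.exists_eq_succ_of_ne_zero (Fintype.card_ne_zero (α := C))
  have h2 := rwpCocycle_pow hδ h k
  rw [h1, mul_zero, ← Nat.succ_eq_add_one, ← hk] at h2
  have h3 : rwpCocycle c δ (h ^ Fintype.card C) h =
      ((Finset.univ.filter fun y : C => IsConj c ((h ^ Fintype.card C).left y)).card : ℤ) *
        δ c c := by
    unfold rwpCocycle
    rw [← nsmul_eq_mul, ← Finset.sum_const, Finset.sum_filter]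
    refine Finset.sum_congr rfl fun y _ => ?_
    by_cases hc : IsConj c ((h ^ Fintype.card C).left y)
    · rw [if_pos hc, if_pos hc, rwp_pow_card_right, one_mul, cocycle_diag hδ hc]
    · rw [if_neg hc, if_neg hc]
  rw [h3] at h2
  rcases mul_eq_zero.mp h2 with h4 | h4
  · have h5 : x ∈ Finset.univ.filter fun y : C => IsConj c ((h ^ Fintype.card C).left y) := by
      rw [Finset.mem_filter, hx]
      exact ⟨Finset.mem_univ _, IsConj.refl c⟩
    rw [Nat.cast_eq_zero, Finset.card_eq_zero] at h4
    rw [h4] at h5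
    exact absurd h5 (Finset.notMem_empty x)
  · exact h0 h4

end wreathDet

section wreathRep

variable {Γ : Type*} [Group Γ] {C : Type*} [Group C] [Fintype C] {R : Type*} [CommRing R] {m : ℕ}

open Classical in
/-- The representation of the wreath product on the direct sum of copies. -/
noncomputable def rwpMat (ρ : Γ →* Matrix.GeneralLinearGroup (Fin m) R) :
    RegularWreathProduct Γ C →* Matrix (C × Fin m) (C × Fin m) R where
  toFun w := Matrix.of fun a b => if w.right⁻¹ * a.1 = b.1 then
    (ρ (w.left a.1) : Matrix (Fin m) (Fin m) R) a.2 b.2 else 0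
  map_one' := by
    ext ⟨i, a⟩ ⟨j, b⟩
    simp only [Matrix.of_apply, RegularWreathProduct.one_right, inv_one, one_mul,
      RegularWreathProduct.one_left, Pi.one_apply, map_one, Units.val_one, Matrix.one_apply,
      Prod.mk.injEq]
    split_ifs <;> simp_all
  map_mul' x y := by
    ext ⟨i, a⟩ ⟨j, b⟩
    rw [Matrix.mul_apply, Fintype.sum_prod_type]
    simp only [Matrix.of_apply]
    rw [Finset.sum_eq_single (x.right⁻¹ * i)]
    · simp only [if_true, RegularWreathProduct.mul_right, rwp_mul_left, map_mul]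
      by_cases h : y.right⁻¹ * (x.right⁻¹ * i) = j
      · have h' : (x.right * y.right)⁻¹ * i = j := by
          rw [← h, mul_inv_rev, mul_assoc]
        rw [if_pos h']
        simp only [if_pos h]
        rw [Units.val_mul, Matrix.mul_apply]
      · have h' : ¬ (x.right * y.right)⁻¹ * i = j := by
          intro h1; apply h; rw [← h1, mul_inv_rev, mul_assoc]
        rw [if_neg h']
        simp only [if_neg h, mul_zero, Finset.sum_const_zero]
    · intro k _ hk
      refine Finset.sum_eq_zero fun c _ => ?_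
      rw [if_neg (fun h => hk h.symm), zero_mul]
    · intro h; exact absurd (Finset.mem_univ _) h

open Classical in
lemma rwpMat_apply (ρ : Γ →* Matrix.GeneralLinearGroup (Fin m) R) (w : RegularWreathProduct Γ C)
    (a b : C × Fin m) : rwpMat ρ w a b = if w.right⁻¹ * a.1 = b.1 then
      (ρ (w.left a.1) : Matrix (Fin m) (Fin m) R) a.2 b.2 else 0 := rfl

open Classical in
/-- The same representation with standard index type. -/
noncomputable def rwpRep (ρ : Γ →* Matrix.GeneralLinearGroup (Fin m) R) :
    RegularWreathProduct Γ C →*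
      Matrix.GeneralLinearGroup (Fin (Fintype.card (C × Fin m))) R :=
  MonoidHom.toHomUnits (((Matrix.reindexAlgEquiv R R (Fintype.equivFin
    (C × Fin m))).toAlgHom.toRingHom.toMonoidHom).comp (rwpMat ρ))

open Classical in
lemma rwpMat_eq_one_of_rwpRep {ρ : Γ →* Matrix.GeneralLinearGroup (Fin m) R}
    {w : RegularWreathProduct Γ C} (h : rwpRep ρ w = 1) : rwpMat ρ w = 1 := by
  have h1 := congrArg Units.val h
  have h2 : Matrix.reindexAlgEquiv R R (Fintype.equivFin (C × Fin m)) (rwpMat ρ w) = 1 := h1
  rw [← map_one (Matrix.reindexAlgEquiv R R (Fintype.equivFin (C × Fin m)))] at h2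
  exact (Matrix.reindexAlgEquiv R R (Fintype.equivFin (C × Fin m))).injective h2

open Classical in
/-- The coordinates of an element of the base group in the kernel. -/
lemma rwp_coord_eq_one {ρ : Γ →* Matrix.GeneralLinearGroup (Fin m) R}
    {w : RegularWreathProduct Γ C} (hw : w.right = 1) (h : rwpMat ρ w = 1) (x : C) :
    ρ (w.left x) = 1 := by
  apply Units.ext
  ext a b
  have h1 := congrFun (congrFun h (x, a)) (x, b)
  rw [rwpMat_apply, hw, inv_one, one_mul, if_pos rfl] at h1
  rw [h1, Units.val_one, Matrix.one_apply, Matrix.one_apply]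
  simp

/-- If some coordinate of the power of `w` has infinite order under `ρ` then `w` has infinite order
in the representation of the wreath product. -/
theorem rwpRep_pow_ne_one {ρ : Γ →* Matrix.GeneralLinearGroup (Fin m) R}
    {w : RegularWreathProduct Γ C} {x : C}
    (hx : ∀ n : ℕ, 0 < n → ρ ((w ^ Fintype.card C).left x) ^ n ≠ 1) (n : ℕ) (hn : 0 < n) :
    rwpRep ρ w ^ n ≠ 1 := by
  intro h
  apply hx n hn
  have h1 : rwpRep ρ ((w ^ Fintype.card C) ^ n) = 1 := by
    rw [map_pow, map_pow, ← pow_mul, mul_comm, pow_mul, h, one_pow]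
  have h2 := rwp_coord_eq_one (by rw [rwp_pow_right, rwp_pow_card_right, one_pow])
    (rwpMat_eq_one_of_rwpRep h1) x
  rwa [rwp_pow_left_of_right (rwp_pow_card_right w), Pi.pow_apply, map_pow] at h2

end wreathRep

/-- The same as `pdet_wreath` without superfluous hypotheses. -/
theorem pdet_wreath'.{v, u} {Γ : Type u} [Group Γ] {C : Type} [Group C] [Fintype C]
    {p : ℕ} (hdet : ∀ c : Γ, c ≠ 1 → PDet.{v} p c)
    (h : RegularWreathProduct Γ C) (hh : ∀ k : ℕ, 0 < k → h ^ k ≠ 1) : PDet.{v} p h := by
  obtain ⟨x, hx⟩ := rwp_exists_coord_ne_one hh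
  rcases hdet _ hx with ⟨δ, hδ, h0⟩ | ⟨R, i1, i2, i3, m, ρ, hp, hinf⟩
  · exact Or.inl (detected_rwp hδ h0 rfl)
  · exact Or.inr ⟨R, i1, i2, i3, _, rwpRep ρ, hp, rwpRep_pow_ne_one hinf⟩

/-- `h ^ p = (P, 1)` with `P x ≠ 1` for some `x`. If `ρ (P x)` has infinite order, `ρ : Γ → GL_m(R)`
then `h` has infinite order in the induced (imprimitive) representation of the wreath product on
`C → Fin m`: `h ↦` matrix with entry `ρ (h.left x) i j` at `((x, i), (y, j))` if `x = h.right * y`,
reindexed to some `Fin`. If `P x` is detected by the class cocycle `δ` then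
`δ' (v, w) = ∑ y with (w ^ p).left y conjugate to P x, δ (v.left (v.right * y), (w ^ p).left y)`
is a class cocycle at `h` with `p δ'(h, h) = δ' (h ^ p, h) = number of y (>0) times δ (P x, P x)`. -/
theorem pdet_wreath.{v, u} {Γ : Type u} [Group Γ]
    (htf : ∀ g : Γ, ∀ n : ℕ, 0 < n → g ^ n = 1 → g = 1) {C : Type} [Group C] [Fintype C]
    (hC : (Fintype.card C).Prime) {p : ℕ} (hdet : ∀ c : Γ, c ≠ 1 → PDet.{v} p c)
    (h : RegularWreathProduct Γ C) (hh : ∀ k : ℕ, 0 < k → h ^ k ≠ 1) : PDet.{v} p h :=
  pdet_wreath' hdet h hh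

end Pool.Agent.Lib.MP_8f66f0_al_Wreath
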