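import Mathlib
import Pool.Agent.Lib.MP_8f66f0_al_Uni.PDef
import Pool.Agent.Lib.MP_8f66f0_al_Wreath.Basic

namespace Pool.Agent.Lib.MP_8f66f0_al_Plus
end Pool.Agent.Lib.MP_8f66f0_al_Plus

/-! The regular wreath product of a torsion-free group with a group of prime order. -/

set_option autoImplicit false
set_option linter.unusedSectionVars false

namespace Pool.Agent.Lib.MP_8f66f0_al_Wreath

open Pool.Agent.Lib.MP_8f66f0_al_Dennis Pool.Agent.Lib.MP_8f66f0_al_FinQ
open Pool.Agent.Lib.MP_8f66f0_al_Plus Pool.Agent.Lib.MP_8f66f0_al_Uni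

section powers

variable {Γ : Type*} [Group Γ] {C : Type*} [Group C]

lemma wgrp_pow_right (h : RegularWreathProduct Γ C) (k : ℕ) : (h ^ k).right = h.right ^ k :=
  map_pow RegularWreathProduct.rightHom h k

lemma wgrp_mul_left (g h : RegularWreathProduct Γ C) (x : C) :
    (g * h).left x = g.left x * h.left (g.right⁻¹ * x) := rfl

lemma wgrp_pow_left_map {M : Type*} [CommMonoid M] (χ : Γ →* M) (h : RegularWreathProduct Γ C)
    (x : C) (k : ℕ) :
    χ ((h ^ k).left x) = ∏ j ∈ Finset.range k, χ (h.left ((h.right ^ j)⁻¹ * x)) := by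
  induction k with
  | zero => simp
  | succ k ih =>
    rw [pow_succ, wgrp_mul_left, map_mul, ih, Finset.prod_range_succ, wgrp_pow_right]

lemma wgrp_pow_left_of_right {h : RegularWreathProduct Γ C} (hh : h.right = 1) (k : ℕ) :
    (h ^ k).left = h.left ^ k := by
  induction k with
  | zero => rw [pow_zero, pow_zero]; rfl
  | succ k ih =>
    funext x
    rw [pow_succ, pow_succ, ← ih, Pi.mul_apply, wgrp_mul_left, wgrp_pow_right, hh, one_pow,
      inv_one, one_mul]

lemma wgrp_pow_card_right [Fintype C] (h : RegularWreathProduct Γ C) :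
    (h ^ Fintype.card C).right = 1 := by
  rw [wgrp_pow_right, pow_card_eq_one]

lemma wgrp_left_eq_one (htf : ∀ g : Γ, ∀ n : ℕ, 0 < n → g ^ n = 1 → g = 1)
    {h : RegularWreathProduct Γ C} (hr : h.right = 1) {k : ℕ} (hk : 0 < k) (hh : h ^ k = 1) :
    h.left = 1 := by
  funext x
  apply htf _ k hk
  have h1 : (h ^ k).left x = 1 := by rw [hh]; rfl
  rwa [wgrp_pow_left_of_right hr, Pi.pow_apply] at h1

/-- An element of infinite order has a power with a nontrivial coordinate. -/
lemma wgrp_exists_coord [Fintype C] {h : RegularWreathProduct Γ C}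
    (hh : ∀ k : ℕ, 0 < k → h ^ k ≠ 1) : ∃ x, (h ^ Fintype.card C).left x ≠ 1 := by
  by_contra hcon
  push Not at hcon
  refine hh (Fintype.card C) Fintype.card_pos ?_
  exact RegularWreathProduct.ext (funext hcon) (wgrp_pow_card_right h)

lemma wgrp_conj_left {w h : RegularWreathProduct Γ C} (hr : h.right = 1) (x : C) :
    (w * h * w⁻¹).left x = w.left x * h.left (w.right⁻¹ * x) * (w.left x)⁻¹ := by
  rw [wgrp_mul_left, wgrp_mul_left, RegularWreathProduct.mul_right, hr, mul_one]
  congr 1
  change (w.left (w.right * (w.right⁻¹ * x)))⁻¹ = (w.left x)⁻¹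
  rw [mul_inv_cancel_left]

end powers

/-- If `h = (g, s)` has finite order then `∏ χ (g x) = 1`: for `s = 1` we have `g = 1`; for
`s ≠ 1` the element `h ^ p` is `(P, 1)`, `P x` an ordered product of all the `g y`, and `P ^ k = 1`
so `P = 1`. -/
theorem wchar_of_torsion {Γ : Type*} [Group Γ]
    (htf : ∀ g : Γ, ∀ n : ℕ, 0 < n → g ^ n = 1 → g = 1) {C : Type*} [Group C] [Fintype C]
    (hC : (Fintype.card C).Prime) {E : Type*} [CommRing E] (χ : Γ →* E)
    (h : RegularWreathProduct Γ C) {k : ℕ} (hk : 0 < k) (hh : h ^ k = 1) :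
    wchar χ (1 : C →* E) h = 1 := by
  classical
  rw [wchar_apply, MonoidHom.one_apply, mul_one]
  by_cases hs : h.right = 1
  · rw [wgrp_left_eq_one htf hs hk hh]
    simp
  · have h1 : (h ^ Fintype.card C).left = 1 := by
      refine wgrp_left_eq_one htf (wgrp_pow_card_right h) hk ?_
      rw [← pow_mul, mul_comm, pow_mul, hh, one_pow]
    have h2 := wgrp_pow_left_map χ h 1 (Fintype.card C)
    rw [h1, Pi.one_apply, map_one] at h2
    rw [h2]
    have hord : orderOf h.right = Fintype.card C := by
      rcases (Nat.dvd_prime hC).mp (orderOf_dvd_card (x := h.right)) with h3 | h3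
      · exact absurd (orderOf_eq_one_iff.mp h3) hs
      · exact h3
    have hinj : Set.InjOn (fun j : ℕ => (h.right ^ j)⁻¹ * 1)
        (Finset.range (Fintype.card C) : Set ℕ) := by
      intro a ha b hb hab
      have h3 : h.right ^ a = h.right ^ b := inv_injective (mul_right_cancel hab)
      have ha' : a < orderOf h.right := by rw [hord]; exact Finset.mem_range.mp ha
      have hb' : b < orderOf h.right := by rw [hord]; exact Finset.mem_range.mp hb
      exact pow_injOn_Iio_orderOf ha' hb' h3
    have himg : (Finset.range (Fintype.card C)).image (fun j : ℕ => (h.right ^ j)⁻¹ * 1) =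
        Finset.univ := by
      apply Finset.eq_univ_of_card
      rw [Finset.card_image_of_injOn hinj, Finset.card_range]
    rw [← himg, Finset.prod_image hinj]

/-- With `q = |C|`: `x ^ q` and `y ^ q` are in the base; `x ^ l = y ^ l` gives `x ^ q = y ^ q`, so
`x = y` since `l`, `q` are coprime. If `u` is conjugate to `v ^ l`, `v ^ q = (P, 1)`, `P x ≠ 1`,
`u ^ q = (U, 1)` then `U y` is conjugate to `(P x) ^ l` for some `y`. -/
theorem powerSep_wreath {Γ : Type*} [Group Γ]
    (htf : ∀ g : Γ, ∀ n : ℕ, 0 < n → g ^ n = 1 → g = 1) {C : Type*} [Group C] [Fintype C]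
    (hC : (Fintype.card C).Prime) (hsep : PowerSep Γ) :
    PowerSep (RegularWreathProduct Γ C) := by
  obtain ⟨⟨N, hN⟩, hconj⟩ := hsep
  refine ⟨⟨N + Fintype.card C, fun l hl hlt x y hxy => ?_⟩, fun u v hv => ?_⟩
  · have hq : x ^ Fintype.card C = y ^ Fintype.card C := by
      refine RegularWreathProduct.ext ?_ ?_
      · funext c
        apply hN l hl (by omega)
        have h1 : (x ^ Fintype.card C) ^ l = (y ^ Fintype.card C) ^ l := by
          rw [← pow_mul, ← pow_mul, mul_comm, pow_mul, pow_mul, hxy]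
        have h2 := congrArg (fun z : RegularWreathProduct Γ C => z.left c) h1
        simp only [wgrp_pow_left_of_right (wgrp_pow_card_right x),
          wgrp_pow_left_of_right (wgrp_pow_card_right y), Pi.pow_apply] at h2
        exact h2
      · rw [wgrp_pow_card_right, wgrp_pow_card_right]
    have hcop : Nat.Coprime l (Fintype.card C) := by
      rw [Nat.coprime_primes hl hC]
      omega
    have hb : (1 : ℤ) = l * Nat.gcdA l (Fintype.card C) +
        Fintype.card C * Nat.gcdB l (Fintype.card C) := by
      have := Nat.gcd_eq_gcd_ab l (Fintype.card C)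
      rw [hcop.gcd_eq_one] at this
      exact_mod_cast this
    have key : ∀ z : RegularWreathProduct Γ C, z = (z ^ l) ^ (Nat.gcdA l (Fintype.card C)) *
        (z ^ Fintype.card C) ^ (Nat.gcdB l (Fintype.card C)) := by
      intro z
      conv_lhs => rw [← zpow_one z, hb, zpow_add, zpow_mul, zpow_mul, zpow_natCast, zpow_natCast]
    rw [key x, key y, hxy, hq]
  · obtain ⟨c, hc⟩ := wgrp_exists_coord hv
    set P := (v ^ Fintype.card C).left c with hP
    have hPinf : ∀ n : ℕ, 0 < n → P ^ n ≠ 1 := fun n hn h => hc (htf _ n hn h)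
    refine (Set.finite_iUnion fun y : C =>
      hconj ((u ^ Fintype.card C).left y) P hPinf).subset ?_
    rintro l ⟨hl, hul⟩
    obtain ⟨w, hw⟩ := isConj_iff.mp hul
    rw [Set.mem_iUnion]
    refine ⟨w.right⁻¹ * c, hl, isConj_iff.mpr ⟨w.left c, ?_⟩⟩
    have h1 : w * u ^ Fintype.card C * w⁻¹ = (v ^ Fintype.card C) ^ l := by
      rw [← conj_pow, hw, ← pow_mul, ← pow_mul, mul_comm]
    have h2 := congrArg (fun z : RegularWreathProduct Γ C => z.left c) h1
    simp only [wgrp_conj_left (wgrp_pow_card_right u),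
      wgrp_pow_left_of_right (wgrp_pow_card_right v), Pi.pow_apply] at h2
    exact h2

theorem fg_wreath {Γ : Type*} [Group Γ] [Group.FG Γ] {C : Type*} [Group C] [Fintype C] :
    Group.FG (RegularWreathProduct Γ C) := by
  have h1 : (base : (C → Γ) →* RegularWreathProduct Γ C).range.FG :=
    (Group.fg_iff_subgroup_fg _).mp (Group.fg_range _)
  have h2 : (RegularWreathProduct.inl : C →* RegularWreathProduct Γ C).range.FG :=
    (Group.fg_iff_subgroup_fg _).mp (Group.fg_range _)
  have h3 : (⊤ : Subgroup (RegularWreathProduct Γ C)) =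
      (base : (C → Γ) →* RegularWreathProduct Γ C).range ⊔
        (RegularWreathProduct.inl : C →* RegularWreathProduct Γ C).range := by
    symm
    rw [eq_top_iff]
    intro x _
    have hx : x = base x.left * RegularWreathProduct.inl x.right := by
      refine RegularWreathProduct.ext ?_ ?_
      · funext c
        rw [wgrp_mul_left]
        simp [base]
      · simp [base]
    rw [hx]
    exact Subgroup.mul_mem_sup ⟨_, rfl⟩ ⟨_, rfl⟩
  rw [Group.fg_def, h3]
  exact h1.sup h2

end Pool.Agent.Lib.MP_8f66f0_al_Wreath
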