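import Mathlib
import Pool.Agent.Lib.MP_8f66f0_al_Plus.OneDim
import Pool.Agent.Lib.MP_8f66f0_al_Wreath.OneDim

/-! Determinants in representations of finite quotients are roots of unity. -/

set_option autoImplicit false
set_option linter.unusedSectionVars false

namespace Pool.Agent.Lib.MP_8f66f0_al_Wreath

open Pool.Agent.Lib.MP_8f66f0_al_Dennis Pool.Agent.Lib.MP_8f66f0_al_FinQ
open Pool.Agent.Lib.MP_8f66f0_al_Plus Pool.Agent.Lib.MP_8f66f0_al_Uni
open Pool.Agent.Lib.MP_8f66f0_al_Wall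

/-- `PDet` passes to subgroups. -/
theorem pdet_subgroup.{v, u} {Γ : Type u} [Group Γ] {p : ℕ} {M : Subgroup Γ} {c : M}
    (h : PDet.{v} p (c : Γ)) : PDet.{v} p c := by
  rcases h with ⟨δ, hδ, hne⟩ | ⟨R, i1, i2, i3, m, ρ, hp, hn⟩
  · left
    refine ⟨fun g x => δ g x, fun g h x hx => ?_, hne⟩
    have h1 : IsConj (c : Γ) (x : Γ) := by
      obtain ⟨k, hk⟩ := isConj_iff.mp hx
      exact isConj_iff.mpr ⟨k, by rw [← hk]; rfl⟩
    exact hδ g h x h1
  · right
    exact ⟨R, i1, i2, i3, m, ρ.comp M.subtype, hp, hn⟩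

theorem powerSep_subgroup {Γ : Type*} [Group Γ] (h : PowerSep Γ) (M : Subgroup Γ) :
    PowerSep M := by
  obtain ⟨⟨N, hN⟩, h2⟩ := h
  refine ⟨⟨N, fun l hl hNl x y hxy => ?_⟩, fun u v hv => ?_⟩
  · apply Subtype.ext
    exact hN l hl hNl x y (by exact_mod_cast congrArg Subtype.val hxy)
  · refine (h2 u v fun n hn hvn => hv n hn (Subtype.ext (by exact_mod_cast hvn))).subset ?_
    rintro l ⟨hl, hc⟩
    refine ⟨hl, ?_⟩
    obtain ⟨k, hk⟩ := isConj_iff.mp hc
    exact isConj_iff.mpr ⟨k, by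
      have := congrArg Subtype.val hk
      exact_mod_cast this⟩

section traces

variable {Γ Q : Type*} [Group Γ] [Group Q]

lemma trace_indRep_sc1 (M : Subgroup Γ) [Fintype (Γ ⧸ M)] [DecidableEq (Γ ⧸ M)] (χ : M →* ℂ)
    (g : Γ) : (indRep M (sc1 χ) g).trace = (monRep (indCocycle_isMonCocycle M χ) g).trace := by
  rw [trace_monRep, Matrix.trace, Fintype.sum_prod_type]
  refine Finset.sum_congr rfl fun w _ => ?_
  rw [Fintype.sum_unique, Matrix.diag_apply, indRep_apply]
  rw [sc1_apply]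
  rfl

open Classical in
lemma trace_comap (π : Γ →* Q) (hπ : Function.Surjective π) (C : Subgroup Q) [Fintype (Q ⧸ C)]
    [Fintype (Γ ⧸ C.comap π)] (ψ : C →* ℂ) (g : Γ) :
    (monRep (indCocycle_isMonCocycle (C.comap π) (ψ.comp (π.subgroupComap C))) g).trace =
      (monRep (indCocycle_isMonCocycle C ψ) (π g)).trace := by
  rw [trace_ind, trace_ind]
  set F : Γ ⧸ C.comap π → Q ⧸ C := Quotient.map' π (by
    intro a b hab
    rw [QuotientGroup.leftRel_apply] at hab ⊢
    have : π (a⁻¹ * b) ∈ C := hab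
    rwa [map_mul, map_inv] at this) with hF
  have hFmk : ∀ y : Γ, F (y : Γ ⧸ C.comap π) = (π y : Q ⧸ C) := fun y => rfl
  have hbij : Function.Bijective F := by
    constructor
    · intro a b hab
      obtain ⟨a, rfl⟩ := QuotientGroup.mk_surjective a
      obtain ⟨b, rfl⟩ := QuotientGroup.mk_surjective b
      rw [hFmk, hFmk, QuotientGroup.eq] at hab
      rw [QuotientGroup.eq, Subgroup.mem_comap, map_mul, map_inv]
      exact hab
    · intro q
      obtain ⟨q, rfl⟩ := QuotientGroup.mk_surjective q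
      obtain ⟨y, rfl⟩ := hπ q
      exact ⟨(y : Γ ⧸ C.comap π), rfl⟩
  refine Fintype.sum_bijective F hbij _ _ fun v => ?_
  set y := v.out with hy
  obtain ⟨b, hb⟩ := QuotientGroup.mk_out_eq_mul C (π y)
  have hFv : F v = (π y : Q ⧸ C) := by
    conv_lhs => rw [← QuotientGroup.out_eq' v]
    rfl
  have hout : (F v).out = π y * b := by rw [hFv, hb]
  have key : (F v).out⁻¹ * π g * (F v).out = (b : Q)⁻¹ * π (y⁻¹ * g * y) * b := by
    rw [hout, map_mul, map_mul, map_inv]
    group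
  by_cases h : y⁻¹ * g * y ∈ C.comap π
  · have h' : (F v).out⁻¹ * π g * (F v).out ∈ C := by
      rw [key]
      exact C.mul_mem (C.mul_mem (C.inv_mem b.2) h) b.2
    rw [dif_pos h, dif_pos h']
    have e : (⟨(F v).out⁻¹ * π g * (F v).out, h'⟩ : C) =
        b⁻¹ * (π.subgroupComap C ⟨_, h⟩) * b := by
      apply Subtype.ext
      rw [Subgroup.coe_mul, Subgroup.coe_mul, Subgroup.coe_inv]
      exact key
    have e3 : ψ b⁻¹ * ψ b = 1 := by rw [← map_mul, inv_mul_cancel, map_one]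
    rw [e, map_mul, map_mul]
    change ψ ((π.subgroupComap C) ⟨y⁻¹ * g * y, h⟩) = _
    linear_combination (-ψ ((π.subgroupComap C) ⟨y⁻¹ * g * y, h⟩)) * e3
  · have h' : ¬ (F v).out⁻¹ * π g * (F v).out ∈ C := by
      rw [key]
      intro h2
      apply h
      have h3 := C.mul_mem (C.mul_mem b.2 h2) (C.inv_mem b.2)
      have e2 : (b : Q) * ((b : Q)⁻¹ * π (y⁻¹ * g * y) * b) * (b : Q)⁻¹ = π (y⁻¹ * g * y) := by
        group
      rwa [e2] at h3
    rw [dif_neg h, dif_neg h']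

lemma mapHom_sc1 (χ : Γ →* ℂ) (x : MonoidAlgebra ℤ Γ) (i j : Fin 1) :
    mapHom (sc1 χ) x i j = MonoidAlgebra.lift ℤ ℂ Γ χ x := by
  induction x using MonoidAlgebra.induction_linear with
  | zero => simp
  | add x y hx hy => rw [map_add, map_add, Matrix.add_apply, hx, hy]
  | single g m =>
    rw [mapHom_single, MonoidAlgebra.lift_single, Matrix.smul_apply, sc1_apply]

lemma det_mapRep_sc1 {ι : Type*} [Fintype ι] [DecidableEq ι] (χ : Γ →* ℂ)
    (A : Matrix ι ι (MonoidAlgebra ℤ Γ)) (e : ι ≃ Fin (Fintype.card ι)) :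
    (mapRep (sc1 χ) A).det = ((Matrix.reindex e e A).map (MonoidAlgebra.lift ℤ ℂ Γ χ)).det := by
  have key : mapRep (sc1 χ) A = ((Matrix.reindex e e A).map (MonoidAlgebra.lift ℤ ℂ Γ χ)).submatrix
      ((Equiv.prodUnique ι (Fin 1)).trans e) ((Equiv.prodUnique ι (Fin 1)).trans e) := by
    ext x y
    rw [mapRep_apply, Matrix.submatrix_apply, mapHom_sc1, Matrix.map_apply, Matrix.reindex_apply,
      Matrix.submatrix_apply]
    simp
  rw [key, Matrix.det_submatrix_equiv_self]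

end traces

/-- For the quotient `Q = Γ ⧸ N` choose `p` for `m = |Q|`. `artin_reduction` (FinQ/Mon.lean) reduces
to `monRep (indCocycle C ψ)` composed with `Γ → Q`, `C` a subgroup of `Q` (cyclic), `ψ : C → ℂ`
with `ψ ^ |Q| = 1`. With `M = C.comap π`, a subgroup of finite index (f.g. by
`Subgroup.fg_of_index_ne_zero`), this representation of `Γ` has the same trace as `indRep M ψ'`
(Wall/Basic.lean), `ψ'` = `ψ ∘ π` as 1 × 1 matrices, so the same determinant at `A`
(`det_eq_of_trace_eq`), which is the determinant of `ψ'` at `resMat M A` (`det_mapRep_ind`), and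
`oneDim_root` applies to the group `M` (reindex `resMat M A` to some `Fin`). -/
theorem rootHyp_of_pdet.{v, u} {Γ : Type u} [Group Γ] [Group.FG Γ]
    (htf : ∀ g : Γ, ∀ n : ℕ, 0 < n → g ^ n = 1 → g = 1) (hsep : PowerSep Γ)
    (hdet : ∀ m : ℕ, 0 < m → ∃ p : ℕ, p.Prime ∧ p ≡ 1 [MOD m] ∧
      ∀ c : Γ, c ≠ 1 → PDet.{v} p c) {n : ℕ}
    {A B : Matrix (Fin n) (Fin n) (MonoidAlgebra ℤ Γ)} (hAB : A * B = 1) (hBA : B * A = 1)
    (N : Subgroup Γ) [N.Normal] [N.FiniteIndex] : RootHyp (mapMat (QuotientGroup.mk' N) A) := by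
  classical
  intro k ρ
  rw [mapRep_mapMat]
  set π := QuotientGroup.mk' N with hπ
  have hsurj : Function.Surjective π := QuotientGroup.mk'_surjective N
  have hQ : Finite (Γ ⧸ N) := inferInstance
  have hm : 0 < Nat.card (Γ ⧸ N) := Nat.card_pos
  obtain ⟨p, hp, hpm, hd⟩ := hdet _ hm
  refine artin_reduction π ρ hAB (fun C _ ψ hψ => ?_)
  have hfin : (C.comap π).FiniteIndex := ⟨by
    rw [Subgroup.index_comap_of_surjective C hsurj]
    exact Subgroup.index_ne_zero_of_finite⟩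
  have hft : Fintype (Γ ⧸ C.comap π) := Fintype.ofFinite _
  set e := Fintype.equivFin (Fin n × (Γ ⧸ C.comap π)) with he
  have hre : ∀ {X Y : Matrix (Fin n) (Fin n) (MonoidAlgebra ℤ Γ)}, X * Y = 1 →
      Matrix.reindex e e (resMat (C.comap π) X) * Matrix.reindex e e (resMat (C.comap π) Y) = 1 := by
    intro X Y h
    rw [Matrix.reindex_apply, Matrix.reindex_apply, Matrix.submatrix_mul_equiv, ← map_mul, h,
      map_one, Matrix.submatrix_one_equiv]
  have htf' : ∀ g : C.comap π, ∀ n : ℕ, 0 < n → g ^ n = 1 → g = 1 := fun g n hn h =>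
    Subtype.ext (htf g n hn (by exact_mod_cast congrArg Subtype.val h))
  have hd' : ∀ c : C.comap π, c ≠ 1 → PDet.{v} p c := fun c hc =>
    pdet_subgroup (hd c fun h => hc (Subtype.ext h))
  obtain ⟨K, hK0, hK⟩ := oneDim_root htf' (powerSep_subgroup hsep _) hp hd' (hre hAB) (hre hBA)
    hm hpm (ψ.comp (π.subgroupComap C)) (fun x => hψ _)
  refine ⟨K, hK0, ?_⟩
  rw [det_mapRep_eq_of_trace _ (indRep (C.comap π) (sc1 (ψ.comp (π.subgroupComap C))))
    (fun g => ?_) hAB, det_mapRep_ind, det_mapRep_sc1 _ _ e]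
  · exact hK
  · rw [trace_indRep_sc1, trace_comap π hsurj C ψ g]
    rfl

end Pool.Agent.Lib.MP_8f66f0_al_Wreath
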