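import Mathlib
import Pool.Agent.Lib.MP_8f66f0_al_Aut.Class
import Pool.Agent.Lib.MP_8f66f0_al_Wall.Class
import Pool.Agent.Lib.MP_8f66f0_al_Wreath.ClassDefs
import Pool.Agent.Lib.MP_8f66f0_al_Wreath.CommRing
import Pool.Agent.Lib.MP_8f66f0_al_Wreath.Fin

/-! The theorem for groups all of whose finitely generated subgroups are good. -/

set_option autoImplicit false
set_option linter.unusedSectionVars false

namespace Pool.Agent.Lib.MP_8f66f0_al_Wreath

open Pool.Agent.Lib.MP_8f66f0_al_Dennis Pool.Agent.Lib.MP_8f66f0_al_FinQ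
open Pool.Agent.Lib.MP_8f66f0_al_Plus Pool.Agent.Lib.MP_8f66f0_al_Uni
open Pool.Agent.Lib.MP_8f66f0_al_Wall

/-- For all invertible matrices over the integral group ring the determinants in all
representations of finite quotients are roots of unity. -/
def GoodQ (Γ : Type*) [Group Γ] : Prop :=
  ∀ (n : ℕ) (A B : Matrix (Fin n) (Fin n) (MonoidAlgebra ℤ Γ)), A * B = 1 → B * A = 1 →
    ∀ (N : Subgroup Γ) [N.Normal] [N.FiniteIndex], RootHyp (mapMat (QuotientGroup.mk' N) A)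

lemma goodQ_of_goodElements.{v, u} {Γ : Type u} [Group Γ] [Group.FG Γ]
    (htf : ∀ g : Γ, ∀ n : ℕ, 0 < n → g ^ n = 1 → g = 1) (h : GoodElements.{v} Γ) : GoodQ Γ :=
  fun _ _ _ hAB hBA N _ _ => rootHyp_of_pdet.{v, u} htf h.1 h.2 hAB hBA N

lemma goodElements_of_isLinear.{v, u} {H : Type u} [Group H] [Group.FG H]
    (htf : ∀ g : H, ∀ n : ℕ, 0 < n → g ^ n = 1 → g = 1) (h : IsLinear.{v} H) :
    GoodElements.{v} H := by
  obtain ⟨R, _, m, ρ, hρ⟩ := h
  exact ⟨powerSep_of_commRing ρ hρ, pdet_of_commRing htf ρ hρ⟩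

lemma pdet_of_intDet.{v, u} {H : Type u} [Group H] {c : H}
    (h : Pool.Agent.Lib.MP_8f66f0_al_Aut.IntDet c) {p : ℕ} (hp : p.Prime) : PDet.{v} p c := by
  obtain ⟨m, ρ, hρ⟩ := h
  have hdom : IsDomain (ULift.{v} ℤ) := (ULift.ringEquiv (R := ℤ)).toMulEquiv.isDomain ℤ
  have hinj : Function.Injective (algebraMap ℤ (ULift.{v} ℤ)) := by
    intro a b hab
    exact congrArg ULift.down hab
  have hGL : Function.Injective (Matrix.GeneralLinearGroup.map (n := Fin m)
      (algebraMap ℤ (ULift.{v} ℤ))) := by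
    intro x y hxy
    ext i j
    have h2 := congrArg (fun z : Matrix.GeneralLinearGroup (Fin m) (ULift.{v} ℤ) =>
      (z : Matrix (Fin m) (Fin m) (ULift.{v} ℤ)) i j) hxy
    exact hinj h2
  refine Or.inr ⟨ULift.{v} ℤ, inferInstance, hdom, ?_, m,
    (Matrix.GeneralLinearGroup.map (algebraMap ℤ (ULift.{v} ℤ))).comp ρ, ?_, ?_⟩
  · exact charZero_of_injective_algebraMap hinj
  · intro hu
    have h1 := hu.map (ULift.ringEquiv (R := ℤ)).toRingHom
    rw [map_natCast, Int.isUnit_iff] at h1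
    have := hp.one_lt
    omega
  · intro n hn h1
    refine hρ n hn (hGL ?_)
    rw [map_pow, map_one]
    exact h1

lemma goodElements_of_autClass.{v, u} {H : Type u} [Group H]
    (htf : ∀ g : H, ∀ n : ℕ, 0 < n → g ^ n = 1 → g = 1)
    (h : Pool.Agent.Lib.MP_8f66f0_al_Aut.AutClass H) : GoodElements.{v} H := by
  have hI := h.intDetected
  refine ⟨PowerSep.of_virtuallyResiduallyFinite ?_, fun m hm => ?_⟩
  · refine Set.finite_empty.subset ?_
    rintro q ⟨hq, hq'⟩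
    exact hq' (hI.vrf q hq)
  · obtain ⟨p, hp, -, hpm⟩ := Nat.exists_prime_gt_modEq_one 0 hm.ne'
    exact ⟨p, hp, hpm, fun c hc => pdet_of_intDet (hI.intDet htf hc) hp⟩

/-- The theorem over fields. -/
theorem det_of_locally_goodQ_field.{u, w} {Γ : Type u} [Group Γ]
    (h : ∀ H : Subgroup Γ, H.FG → GoodQ H) {n : ℕ}
    {A B : Matrix (Fin n) (Fin n) (MonoidAlgebra ℤ Γ)} (hAB : A * B = 1) (hBA : B * A = 1) :
    ∃ (γ : Γ) (ε : ℤ), (ε = 1 ∨ ε = -1) ∧ ∀ (E : Type w) [Field E] (k : ℕ)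
      (ρ : Γ →* Matrix.GeneralLinearGroup (Fin k) E),
      (repMatrix ρ A).det = (ε : E) ^ k * (ρ γ : Matrix (Fin k) (Fin k) E).det := by
  obtain ⟨H, hH, A', B', hAB', hBA', hA', -⟩ := exists_descent A B hAB hBA
  have : Group.FG H := (Group.fg_iff_subgroup_fg H).mpr hH
  obtain ⟨γ, ε, hε, hall⟩ := all_fields.{u, 0, w} hAB' hBA'
    (fun N _ _ => h H hH n A' B' hAB' hBA' N)
  refine ⟨γ, ε, hε, fun E _ k ρ => ?_⟩
  have hA : A = mapMat H.subtype A' := by
    ext i j : 1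
    exact (hA' i j).symm
  have h1 := hall E k (((Units.coeHom _).comp ρ).comp H.subtype)
  rw [repMatrix_eq_mapRep, hA, mapRep_mapMat, h1]
  rfl

/-- The theorem over reduced commutative rings. -/
theorem det_of_locally_goodQ.{u, w} {Γ : Type u} [Group Γ]
    (h : ∀ H : Subgroup Γ, H.FG → GoodQ H)
    {n : ℕ} {A B : Matrix (Fin n) (Fin n) (MonoidAlgebra ℤ Γ)} (hAB : A * B = 1)
    (hBA : B * A = 1) :
    ∃ (γ : Γ) (ε : ℤ), (ε = 1 ∨ ε = -1) ∧ ∀ (E : Type w) [CommRing E] [IsReduced E] (k : ℕ)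
      (ρ : Γ →* Matrix.GeneralLinearGroup (Fin k) E),
      (repMatrix ρ A).det = (ε : E) ^ k * (ρ γ : Matrix (Fin k) (Fin k) E).det := by
  obtain ⟨γ, ε, hε, hall⟩ := det_of_locally_goodQ_field.{u, w} h hAB hBA
  refine ⟨γ, ε, hε, fun E _ _ k ρ => ?_⟩
  rw [← sub_eq_zero]
  have hK : ∀ (K : Type w) [Field K] (s : E →+* K),
      s ((repMatrix ρ A).det - (ε : E) ^ k * (ρ γ : Matrix (Fin k) (Fin k) E).det) = 0 := by
    intro K _ s
    have h1 := hall K k ((Matrix.GeneralLinearGroup.map s).comp ρ)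
    rw [det_repMatrix_map] at h1
    have h2 : (((Matrix.GeneralLinearGroup.map s).comp ρ) γ : Matrix (Fin k) (Fin k) K).det =
        s (ρ γ : Matrix (Fin k) (Fin k) E).det := by
      rw [RingHom.map_det]
      rfl
    rw [map_sub, map_mul, map_pow, map_intCast, h1, h2, sub_self]
  refine (nilpotent_iff_mem_prime.mpr fun P hP => ?_).eq_zero
  have h3 := hK (FractionRing (E ⧸ P))
    ((algebraMap (E ⧸ P) (FractionRing (E ⧸ P))).comp (Ideal.Quotient.mk P))
  rw [RingHom.comp_apply] at h3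
  exact Ideal.Quotient.eq_zero_iff_mem.mp
    ((map_eq_zero_iff _ (IsFractionRing.injective (E ⧸ P) (FractionRing (E ⧸ P)))).mp h3)

end Pool.Agent.Lib.MP_8f66f0_al_Wreath
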