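import Mathlib
import Pool.Agent.Lib.MP_8f66f0_al_Dennis.Deriv
import Pool.Agent.Lib.MP_8f66f0_al_Wreath.Lin

namespace Pool.Agent.Lib.MP_8f66f0_al_Plus
end Pool.Agent.Lib.MP_8f66f0_al_Plus

/-! Finitely generated linear groups over arbitrary commutative rings, torsion allowed: they have a
finite family of representations over fields with torsion joint kernel, and are power separated. -/

set_option autoImplicit false
set_option linter.unusedSectionVars false

namespace Pool.Agent.Lib.MP_8f66f0_al_Wreath.T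

open Pool.Agent.Lib.MP_8f66f0_al_Dennis Pool.Agent.Lib.MP_8f66f0_al_Uni
open Pool.Agent.Lib.MP_8f66f0_al_Plus Pool.Agent.Lib.MP_8f66f0_al_FinQ

section torsion

/-- `(1 + N)^n = 1` if `N^e = 0` and `n = q * e!` with `q = 0` in the ring. -/
lemma one_add_pow_eq_one {A : Type*} [Ring A] {N : A} {e q : ℕ} (hN : N ^ e = 0)
    (hq : (q : A) = 0) : (N + 1) ^ (q * e.factorial) = 1 := by
  rw [(Commute.one_right N).add_pow, Finset.sum_eq_single 0]
  · simp
  · intro i hi hi0
    rcases Nat.lt_or_ge i e with hie | hie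
    · have hdvd : i ∣ e.factorial := Nat.dvd_factorial (Nat.pos_of_ne_zero hi0) hie.le
      obtain ⟨t, ht⟩ := hdvd
      have hch : Nat.choose (q * e.factorial) i = q * (t * Nat.choose (q * e.factorial - 1) (i - 1)) := by
        rcases Nat.eq_zero_or_pos (q * e.factorial) with hz | hz
        · rw [hz]
          rw [Nat.choose_eq_zero_of_lt (Nat.pos_of_ne_zero hi0)]
          rcases Nat.mul_eq_zero.mp hz with h | h
          · rw [h, zero_mul]
          · exact absurd h e.factorial_ne_zero
        · obtain ⟨n, hn⟩ : ∃ n, q * e.factorial = n + 1 := ⟨q * e.factorial - 1, by omega⟩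
          obtain ⟨j, hj⟩ : ∃ j, i = j + 1 := ⟨i - 1, by omega⟩
          have h1 := Nat.add_one_mul_choose_eq n j
          rw [← hn, ← hj] at h1
          have h2 : n = q * e.factorial - 1 := by omega
          have h3 : j = i - 1 := by omega
          rw [h2, h3] at h1
          apply Nat.eq_of_mul_eq_mul_right (Nat.pos_of_ne_zero hi0)
          rw [← h1]
          generalize (q * e.factorial - 1).choose (i - 1) = c
          rw [ht]
          ring
      rw [hch, Nat.cast_mul, hq, zero_mul, mul_zero]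
    · rw [pow_eq_zero_of_le hie hN, zero_mul, zero_mul]
  · intro h
    exact absurd (Finset.mem_range.mpr (Nat.succ_pos _)) h

lemma matrix_pow_mem {Λ : Type*} [CommRing Λ] {m : ℕ} (I : Ideal Λ) (N : Matrix (Fin m) (Fin m) Λ)
    (h : ∀ i j, N i j ∈ I) (e : ℕ) : ∀ i j, (N ^ e) i j ∈ I ^ e := by
  induction e with
  | zero => intro i j; simp
  | succ e ih =>
    intro i j
    rw [pow_succ, pow_succ, Matrix.mul_apply]
    exact Ideal.sum_mem _ fun k _ => Ideal.mul_mem_mul (ih i k) (h k j)

/-- The congruence kernel of a nilpotent ideal containing a prime number is a torsion group. -/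
lemma exists_pow_eq_one {Λ : Type*} [CommRing Λ] {m : ℕ} {I : Ideal Λ} {e p : ℕ}
    (hI : I ^ e = ⊥) (hp : 0 < p) (hpI : (p : Λ) ∈ I) (M : Matrix (Fin m) (Fin m) Λ)
    (hM : ∀ i j, (M - 1) i j ∈ I) : ∃ n : ℕ, 0 < n ∧ M ^ n = 1 := by
  refine ⟨p ^ e * e.factorial, Nat.mul_pos (pow_pos hp e) e.factorial_pos, ?_⟩
  have hN : (M - 1) ^ e = 0 := by
    ext i j
    have := matrix_pow_mem I (M - 1) hM e i j
    rw [hI] at this
    exact this
  have hq : ((p ^ e : ℕ) : Matrix (Fin m) (Fin m) Λ) = 0 := by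
    have h1 : ((p ^ e : ℕ) : Λ) = 0 := by
      have := Ideal.pow_mem_pow hpI e
      rw [hI] at this
      rw [Nat.cast_pow]
      exact this
    rw [← map_natCast (algebraMap Λ (Matrix (Fin m) (Fin m) Λ)), h1, map_zero]
  have := one_add_pow_eq_one hN hq
  rwa [sub_add_cancel] at this

end torsion

section charzero

/-- Sections of surjections onto a field of characteristic zero with nilpotent kernel. -/
lemma exists_section {Λ F : Type*} [CommRing Λ] [Field F] [CharZero F] (π : Λ →+* F)
    (hπ : Function.Surjective π) (hker : IsNilpotent (RingHom.ker π)) :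
    ∃ s : F →+* Λ, ∀ a, π (s a) = a := by
  have hnil : ∀ z ∈ RingHom.ker π, IsNilpotent z := by
    intro z hz
    obtain ⟨e, he⟩ := hker
    refine ⟨e, ?_⟩
    have := Ideal.pow_mem_pow hz e
    rw [he] at this
    exact this
  have hunit : ∀ y : nonZeroDivisors ℤ, IsUnit (Int.castRingHom Λ y) := by
    intro y
    obtain ⟨z, hz⟩ := hπ ((((y : ℤ)) : F)⁻¹)
    have hy : ((y : ℤ) : F) ≠ 0 := Int.cast_ne_zero.mpr (nonZeroDivisors.ne_zero y.2)
    have h1 : 1 - Int.castRingHom Λ y * z ∈ RingHom.ker π := by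
      rw [RingHom.mem_ker, map_sub, map_mul, map_one, hz, eq_intCast, map_intCast,
        mul_inv_cancel₀ hy, sub_self]
    have h2 := (hnil _ h1).isUnit_one_sub
    rw [sub_sub_cancel] at h2
    exact isUnit_of_mul_isUnit_left h2
  let _ : Algebra ℚ Λ := (IsLocalization.lift (M := nonZeroDivisors ℤ) hunit : ℚ →+* Λ).toAlgebra
  have hfs : Algebra.FormallySmooth ℚ F := formallySmooth_of_charZero ℚ F
  refine ⟨(Algebra.FormallySmooth.liftOfSurjective (AlgHom.id ℚ F) π.toRatAlgHom hπ hker :
    F →ₐ[ℚ] Λ), fun a => ?_⟩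
  exact Algebra.FormallySmooth.liftOfSurjective_apply (AlgHom.id ℚ F) π.toRatAlgHom hπ hker a

/-- A Noetherian ring with a nilpotent ideal whose quotient is a field with a section is finite
over this field. -/
lemma finite_of_section {Λ F : Type*} [CommRing Λ] [IsNoetherianRing Λ] [Field F] [Algebra F Λ]
    (π : Λ →+* F) (hs : ∀ a, π (algebraMap F Λ a) = a) (hker : IsNilpotent (RingHom.ker π)) :
    Module.Finite F Λ := by
  obtain ⟨e, he⟩ := hker
  set I := RingHom.ker π with hI
  have key : ∀ j i : ℕ, i + j = e → ((I ^ i).restrictScalars F).FG := by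
    intro j
    induction j with
    | zero =>
      intro i hi
      rw [add_zero] at hi
      subst hi
      rw [he]
      exact Submodule.fg_bot
    | succ j ih =>
      intro i hi
      have hnext := ih (i + 1) (by omega)
      obtain ⟨G, hG⟩ := (IsNoetherian.noetherian (I ^ i) : (I ^ i).FG)
      have heq : (I ^ i).restrictScalars F =
          Submodule.span F (G : Set Λ) ⊔ (I ^ (i + 1)).restrictScalars F := by
        apply le_antisymm
        · intro x hx
          have hx' : x ∈ Submodule.span Λ (G : Set Λ) := by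
            rw [hG]; exact hx
          induction hx' using Submodule.span_induction with
          | mem x h => exact Submodule.mem_sup_left (Submodule.subset_span h)
          | zero => exact Submodule.zero_mem _
          | add x y hx0 hy0 hx1 hy1 =>
            refine Submodule.add_mem _ (hx1 ?_) (hy1 ?_)
            · rw [hG] at hx0; exact hx0
            · rw [hG] at hy0; exact hy0
          | smul a x hx0 hx1 =>
            rw [hG] at hx0
            have h1 : a • x = (π a) • x + (a - algebraMap F Λ (π a)) * x := by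
              rw [smul_eq_mul, Algebra.smul_def (π a) x]
              ring
            rw [h1]
            refine Submodule.add_mem _ (Submodule.smul_mem _ _ (hx1 hx0)) ?_
            apply Submodule.mem_sup_right
            change _ ∈ I ^ (i + 1)
            rw [pow_succ']
            refine Ideal.mul_mem_mul ?_ hx0
            rw [hI, RingHom.mem_ker, map_sub, hs, sub_self]
        · apply sup_le
          · rw [Submodule.span_le]
            intro x hx
            have : x ∈ Submodule.span Λ (G : Set Λ) := Submodule.subset_span hx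
            rw [hG] at this
            exact this
          · intro x hx
            exact Ideal.pow_le_pow_right (Nat.le_succ i) hx
      rw [heq]
      exact (Submodule.fg_span G.finite_toSet).sup hnext
  have h0 := key e 0 (zero_add e)
  rw [pow_zero, Ideal.one_eq_top, Submodule.restrictScalars_top] at h0
  exact ⟨h0⟩

/-- The regular representation. -/
lemma exists_regular {Λ F : Type*} [CommRing Λ] [Field F] [Algebra F Λ] [Module.Finite F Λ]
    (m : ℕ) : ∃ (k : ℕ) (Φ : Matrix.GeneralLinearGroup (Fin m) Λ →*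
      Matrix.GeneralLinearGroup (Fin k) F), Function.Injective Φ := by
  classical
  set b := Module.finBasis F Λ
  set d := Module.finrank F Λ
  set e : Fin m × Fin d ≃ Fin (m * d) := finProdFinEquiv
  set φ : Matrix (Fin m) (Fin m) Λ →+* Matrix (Fin (m * d)) (Fin (m * d)) F :=
    ((Matrix.reindexRingEquiv F e).toRingHom.comp
      (Matrix.compRingEquiv (Fin m) (Fin d) F).toRingHom).comp
      ((Algebra.leftMulMatrix b : Λ →ₐ[F] Matrix (Fin d) (Fin d) F).toRingHom.mapMatrix) with hφ
  have hinj : Function.Injective φ := by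
    intro A B hAB
    have h1 : Matrix.compRingEquiv (Fin m) (Fin d) F (A.map (Algebra.leftMulMatrix b)) =
        Matrix.compRingEquiv (Fin m) (Fin d) F (B.map (Algebra.leftMulMatrix b)) :=
      (Matrix.reindexRingEquiv F e).injective hAB
    have h2 := (Matrix.compRingEquiv (Fin m) (Fin d) F).injective h1
    exact Matrix.map_injective (Algebra.leftMulMatrix_injective b) h2
  exact ⟨m * d, Units.map φ.toMonoidHom, Units.map_injective hinj⟩

end charzero

section local_ring

/-- Representations over a local ring with nilpotent maximal ideal. -/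
theorem exists_field_of_local.{v, u} {Γ : Type u} [Group Γ] {Λ : Type v} [CommRing Λ]
    [IsNoetherianRing Λ] [IsLocalRing Λ] (hnil : IsNilpotent (IsLocalRing.maximalIdeal Λ)) {m : ℕ}
    (σ : Γ →* Matrix.GeneralLinearGroup (Fin m) Λ) :
    ∃ (F : Type v) (_ : Field F) (k : ℕ) (τ : Γ →* Matrix.GeneralLinearGroup (Fin k) F),
      ∀ x, τ x = 1 → ∃ n : ℕ, 0 < n ∧ σ x ^ n = 1 := by
  set π : Λ →+* IsLocalRing.ResidueField Λ := IsLocalRing.residue Λ with hπ
  have hsurj : Function.Surjective π := IsLocalRing.residue_surjective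
  have hker : RingHom.ker π = IsLocalRing.maximalIdeal Λ := IsLocalRing.ker_residue
  obtain ⟨p, hp⟩ := CharP.exists (IsLocalRing.ResidueField Λ)
  rcases CharP.char_is_prime_or_zero (IsLocalRing.ResidueField Λ) p with hprime | hzero
  · refine ⟨IsLocalRing.ResidueField Λ, inferInstance, m,
      (Matrix.GeneralLinearGroup.map π).comp σ, fun x hx => ?_⟩
    obtain ⟨e, he⟩ := hnil
    have hpI : (p : Λ) ∈ IsLocalRing.maximalIdeal Λ := by
      rw [← hker, RingHom.mem_ker, map_natCast]
      exact CharP.cast_eq_zero _ p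
    obtain ⟨n, hn, hn1⟩ := exists_pow_eq_one he hprime.pos hpI
      (σ x : Matrix (Fin m) (Fin m) Λ) (by
        intro i j
        rw [← hker, RingHom.mem_ker]
        have h1 := congrArg (fun u : Matrix.GeneralLinearGroup (Fin m)
          (IsLocalRing.ResidueField Λ) =>
          (u : Matrix (Fin m) (Fin m) (IsLocalRing.ResidueField Λ)) i j) hx
        have h2 : π ((σ x : Matrix (Fin m) (Fin m) Λ) i j) =
          (1 : Matrix (Fin m) (Fin m) (IsLocalRing.ResidueField Λ)) i j := h1
        rw [Matrix.sub_apply, map_sub, h2, Matrix.one_apply, Matrix.one_apply]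
        split_ifs <;> simp)
    refine ⟨n, hn, ?_⟩
    apply Units.ext
    rw [Units.val_pow_eq_pow_val, hn1, Units.val_one]
  · subst hzero
    have : CharZero (IsLocalRing.ResidueField Λ) := CharP.charP_to_charZero _
    have hker' : IsNilpotent (RingHom.ker π) := by rw [hker]; exact hnil
    obtain ⟨s, hs⟩ := exists_section π hsurj hker'
    let _ : Algebra (IsLocalRing.ResidueField Λ) Λ := s.toAlgebra
    have hfin : Module.Finite (IsLocalRing.ResidueField Λ) Λ := finite_of_section π hs hker'
    obtain ⟨k, Φ, hΦ⟩ := exists_regular (Λ := Λ) (F := IsLocalRing.ResidueField Λ) m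
    refine ⟨IsLocalRing.ResidueField Λ, inferInstance, k, Φ.comp σ, fun x hx => ⟨1, one_pos, ?_⟩⟩
    rw [pow_one]
    exact hΦ (hx.trans (map_one Φ).symm)

/-- A Noetherian ring in which all zero divisors are nilpotent embeds in a local Noetherian ring
with nilpotent maximal ideal. -/
theorem exists_field_of_primary.{v, u} {Γ : Type u} [Group Γ] {S : Type v} [CommRing S]
    [Nontrivial S] [IsNoetherianRing S] (hS : ∀ x y : S, x * y = 0 → x = 0 ∨ IsNilpotent y) {m : ℕ}
    (σ : Γ →* Matrix.GeneralLinearGroup (Fin m) S) :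
    ∃ (F : Type v) (_ : Field F) (k : ℕ) (τ : Γ →* Matrix.GeneralLinearGroup (Fin k) F),
      ∀ x, τ x = 1 → ∃ n : ℕ, 0 < n ∧ σ x ^ n = 1 := by
  set Λ := FractionRing S with hΛ
  have hnoeth : IsNoetherianRing Λ := IsLocalization.isNoetherianRing (nonZeroDivisors S) Λ
    inferInstance
  have hcase : ∀ a : Λ, IsUnit a ∨ IsNilpotent a := by
    intro a
    obtain ⟨x, y, rfl⟩ := IsLocalization.exists_mk'_eq (nonZeroDivisors S) a
    by_cases hx : x ∈ nonZeroDivisors S
    · left
      rw [IsLocalization.mk'_eq_mul_mk'_one]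
      refine (IsLocalization.map_units Λ (⟨x, hx⟩ : nonZeroDivisors S)).mul ?_
      refine IsUnit.of_mul_eq_one (algebraMap S Λ y) ?_
      rw [IsLocalization.mk'_spec, map_one]
    · right
      have hxn : IsNilpotent x := by
        rw [mem_nonZeroDivisors_iff_right] at hx
        push Not at hx
        obtain ⟨z, hz, hz0⟩ := hx
        exact (hS z x hz).resolve_left hz0
      rw [IsLocalization.mk'_eq_mul_mk'_one]
      exact (Commute.all _ _).isNilpotent_mul_right (hxn.map (algebraMap S Λ))
  have hloc : IsLocalRing Λ := by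
    apply IsLocalRing.of_isUnit_or_isUnit_one_sub_self
    intro a
    rcases hcase a with h | h
    · exact Or.inl h
    · exact Or.inr h.isUnit_one_sub
  have hmax : IsLocalRing.maximalIdeal Λ ≤ nilradical Λ := by
    intro a ha
    rw [mem_nilradical]
    exact (hcase a).resolve_left ha
  have hnil : IsNilpotent (IsLocalRing.maximalIdeal Λ) := by
    obtain ⟨e, he⟩ := IsNoetherianRing.isNilpotent_nilradical Λ
    refine ⟨e, ?_⟩
    rw [Ideal.zero_eq_bot, ← le_bot_iff, ← Ideal.zero_eq_bot, ← he]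
    exact Ideal.pow_right_mono hmax e
  obtain ⟨F, hF, k, τ, hτ⟩ := exists_field_of_local hnil
    ((Matrix.GeneralLinearGroup.map (algebraMap S Λ)).comp σ)
  refine ⟨F, hF, k, τ, fun x hx => ?_⟩
  obtain ⟨n, hn, h1⟩ := hτ x hx
  refine ⟨n, hn, ?_⟩
  rw [← map_pow] at h1 ⊢
  apply Units.ext
  ext i j
  apply IsFractionRing.injective S Λ
  have h2 := congrArg (fun u : Matrix.GeneralLinearGroup (Fin m) Λ =>
    (u : Matrix (Fin m) (Fin m) Λ) i j) h1
  refine h2.trans ?_
  rw [Units.val_one, Units.val_one, Matrix.one_apply, Matrix.one_apply]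
  split_ifs <;> simp

end local_ring

section fg

variable {F : Type*} [CommRing F] {m : ℕ}

/-- A finitely generated linear group over a commutative ring is linear over a finitely generated
subring. -/
lemma exists_fg_subring {G : Type*} [Group G] [Group.FG G]
    (ρ : G →* Matrix.GeneralLinearGroup (Fin m) F) (hρ : Function.Injective ρ) :
    ∃ (R : Subalgebra ℤ F) (ρ' : G →* Matrix.GeneralLinearGroup (Fin m) R),
      Algebra.FiniteType ℤ R ∧ Function.Injective ρ' := by
  classical
  obtain ⟨S, hS⟩ := (Group.fg_def.mp ‹Group.FG G›)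
  set T : Finset F := (S ×ˢ (Finset.univ : Finset (Fin m × Fin m))).biUnion fun x =>
    {(ρ x.1 : Matrix (Fin m) (Fin m) F) x.2.1 x.2.2,
      ((ρ x.1)⁻¹ : Matrix.GeneralLinearGroup (Fin m) F) x.2.1 x.2.2} with hT
  set R : Subalgebra ℤ F := Algebra.adjoin ℤ (T : Set F) with hR
  have hfg : R.FG := Subalgebra.fg_adjoin_finset T
  have hft : Algebra.FiniteType ℤ R := R.fg_iff_finiteType.mp hfg
  set ι : R →+* F := algebraMap R F with hι
  have hιinj : Function.Injective ι := Subtype.val_injective
  set μ : Matrix.GeneralLinearGroup (Fin m) R →* Matrix.GeneralLinearGroup (Fin m) F :=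
    Matrix.GeneralLinearGroup.map ι with hμ
  have hμinj : Function.Injective μ := by
    intro a b hab
    apply Units.ext
    ext i j
    have h1 := congrArg (fun u : Matrix.GeneralLinearGroup (Fin m) F =>
      (u : Matrix (Fin m) (Fin m) F) i j) hab
    exact h1
  have hrange : ∀ g : G, ρ g ∈ μ.range := by
    have hle : Subgroup.closure (S : Set G) ≤ μ.range.comap ρ := by
      rw [Subgroup.closure_le]
      intro s hs
      have hmem : ∀ i j, (ρ s : Matrix (Fin m) (Fin m) F) i j ∈ R := by
        intro i j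
        apply Algebra.subset_adjoin
        rw [hT, Finset.mem_coe, Finset.mem_biUnion]
        exact ⟨(s, (i, j)), Finset.mem_product.mpr ⟨hs, Finset.mem_univ _⟩, by simp⟩
      have hmem' : ∀ i j, ((ρ s)⁻¹ : Matrix.GeneralLinearGroup (Fin m) F) i j ∈ R := by
        intro i j
        apply Algebra.subset_adjoin
        rw [hT, Finset.mem_coe, Finset.mem_biUnion]
        exact ⟨(s, (i, j)), Finset.mem_product.mpr ⟨hs, Finset.mem_univ _⟩, by simp⟩
      set M : Matrix (Fin m) (Fin m) R := Matrix.of fun i j => ⟨_, hmem i j⟩ with hM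
      set M' : Matrix (Fin m) (Fin m) R := Matrix.of fun i j => ⟨_, hmem' i j⟩ with hM'
      have hMm : M.map ι = (ρ s : Matrix (Fin m) (Fin m) F) := rfl
      have hMm' : M'.map ι = ((ρ s)⁻¹ : Matrix.GeneralLinearGroup (Fin m) F) := rfl
      have h1 : M * M' = 1 := by
        apply Matrix.map_injective hιinj
        change (M * M').map ι = (1 : Matrix (Fin m) (Fin m) R).map ι
        rw [Matrix.map_mul, hMm, hMm', Matrix.map_one _ (map_zero _) (map_one _), ← Units.val_mul,
          mul_inv_cancel, Units.val_one]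
      have h2 : M' * M = 1 := by
        apply Matrix.map_injective hιinj
        change (M' * M).map ι = (1 : Matrix (Fin m) (Fin m) R).map ι
        rw [Matrix.map_mul, hMm, hMm', Matrix.map_one _ (map_zero _) (map_one _), ← Units.val_mul,
          inv_mul_cancel, Units.val_one]
      refine ⟨⟨M, M', h1, h2⟩, ?_⟩
      apply Units.ext
      rfl
    intro g
    have : g ∈ Subgroup.closure (S : Set G) := by rw [hS]; trivial
    exact hle this
  set ρ' : G →* Matrix.GeneralLinearGroup (Fin m) R :=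
    ((MonoidHom.ofInjective hμinj).symm.toMonoidHom).comp (ρ.codRestrict μ.range hrange) with hρ'
  have hρ'inj : Function.Injective ρ' := by
    intro a b hab
    apply hρ
    have h1 := (MonoidHom.ofInjective hμinj).symm.injective hab
    exact congrArg Subtype.val h1
  exact ⟨R, ρ', hft, hρ'inj⟩

end fg

section separation

/-- Krull intersection in rings whose zero divisors are nilpotent. -/
lemma iInf_pow_eq_bot {S : Type*} [CommRing S] [IsNoetherianRing S]
    (hS : ∀ x y : S, x * y = 0 → x = 0 ∨ IsNilpotent y) (J : Ideal S) (hJ : J ≠ ⊤) :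
    ⨅ k, J ^ k = ⊥ := by
  rw [eq_bot_iff]
  intro x hx
  have hx' : x ∈ (⨅ i : ℕ, J ^ i • ⊤ : Submodule S S) := by
    simpa using hx
  obtain ⟨r, hr⟩ := (J.mem_iInf_smul_pow_eq_bot_iff x).mp hx'
  have h1 : x * (1 - (r : S)) = 0 := by
    rw [mul_sub, mul_one, mul_comm, ← smul_eq_mul, hr, sub_self]
  rcases hS _ _ h1 with h | h
  · exact h
  · exfalso
    apply hJ
    have h2 := h.isUnit_one_sub
    rw [sub_sub_cancel] at h2
    exact Ideal.eq_top_of_isUnit_mem J r.2 h2

/-- Congruence subgroups show that linear groups over Noetherian rings with a separated ideal of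
finite index are virtually residually finite-`q`. -/
lemma virtuallyResiduallyFiniteQ_of_separated {R : Type*} [CommRing R] [IsNoetherianRing R] {m : ℕ}
    {G : Type*} [Group G] (ρ : G →* Matrix.GeneralLinearGroup (Fin m) R)
    (hρ : Function.Injective ρ) {q : ℕ} (hq : q.Prime) (J : Ideal R) (hsep : ⨅ k, J ^ k = ⊥)
    (hqJ : (q : R) ∈ J) [Finite (R ⧸ J)] : VirtuallyResiduallyFiniteQ q G := by
  have : Fact q.Prime := ⟨hq⟩
  set f : G →* Matrix.GeneralLinearGroup (Fin m) (R ⧸ J) :=
    (Matrix.GeneralLinearGroup.map (Ideal.Quotient.mk J)).comp ρ with hf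
  refine ⟨f.ker, inferInstance, fun h hh => ?_⟩
  have hcong : ∀ x : f.ker, CongOne J (ρ x : Matrix (Fin m) (Fin m) R) := by
    intro x
    have h1 : Matrix.GeneralLinearGroup.map (Ideal.Quotient.mk J) (ρ (x : G)) = 1 := x.2
    rwa [MP_8f66f0_al_Dennis.map_eq_one_iff] at h1
  -- a nonzero entry
  have hne : ∃ i j, ((ρ h : Matrix (Fin m) (Fin m) R) - 1) i j ≠ 0 := by
    by_contra hcon
    push Not at hcon
    apply hh
    apply Subtype.ext
    apply hρ
    rw [Subgroup.coe_one, map_one]
    apply Units.ext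
    ext i j
    have := hcon i j
    rw [Matrix.sub_apply, sub_eq_zero] at this
    exact this
  obtain ⟨i, j, hij⟩ := hne
  have hkrull : ∃ k, ((ρ h : Matrix (Fin m) (Fin m) R) - 1) i j ∉ J ^ k := by
    by_contra hcon
    push Not at hcon
    have h1 : ((ρ h : Matrix (Fin m) (Fin m) R) - 1) i j ∈ ⨅ k, J ^ k := by
      rw [Ideal.mem_iInf]; exact hcon
    rw [hsep] at h1
    exact hij h1
  obtain ⟨k, hk⟩ := hkrull
  have hfinq : Finite (R ⧸ J ^ k) :=
    Ideal.finite_quotient_pow (IsNoetherian.noetherian J) k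
  set F : f.ker →* Matrix.GeneralLinearGroup (Fin m) (R ⧸ J ^ k) :=
    ((Matrix.GeneralLinearGroup.map (Ideal.Quotient.mk (J ^ k))).comp ρ).comp f.ker.subtype with hF
  refine ⟨F.ker, inferInstance, ?_, ?_⟩
  · rw [Subgroup.index_ker]
    have hp : IsPGroup q F.range := by
      rintro ⟨_, x, rfl⟩
      refine ⟨k, ?_⟩
      apply Subtype.ext
      rw [Subgroup.coe_pow, Subgroup.coe_one]
      change (F x) ^ q ^ k = 1
      rw [← map_pow]
      change Matrix.GeneralLinearGroup.map (Ideal.Quotient.mk (J ^ k)) (ρ ((x ^ q ^ k : f.ker) : G))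
        = 1
      rw [MP_8f66f0_al_Dennis.map_eq_one_iff]
      have h2 := (hcong x).pow_pow hqJ k
      intro i j
      have h3 := h2 i j
      rw [Subgroup.coe_pow, map_pow, Units.val_pow_eq_pow_val]
      exact Ideal.pow_le_pow_right (by omega) h3
    exact IsPGroup.iff_card.mp hp
  · intro hmem
    rw [MonoidHom.mem_ker] at hmem
    change Matrix.GeneralLinearGroup.map (Ideal.Quotient.mk (J ^ k)) (ρ (h : G)) = 1 at hmem
    rw [MP_8f66f0_al_Dennis.map_eq_one_iff] at hmem
    exact hk (hmem i j)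

/-- Unique roots of large prime exponents over finitely generated rings whose zero divisors are
nilpotent. -/
lemma roots_of_primary {S : Type*} [CommRing S] [Nontrivial S] [hft : Algebra.FiniteType ℤ S]
    (hS : ∀ x y : S, x * y = 0 → x = 0 ∨ IsNilpotent y) {m : ℕ} {G : Type*} [Group G]
    (ρ : G →* Matrix.GeneralLinearGroup (Fin m) S) :
    ∃ N : ℕ, ∀ p : ℕ, p.Prime → N < p → ∀ x y : G, x ^ p = y ^ p → ρ x = ρ y := by
  have hnoeth : IsNoetherianRing S := Algebra.FiniteType.isNoetherianRing ℤ _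
  obtain ⟨J, hJ⟩ := Ideal.exists_maximal S
  have hft0 : Algebra.FiniteType ℤ (S ⧸ J) :=
    Algebra.FiniteType.of_surjective (Ideal.Quotient.mkₐ ℤ J) (Ideal.Quotient.mkₐ_surjective ℤ J)
  let _ : Field (S ⧸ J) := Ideal.Quotient.field J
  have hft1 : @Algebra.FiniteType ℤ (S ⧸ J) _ _ (Ring.toIntAlgebra _) := by
    convert! hft0
  obtain ⟨hf, q, hq, hq0⟩ := finite_field_of_finiteType (S ⧸ J)
  have hqJ : ((q : ℕ) : S) ∈ J := by
    rw [← Ideal.Quotient.eq_zero_iff_mem, map_natCast]
    exact hq0
  have hres := virtuallyResiduallyFiniteQ_of_separated ρ.range.subtype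
    (Subgroup.subtype_injective _) hq J (iInf_pow_eq_bot hS J hJ.ne_top) hqJ
  have : Fact q.Prime := ⟨hq⟩
  obtain ⟨N, hN⟩ := hres.roots
  refine ⟨N, fun p hp hlt x y hxy => ?_⟩
  have h1 := hN p hp hlt (ρ.rangeRestrict x) (ρ.rangeRestrict y) (by
    rw [← map_pow, ← map_pow, hxy])
  exact congrArg Subtype.val h1

end separation

section main

/-- The quotients by primary ideals, jointly injective. -/
lemma exists_primary_decomposition {R : Type*} [CommRing R] [IsNoetherianRing R] :
    ∃ s : Finset (Ideal R), (∀ q ∈ s, Nontrivial (R ⧸ q) ∧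
      ∀ x y : R ⧸ q, x * y = 0 → x = 0 ∨ IsNilpotent y) ∧ ∀ x : R, (∀ q ∈ s, x ∈ q) → x = 0 := by
  obtain ⟨s, hs, hsp⟩ := Submodule.isLasker R R (⊥ : Ideal R)
  refine ⟨s, fun q hqs => ?_, fun x hx => ?_⟩
  · have hq : Ideal.IsPrimary (q : Ideal R) := hsp hqs
    have hq' := Ideal.isPrimary_iff.mp hq
    refine ⟨Ideal.Quotient.nontrivial_iff.mpr hq'.1, ?_⟩
    intro x y hxy
    obtain ⟨x, rfl⟩ := Ideal.Quotient.mk_surjective x
    obtain ⟨y, rfl⟩ := Ideal.Quotient.mk_surjective y
    rw [← map_mul, Ideal.Quotient.eq_zero_iff_mem] at hxy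
    rcases hq'.2 hxy with h | h
    · left
      exact Ideal.Quotient.eq_zero_iff_mem.mpr h
    · right
      obtain ⟨n, hn⟩ := h
      exact ⟨n, by rw [← map_pow]; exact Ideal.Quotient.eq_zero_iff_mem.mpr hn⟩
  · rw [← Ideal.mem_bot, ← hs, Submodule.mem_finsetInf]
    exact hx

/-- Unique roots of large prime exponents in linear groups over finitely generated rings. -/
theorem roots_of_finiteType {R : Type*} [CommRing R] [hft : Algebra.FiniteType ℤ R] {m : ℕ}
    {G : Type*} [Group G] (ρ : G →* Matrix.GeneralLinearGroup (Fin m) R)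
    (hρ : Function.Injective ρ) :
    ∃ N : ℕ, ∀ p : ℕ, p.Prime → N < p → ∀ x y : G, x ^ p = y ^ p → x = y := by
  classical
  have hnoeth : IsNoetherianRing R := Algebra.FiniteType.isNoetherianRing ℤ _
  obtain ⟨s, hs, hs0⟩ := exists_primary_decomposition (R := R)
  have hex : ∀ q : s, ∃ N : ℕ, ∀ p : ℕ, p.Prime → N < p → ∀ x y : G, x ^ p = y ^ p →
      ((Matrix.GeneralLinearGroup.map (Ideal.Quotient.mk (q : Ideal R))).comp ρ) x =
      ((Matrix.GeneralLinearGroup.map (Ideal.Quotient.mk (q : Ideal R))).comp ρ) y := by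
    intro q
    have : Nontrivial (R ⧸ (q : Ideal R)) := (hs q q.2).1
    have hft0 : Algebra.FiniteType ℤ (R ⧸ (q : Ideal R)) :=
      Algebra.FiniteType.of_surjective (Ideal.Quotient.mkₐ ℤ _) (Ideal.Quotient.mkₐ_surjective ℤ _)
    have hft1 : @Algebra.FiniteType ℤ (R ⧸ (q : Ideal R)) _ _ (Ring.toIntAlgebra _) := by
      convert! hft0
    exact roots_of_primary (hft := hft1) (hs q q.2).2 _
  choose N hN using hex
  refine ⟨∑ q, N q, fun p hp hlt x y hxy => ?_⟩
  apply hρ
  apply Units.ext
  ext i j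
  rw [← sub_eq_zero]
  apply hs0
  intro q hq
  have h1 := hN ⟨q, hq⟩ p hp ((Finset.single_le_sum (fun j _ => Nat.zero_le (N j))
    (Finset.mem_univ (⟨q, hq⟩ : s))).trans_lt hlt) x y hxy
  have h3 := congrArg (fun u : Matrix.GeneralLinearGroup (Fin m) (R ⧸ q) =>
    (u : Matrix (Fin m) (Fin m) (R ⧸ q)) i j) h1
  rw [← Ideal.Quotient.eq_zero_iff_mem, map_sub, sub_eq_zero]
  exact h3

/-- Linear groups over Noetherian rings. -/
theorem exists_family_of_noetherian.{v, u} {Γ : Type u} [Group Γ] {R : Type v} [CommRing R]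
    [IsNoetherianRing R] {m : ℕ} (ρ : Γ →* Matrix.GeneralLinearGroup (Fin m) R) :
    ∃ (ι : Type v) (_ : Finite ι) (F : ι → Type v) (_ : ∀ i, Field (F i)) (k : ι → ℕ)
      (σ : ∀ i, Γ →* Matrix.GeneralLinearGroup (Fin (k i)) (F i)),
      ∀ x, (∀ i, σ i x = 1) → ∃ n : ℕ, 0 < n ∧ ρ x ^ n = 1 := by
  classical
  obtain ⟨s, hs, hsp⟩ := Submodule.isLasker R R (⊥ : Ideal R)
  have hex : ∀ q : s, ∃ (F : Type v) (_ : Field F) (k : ℕ)
      (τ : Γ →* Matrix.GeneralLinearGroup (Fin k) F), ∀ x, τ x = 1 → ∃ n : ℕ, 0 < n ∧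
        ((Matrix.GeneralLinearGroup.map (Ideal.Quotient.mk (q : Ideal R))).comp ρ) x ^ n = 1 := by
    intro q
    have hq : Ideal.IsPrimary (q : Ideal R) := hsp q.2
    have hq' := Ideal.isPrimary_iff.mp hq
    have : Nontrivial (R ⧸ (q : Ideal R)) := Ideal.Quotient.nontrivial_iff.mpr hq'.1
    apply exists_field_of_primary
    intro x y hxy
    obtain ⟨x, rfl⟩ := Ideal.Quotient.mk_surjective x
    obtain ⟨y, rfl⟩ := Ideal.Quotient.mk_surjective y
    rw [← map_mul, Ideal.Quotient.eq_zero_iff_mem] at hxy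
    rcases hq'.2 hxy with h | h
    · left
      exact Ideal.Quotient.eq_zero_iff_mem.mpr h
    · right
      obtain ⟨n, hn⟩ := h
      exact ⟨n, by rw [← map_pow]; exact Ideal.Quotient.eq_zero_iff_mem.mpr hn⟩
  choose F hF k τ hτ using hex
  refine ⟨s, inferInstance, F, hF, k, τ, fun x hx => ?_⟩
  choose n hn h1 using fun q => hτ q x (hx q)
  refine ⟨∏ q, n q, Finset.prod_pos fun q _ => hn q, ?_⟩
  apply Units.ext
  ext i j
  rw [← sub_eq_zero, ← Ideal.mem_bot, ← hs, Submodule.mem_finsetInf]
  intro q hq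
  obtain ⟨d, hd⟩ := Finset.dvd_prod_of_mem n (Finset.mem_univ (⟨q, hq⟩ : s))
  have h2 : ((Matrix.GeneralLinearGroup.map (Ideal.Quotient.mk q)).comp ρ) x ^ (∏ q, n q) = 1 := by
    rw [hd, pow_mul, h1 ⟨q, hq⟩, one_pow]
  rw [MonoidHom.comp_apply, ← map_pow] at h2
  have h3 := congrArg (fun u : Matrix.GeneralLinearGroup (Fin m) (R ⧸ q) =>
    (u : Matrix (Fin m) (Fin m) (R ⧸ q)) i j) h2
  have h4 : Ideal.Quotient.mk q (((ρ x ^ (∏ q, n q) : Matrix.GeneralLinearGroup (Fin m) R) :
    Matrix (Fin m) (Fin m) R) i j) = (1 : Matrix (Fin m) (Fin m) (R ⧸ q)) i j := h3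
  change _ ∈ q
  rw [← Ideal.Quotient.eq_zero_iff_mem, map_sub, h4, Units.val_one, Matrix.one_apply,
    Matrix.one_apply]
  split_ifs <;> simp

/-- A finitely generated torsion-free linear group over any commutative ring has a finite jointly
injective family of representations over fields. -/
theorem exists_linear_family.{v, u} {Γ : Type u} [Group Γ] [Group.FG Γ]
    (htf : ∀ g : Γ, ∀ n : ℕ, 0 < n → g ^ n = 1 → g = 1) {R : Type v} [CommRing R] {m : ℕ}
    (ρ : Γ →* Matrix.GeneralLinearGroup (Fin m) R) (hρ : Function.Injective ρ) :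
    ∃ (ι : Type v) (_ : Finite ι) (F : ι → Type v) (_ : ∀ i, Field (F i)) (k : ι → ℕ)
      (σ : ∀ i, Γ →* Matrix.GeneralLinearGroup (Fin (k i)) (F i)),
      ∀ x, (∀ i, σ i x = 1) → x = 1 := by
  obtain ⟨R', ρ', hft, hinj⟩ := exists_fg_subring ρ hρ
  have hnoeth : IsNoetherianRing R' := Algebra.FiniteType.isNoetherianRing ℤ _
  obtain ⟨ι, hι, F, hF, k, σ, hσ⟩ := exists_family_of_noetherian ρ'
  refine ⟨ι, hι, F, hF, k, σ, fun x hx => ?_⟩
  obtain ⟨n, hn, h1⟩ := hσ x hx
  apply htf x n hn
  apply hinj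
  rw [map_pow, h1, map_one]

/-- A finitely generated linear group over any commutative ring has a finite family of
representations over fields with torsion joint kernel. -/
theorem exists_family_of_fg.{v, u} {Γ : Type u} [Group Γ] [Group.FG Γ] {R : Type v} [CommRing R]
    {m : ℕ} (ρ : Γ →* Matrix.GeneralLinearGroup (Fin m) R) (hρ : Function.Injective ρ) :
    ∃ (ι : Type v) (_ : Finite ι) (F : ι → Type v) (_ : ∀ i, Field (F i)) (k : ι → ℕ)
      (σ : ∀ i, Γ →* Matrix.GeneralLinearGroup (Fin (k i)) (F i)),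
      ∀ x, (∀ i, σ i x = 1) → ∃ n : ℕ, 0 < n ∧ x ^ n = 1 := by
  obtain ⟨R', ρ', hft, hinj⟩ := exists_fg_subring ρ hρ
  have hnoeth : IsNoetherianRing R' := Algebra.FiniteType.isNoetherianRing ℤ _
  obtain ⟨ι, hι, F, hF, k, σ, hσ⟩ := exists_family_of_noetherian ρ'
  refine ⟨ι, hι, F, hF, k, σ, fun x hx => ?_⟩
  obtain ⟨n, hn, h1⟩ := hσ x hx
  refine ⟨n, hn, hinj ?_⟩
  rw [map_pow, h1, map_one]

/-- Elements of infinite order have infinite order under some member of a finite family with
torsion joint kernel. -/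
lemma exists_infinite_of_torsion {Γ : Type*} [Group Γ] {ι : Type*} [Finite ι] {G : ι → Type*}
    [∀ i, Group (G i)] (f : ∀ i, Γ →* G i)
    (htor : ∀ x, (∀ i, f i x = 1) → ∃ n : ℕ, 0 < n ∧ x ^ n = 1) {x : Γ}
    (hx : ∀ n : ℕ, 0 < n → x ^ n ≠ 1) : ∃ i, ∀ n : ℕ, 0 < n → f i x ^ n ≠ 1 := by
  classical
  by_contra hcon
  push Not at hcon
  choose n hn hf using hcon
  have := Fintype.ofFinite ι
  obtain ⟨k, hk, hk1⟩ := htor (x ^ ∏ i, n i) fun i => by
    obtain ⟨d, hd⟩ := Finset.dvd_prod_of_mem n (Finset.mem_univ i)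
    rw [hd, map_pow, pow_mul, hf, one_pow]
  rw [← pow_mul] at hk1
  exact hx _ (Nat.mul_pos (Finset.prod_pos fun i _ => hn i) hk) hk1

/-- Finitely generated linear groups over commutative rings, torsion allowed, are power
separated. -/
theorem powerSep_of_commRing_torsion.{v, u} {Γ : Type u} [Group Γ] [Group.FG Γ] {R : Type v}
    [CommRing R] {m : ℕ} (ρ : Γ →* Matrix.GeneralLinearGroup (Fin m) R)
    (hρ : Function.Injective ρ) : PowerSep Γ := by
  refine ⟨?_, fun u v hv => ?_⟩
  · obtain ⟨R', ρ', hft, hinj⟩ := exists_fg_subring ρ hρ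
    exact roots_of_finiteType ρ' hinj
  · obtain ⟨ι, hι, F, hF, k, σ, hσ⟩ := exists_family_of_fg ρ hρ
    obtain ⟨i, hi⟩ := exists_infinite_of_torsion (fun i => (σ i).rangeRestrict) (fun x hx =>
      hσ x fun i => congrArg Subtype.val (hx i)) hv
    have : Group.FG (σ i).range := Group.fg_range (σ i)
    have hsep : PowerSep (σ i).range :=
      powerSep_of_linear (σ i).range.subtype (Subgroup.subtype_injective _)
    refine (hsep.2 ((σ i).rangeRestrict u) ((σ i).rangeRestrict v) hi).subset ?_
    rintro l ⟨hl, hc⟩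
    refine ⟨hl, ?_⟩
    have := (σ i).rangeRestrict.map_isConj hc
    rwa [map_pow] at this

/-- Elements of infinite order in finitely generated linear groups over commutative rings, torsion
allowed, are `PDet` for all large primes. -/
theorem pdet_of_commRing_torsion.{v, u} {Γ : Type u} [Group Γ] [Group.FG Γ] {R : Type v}
    [CommRing R] {m : ℕ} (ρ : Γ →* Matrix.GeneralLinearGroup (Fin m) R)
    (hρ : Function.Injective ρ) :
    ∃ N : ℕ, ∀ p : ℕ, p.Prime → N < p → ∀ c : Γ, (∀ n : ℕ, 0 < n → c ^ n ≠ 1) →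
      PDet.{v} p c := by
  classical
  obtain ⟨ι, hι, F, hF, k, σ, hσ⟩ := exists_family_of_fg ρ hρ
  have := Fintype.ofFinite ι
  choose N hN using fun i => pdet_of_field (σ i)
  refine ⟨∑ i, N i, fun p hp hlt c hc => ?_⟩
  obtain ⟨i, hi⟩ := exists_infinite_of_torsion σ hσ hc
  exact hN i p hp ((Finset.single_le_sum (fun j _ => Nat.zero_le (N j))
    (Finset.mem_univ i)).trans_lt hlt) c hi

end main

end Pool.Agent.Lib.MP_8f66f0_al_Wreath.T
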