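import Mathlib
import Pool.Agent.Lib.MP_8f66f0_al_Wreath.Class
import Pool.Agent.Lib.MP_8f66f0_al_Wreath.CommRingT

/-! A class of groups, closed under subgroups, finite direct products, finite index overgroups and
directed unions, all of whose torsion-free members satisfy the theorem on determinants. -/

set_option autoImplicit false
set_option linter.unusedSectionVars false

namespace Pool.Agent.Lib.MP_8f66f0_al_Wreath

open Pool.Agent.Lib.MP_8f66f0_al_Dennis Pool.Agent.Lib.MP_8f66f0_al_FinQ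
open Pool.Agent.Lib.MP_8f66f0_al_Plus Pool.Agent.Lib.MP_8f66f0_al_Uni

/-- Every finitely generated subgroup is power separated, and for all large primes all its elements
of infinite order are detected, or of infinite order in a suitable representation. -/
def AEGood.{v, u} (G : Type u) [Group G] : Prop :=
  ∀ H : Subgroup G, H.FG → PowerSep H ∧ ∃ N : ℕ, ∀ p : ℕ, p.Prime → N < p → ∀ c : H,
    (∀ n : ℕ, 0 < n → c ^ n ≠ 1) → PDet.{v} p c

section pull

lemma Detected.comap {G K : Type*} [Group G] [Group K] (φ : K →* G) {c : K}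
    (h : Detected (φ c)) : Detected c := by
  obtain ⟨δ, hδ, h0⟩ := h
  refine ⟨fun g x => δ (φ g) (φ x), fun g h x hx => ?_, h0⟩
  have := hδ (φ g) (φ h) (φ x) (φ.map_isConj hx)
  simpa only [map_mul, map_inv] using this

lemma PDet.comap.{v, u} {G K : Type u} [Group G] [Group K] (φ : K →* G) {p : ℕ} {c : K}
    (h : PDet.{v} p (φ c)) : PDet.{v} p c := by
  rcases h with h | ⟨R, i1, i2, i3, m, ρ, hp, hinf⟩
  · exact Or.inl (Detected.comap φ h)
  · exact Or.inr ⟨R, i1, i2, i3, m, ρ.comp φ, hp, hinf⟩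

lemma pow_ne_one_of_injective {G K : Type*} [Group G] [Group K] {φ : K →* G}
    (hφ : Function.Injective φ) {c : K} (h : ∀ n : ℕ, 0 < n → c ^ n ≠ 1) :
    ∀ n : ℕ, 0 < n → φ c ^ n ≠ 1 := by
  intro n hn h1
  apply h n hn
  apply hφ
  rw [map_pow, h1, map_one]

lemma PowerSep.comap {G K : Type*} [Group G] [Group K] {φ : K →* G}
    (hφ : Function.Injective φ) (h : PowerSep G) : PowerSep K := by
  obtain ⟨⟨N, hN⟩, hc⟩ := h
  refine ⟨⟨N, fun l hl hlt x y hxy => ?_⟩, fun u v hv => ?_⟩
  · apply hφ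
    apply hN l hl hlt
    rw [← map_pow, ← map_pow, hxy]
  · refine (hc (φ u) (φ v) (pow_ne_one_of_injective hφ hv)).subset ?_
    rintro l ⟨hl, hconj⟩
    refine ⟨hl, ?_⟩
    have := φ.map_isConj hconj
    rwa [map_pow] at this

/-- The two conditions for a group, not for its subgroups. -/
def Good1.{v, u} (H : Type u) [Group H] : Prop :=
  PowerSep H ∧ ∃ N : ℕ, ∀ p : ℕ, p.Prime → N < p → ∀ c : H,
    (∀ n : ℕ, 0 < n → c ^ n ≠ 1) → PDet.{v} p c

lemma Good1.comap.{v, u} {G K : Type u} [Group G] [Group K] {φ : K →* G}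
    (hφ : Function.Injective φ) (h : Good1.{v} G) : Good1.{v} K := by
  obtain ⟨h1, N, hN⟩ := h
  exact ⟨PowerSep.comap hφ h1, N, fun p hp hlt c hc =>
    PDet.comap φ (hN p hp hlt (φ c) (pow_ne_one_of_injective hφ hc))⟩

lemma aeGood_iff.{v, u} {G : Type u} [Group G] :
    AEGood.{v} G ↔ ∀ H : Subgroup G, H.FG → Good1.{v} H := Iff.rfl

/-- For groups `H` with an injective homomorphism to `G`. -/
lemma AEGood.good1.{v, u} {G K : Type u} [Group G] [Group K] [Group.FG K] (h : AEGood.{v} G)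
    {φ : K →* G} (hφ : Function.Injective φ) : Good1.{v} K := by
  have h1 : Good1.{v} φ.range := h φ.range ((Group.fg_iff_subgroup_fg _).mp (Group.fg_range φ))
  refine Good1.comap (φ := φ.rangeRestrict) ?_ h1
  intro x y hxy
  exact hφ (congrArg Subtype.val hxy)

lemma AEGood.self.{v, u} {G : Type u} [Group G] [Group.FG G] (h : AEGood.{v} G) : Good1.{v} G :=
  h.good1 (φ := MonoidHom.id G) Function.injective_id

end pull

section closure

lemma aeGood_of_lin.{v, u} {G : Type u} [Group G] {R : Type v} [CommRing R] {m : ℕ}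
    (ρ : G →* Matrix.GeneralLinearGroup (Fin m) R) (hρ : Function.Injective ρ) :
    AEGood.{v} G := by
  intro H hH
  have : Group.FG H := (Group.fg_iff_subgroup_fg H).mpr hH
  have hinj : Function.Injective (ρ.comp H.subtype) := hρ.comp (Subgroup.subtype_injective H)
  exact ⟨T.powerSep_of_commRing_torsion _ hinj, T.pdet_of_commRing_torsion _ hinj⟩

lemma aeGood_of_autClass.{v, u} {G : Type u} [Group G]
    (h : Pool.Agent.Lib.MP_8f66f0_al_Aut.AutClass G) : AEGood.{v} G := by
  intro H _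
  have hI := (Pool.Agent.Lib.MP_8f66f0_al_Aut.AutClass.sub _ _ H.subtype
    (Subgroup.subtype_injective H) h).intDetected
  refine ⟨PowerSep.of_virtuallyResiduallyFinite ?_, 0, fun p hp _ c hc =>
    pdet_of_intDet (hI.det c hc) hp⟩
  refine Set.finite_empty.subset ?_
  rintro q ⟨hq, hq'⟩
  exact hq' (hI.vrf q hq)

lemma aeGood_of_good.{v, u} {G : Type u} [Group G] (hG : PowerSep G) (N : ℕ)
    (hd : ∀ p : ℕ, p.Prime → N < p → ∀ c : G, (∀ n : ℕ, 0 < n → c ^ n ≠ 1) → PDet.{v} p c) :
    AEGood.{v} G := by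
  intro H _
  exact ⟨PowerSep.comap (Subgroup.subtype_injective H) hG, N, fun p hp hlt c hc =>
    PDet.comap H.subtype (hd p hp hlt _ (pow_ne_one_of_injective (Subgroup.subtype_injective H) hc))⟩

lemma AEGood.sub.{v, u} {G K : Type u} [Group G] [Group K] {φ : K →* G}
    (hφ : Function.Injective φ) (hG : AEGood.{v} G) : AEGood.{v} K := by
  intro H hH
  have : Group.FG H := (Group.fg_iff_subgroup_fg H).mpr hH
  exact hG.good1 (φ := φ.comp H.subtype) (hφ.comp (Subgroup.subtype_injective H))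

lemma AEGood.loc.{v, u} {G : Type u} [Group G]
    (h : ∀ H : Subgroup G, H.FG → AEGood.{v} H) : AEGood.{v} G := by
  intro H hH
  have : Group.FG H := (Group.fg_iff_subgroup_fg H).mpr hH
  exact (h H hH).self

/-- Two jointly injective homomorphisms. -/
lemma Good1.pair.{v, u} {Γ A B : Type u} [Group Γ] [Group A] [Group B] (f : Γ →* A) (g : Γ →* B)
    (hinj : ∀ x, f x = 1 → g x = 1 → x = 1) (hA : Good1.{v} A) (hB : Good1.{v} B) :
    Good1.{v} Γ := by
  obtain ⟨⟨⟨NA, hNA⟩, hcA⟩, MA, hMA⟩ := hA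
  obtain ⟨⟨⟨NB, hNB⟩, hcB⟩, MB, hMB⟩ := hB
  have hinf : ∀ c : Γ, (∀ n : ℕ, 0 < n → c ^ n ≠ 1) →
      (∀ n : ℕ, 0 < n → f c ^ n ≠ 1) ∨ (∀ n : ℕ, 0 < n → g c ^ n ≠ 1) := by
    intro c hc
    by_contra hcon
    push Not at hcon
    obtain ⟨⟨a, ha, ha1⟩, b, hb, hb1⟩ := hcon
    refine hc (a * b) (Nat.mul_pos ha hb) (hinj _ ?_ ?_)
    · rw [map_pow, pow_mul, ha1, one_pow]
    · rw [map_pow, mul_comm, pow_mul, hb1, one_pow]
  refine ⟨⟨⟨NA + NB, fun l hl hlt x y hxy => ?_⟩, fun u v hv => ?_⟩, MA + MB,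
    fun p hp hlt c hc => ?_⟩
  · have h1 : f x = f y := hNA l hl (by omega) _ _ (by rw [← map_pow, ← map_pow, hxy])
    have h2 : g x = g y := hNB l hl (by omega) _ _ (by rw [← map_pow, ← map_pow, hxy])
    rw [← mul_inv_eq_one]
    apply hinj
    · rw [map_mul, map_inv, h1, mul_inv_cancel]
    · rw [map_mul, map_inv, h2, mul_inv_cancel]
  · rcases hinf v hv with h | h
    · refine (hcA (f u) (f v) h).subset ?_
      rintro l ⟨hl, hconj⟩
      have := f.map_isConj hconj
      rw [map_pow] at this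
      exact ⟨hl, this⟩
    · refine (hcB (g u) (g v) h).subset ?_
      rintro l ⟨hl, hconj⟩
      have := g.map_isConj hconj
      rw [map_pow] at this
      exact ⟨hl, this⟩
  · rcases hinf c hc with h | h
    · exact PDet.comap f (hMA p hp (by omega) _ h)
    · exact PDet.comap g (hMB p hp (by omega) _ h)

lemma AEGood.prod.{v, u} {G K : Type u} [Group G] [Group K] (hG : AEGood.{v} G)
    (hK : AEGood.{v} K) : AEGood.{v} (G × K) := by
  intro H hH
  have : Group.FG H := (Group.fg_iff_subgroup_fg H).mpr hH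
  set f : H →* G := (MonoidHom.fst G K).comp H.subtype with hf
  set g : H →* K := (MonoidHom.snd G K).comp H.subtype with hg
  have h1 : Good1.{v} f.range := hG _ ((Group.fg_iff_subgroup_fg _).mp (Group.fg_range f))
  have h2 : Good1.{v} g.range := hK _ ((Group.fg_iff_subgroup_fg _).mp (Group.fg_range g))
  refine Good1.pair f.rangeRestrict g.rangeRestrict (fun x hx hx' => ?_) h1 h2
  apply Subtype.ext
  exact Prod.ext (congrArg Subtype.val hx) (congrArg Subtype.val hx')

end closure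

section finiteIndex

/-- The embedding of a group in a regular wreath product (Krasner and Kaloujnine). -/
noncomputable def kk {H : Type*} [Group H] (N : Subgroup H) [N.Normal] :
    H →* RegularWreathProduct N (H ⧸ N) where
  toFun g := ⟨fun x => ⟨x.out⁻¹ * g * ((QuotientGroup.mk' N g)⁻¹ * x).out, by
      rw [← QuotientGroup.eq_one_iff]
      change QuotientGroup.mk' N (x.out⁻¹ * g * ((QuotientGroup.mk' N g)⁻¹ * x).out) = 1
      rw [map_mul, map_mul, map_inv]
      have h1 : ∀ y : H ⧸ N, QuotientGroup.mk' N y.out = y := fun y => Quotient.out_eq' y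
      rw [h1, h1]
      group⟩, QuotientGroup.mk' N g⟩
  map_one' := by
    refine RegularWreathProduct.ext ?_ ?_
    · funext x
      apply Subtype.ext
      simp
    · simp
  map_mul' g h := by
    refine RegularWreathProduct.ext ?_ ?_
    · funext x
      apply Subtype.ext
      change x.out⁻¹ * (g * h) * ((QuotientGroup.mk' N (g * h))⁻¹ * x).out =
        (x.out⁻¹ * g * ((QuotientGroup.mk' N g)⁻¹ * x).out) *
        (((QuotientGroup.mk' N g)⁻¹ * x).out⁻¹ * h *
          ((QuotientGroup.mk' N h)⁻¹ * ((QuotientGroup.mk' N g)⁻¹ * x)).out)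
      rw [map_mul, mul_inv_rev, mul_assoc ((QuotientGroup.mk' N h)⁻¹)]
      group
    · exact map_mul _ _ _

lemma kk_injective {H : Type*} [Group H] (N : Subgroup H) [N.Normal] :
    Function.Injective (kk N) := by
  rw [injective_iff_map_eq_one]
  intro g hg
  have h1 : QuotientGroup.mk' N g = 1 := congrArg RegularWreathProduct.right hg
  have h2 : (((kk N g).left 1 : N) : H) = 1 := by
    rw [hg]
    rfl
  have h3 : (1 : H ⧸ N).out⁻¹ * g * ((QuotientGroup.mk' N g)⁻¹ * 1).out = 1 := h2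
  rw [h1, inv_one, one_mul] at h3
  have h4 : (1 : H ⧸ N).out⁻¹ * g * (1 : H ⧸ N).out = (1 : H ⧸ N).out⁻¹ * 1 * (1 : H ⧸ N).out := by
    rw [h3]; group
  exact mul_left_cancel (mul_right_cancel h4)

lemma pdet_rwp.{v, u} {Γ : Type u} [Group Γ] {C : Type u} [Group C] [Fintype C]
    {p : ℕ} (hdet : ∀ c : Γ, (∀ n : ℕ, 0 < n → c ^ n ≠ 1) → PDet.{v} p c)
    (h : RegularWreathProduct Γ C) (hh : ∀ k : ℕ, 0 < k → h ^ k ≠ 1) : PDet.{v} p h := by
  have hex : ∃ x, ∀ n : ℕ, 0 < n → ((h ^ Fintype.card C).left x) ^ n ≠ 1 := by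
    by_contra hcon
    push Not at hcon
    choose n hn h1 using hcon
    refine hh (Fintype.card C * ∏ x, n x)
      (Nat.mul_pos Fintype.card_pos (Finset.prod_pos fun x _ => hn x)) ?_
    rw [pow_mul]
    refine RegularWreathProduct.ext ?_ ?_
    · funext x
      rw [rwp_pow_left_of_right (rwp_pow_card_right h), Pi.pow_apply]
      obtain ⟨d, hd⟩ := Finset.dvd_prod_of_mem n (Finset.mem_univ x)
      rw [hd, pow_mul, h1, one_pow]
      rfl
    · rw [rwp_pow_right, rwp_pow_card_right, one_pow]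
      rfl
  obtain ⟨x, hx⟩ := hex
  rcases hdet _ hx with ⟨δ, hδ, h0⟩ | ⟨R, i1, i2, i3, m, ρ, hp, hinf⟩
  · exact Or.inl (detected_rwp hδ h0 rfl)
  · exact Or.inr ⟨R, i1, i2, i3, _, rwpRep ρ, hp, rwpRep_pow_ne_one hinf⟩

lemma powerSep_of_normal {H : Type*} [Group H] (N : Subgroup H) [hNn : N.Normal]
    [hNf : N.FiniteIndex] (h : PowerSep N) : PowerSep H := by
  obtain ⟨⟨M, hM⟩, hc⟩ := h
  set k := N.index with hk
  have hk0 : 0 < k := Nat.pos_of_ne_zero hNf.index_ne_zero
  refine ⟨⟨M + k, fun l hl hlt x y hxy => ?_⟩, fun u v hv => ?_⟩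
  · have hq : x ^ k = y ^ k := by
      have h1 := hM l hl (by omega) ⟨x ^ k, N.pow_index_mem x⟩ ⟨y ^ k, N.pow_index_mem y⟩ (by
        apply Subtype.ext
        change (x ^ k) ^ l = (y ^ k) ^ l
        rw [← pow_mul, ← pow_mul, mul_comm, pow_mul, pow_mul, hxy])
      exact congrArg Subtype.val h1
    have hcop : Nat.Coprime l k := by
      rw [Nat.Prime.coprime_iff_not_dvd hl]
      intro hd
      have := Nat.le_of_dvd hk0 hd
      omega
    have hb : (1 : ℤ) = l * Nat.gcdA l k + k * Nat.gcdB l k := by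
      have := Nat.gcd_eq_gcd_ab l k
      rw [hcop.gcd_eq_one] at this
      exact_mod_cast this
    have key : ∀ z : H, z = (z ^ l) ^ (Nat.gcdA l k) * (z ^ k) ^ (Nat.gcdB l k) := by
      intro z
      conv_lhs => rw [← zpow_one z, hb, zpow_add, zpow_mul, zpow_mul, zpow_natCast, zpow_natCast]
    rw [key x, key y, hxy, hq]
  · have hfin : Finite (H ⧸ N) := Subgroup.finite_quotient_of_finiteIndex
    have hmem : ∀ q : H ⧸ N, q.out * u ^ k * q.out⁻¹ ∈ N := fun q =>
      hNn.conj_mem _ (N.pow_index_mem u) _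
    set w : N := ⟨v ^ k, N.pow_index_mem v⟩ with hw
    have hwinf : ∀ n : ℕ, 0 < n → w ^ n ≠ 1 := by
      intro n hn h1
      apply hv (k * n) (Nat.mul_pos hk0 hn)
      rw [pow_mul]
      exact congrArg Subtype.val h1
    refine (Set.finite_iUnion fun q : H ⧸ N => hc ⟨_, hmem q⟩ w hwinf).subset ?_
    rintro l ⟨hl, hul⟩
    obtain ⟨g, hg⟩ := isConj_iff.mp hul
    rw [Set.mem_iUnion]
    set q : H ⧸ N := QuotientGroup.mk' N g with hq
    have hgq : g * q.out⁻¹ ∈ N := by
      rw [← QuotientGroup.eq_one_iff]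
      change QuotientGroup.mk' N (g * q.out⁻¹) = 1
      rw [map_mul, map_inv]
      have h1 : QuotientGroup.mk' N q.out = q := Quotient.out_eq' q
      rw [h1, ← hq, mul_inv_cancel]
    refine ⟨q, hl, isConj_iff.mpr ⟨⟨_, hgq⟩, ?_⟩⟩
    apply Subtype.ext
    change (g * q.out⁻¹) * (q.out * u ^ k * q.out⁻¹) * (g * q.out⁻¹)⁻¹ = (v ^ k) ^ l
    have h1 : g * u ^ k * g⁻¹ = (v ^ k) ^ l := by
      rw [← conj_pow, hg, ← pow_mul, ← pow_mul, mul_comm]
    rw [← h1]
    group

lemma Good1.virt.{v, u} {H : Type u} [Group H] (N : Subgroup H) [N.Normal] [N.FiniteIndex]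
    (h : Good1.{v} N) : Good1.{v} H := by
  classical
  obtain ⟨h1, M, hM⟩ := h
  have hfin : Finite (H ⧸ N) := Subgroup.finite_quotient_of_finiteIndex
  have := Fintype.ofFinite (H ⧸ N)
  exact ⟨powerSep_of_normal N h1, M, fun p hp hlt c hc =>
    PDet.comap (kk N) (pdet_rwp (hM p hp hlt) _ (pow_ne_one_of_injective (kk_injective N) hc))⟩

lemma AEGood.virt.{v, u} {G : Type u} [Group G] (K : Subgroup G) [K.FiniteIndex]
    (h : AEGood.{v} K) : AEGood.{v} G := by
  intro H hH
  have hHfg : Group.FG H := (Group.fg_iff_subgroup_fg H).mpr hH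
  set N : Subgroup H := (K.subgroupOf H).normalCore with hN
  have hNfi : N.FiniteIndex := inferInstance
  have hNfg : Group.FG N := inferInstance
  have hle : ∀ x : N, ((x : H) : G) ∈ K := fun x =>
    Subgroup.mem_subgroupOf.mp (Subgroup.normalCore_le (K.subgroupOf H) x.2)
  let φ : N →* K := (H.subtype.comp N.subtype).codRestrict K hle
  have hφ : Function.Injective φ := by
    intro x y hxy
    apply Subtype.ext
    apply Subtype.ext
    exact congrArg (fun z : K => (z : G)) hxy
  exact Good1.virt N (h.good1 hφ)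

end finiteIndex

theorem DetClass.aeGood.{v, u} {G : Type u} [Group G] (h : DetClass.{v} G) : AEGood.{v} G := by
  induction h with
  | lin G R m ρ hρ => exact aeGood_of_lin ρ hρ
  | hol F hF => exact aeGood_of_autClass (Pool.Agent.Lib.MP_8f66f0_al_Aut.AutClass.hol F hF)
  | out ι => exact aeGood_of_autClass (Pool.Agent.Lib.MP_8f66f0_al_Aut.AutClass.out ι)
  | good G hG N hd => exact aeGood_of_good hG N hd
  | sub G K φ hφ _ ih => exact AEGood.sub hφ ih
  | prod G K _ _ hG hK => exact AEGood.prod hG hK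
  | virt G K _ ih => exact AEGood.virt K ih
  | loc G _ ih => exact AEGood.loc ih

/-- The groups of `AutClass` are in the class. -/
theorem DetClass.of_autClass.{v, u} {G : Type u} [Group G]
    (h : Pool.Agent.Lib.MP_8f66f0_al_Aut.AutClass G) : DetClass.{v} G := by
  induction h with
  | hol F hF => exact DetClass.hol F hF
  | out ι => exact DetClass.out ι
  | prod G K _ _ hG hK => exact DetClass.prod G K hG hK
  | sub G K φ hφ _ hG => exact DetClass.sub G K φ hφ hG
  | virt G H _ hH => exact DetClass.virt G H hH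

theorem goodElements_of_detClass.{v, u} {H : Type u} [Group H] [Group.FG H]
    (htf : ∀ g : H, ∀ n : ℕ, 0 < n → g ^ n = 1 → g = 1) (h : DetClass.{v} H) :
    GoodElements.{v} H := by
  obtain ⟨h1, N, hN⟩ := h.aeGood.self
  refine ⟨h1, fun m hm => ?_⟩
  obtain ⟨p, hp, hlt, hmod⟩ := Nat.exists_prime_gt_modEq_one N hm.ne'
  exact ⟨p, hp, hmod, fun c hc => hN p hp hlt c fun n hn h1 => hc (htf c n hn h1)⟩

/-- Torsion-free groups in the class. -/
theorem goodQ_of_detClass.{v, u} {Γ : Type u} [Group Γ]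
    (htf : ∀ g : Γ, ∀ n : ℕ, 0 < n → g ^ n = 1 → g = 1) (h : DetClass.{v} Γ)
    (H : Subgroup Γ) (hH : H.FG) : GoodQ H := by
  have : Group.FG H := (Group.fg_iff_subgroup_fg H).mpr hH
  have htfH : ∀ g : H, ∀ n : ℕ, 0 < n → g ^ n = 1 → g = 1 := by
    intro g n hn hg
    apply Subtype.ext
    exact htf g n hn (congrArg Subtype.val hg)
  exact goodQ_of_goodElements htfH (goodElements_of_detClass htfH
    (DetClass.sub _ _ H.subtype (Subgroup.subtype_injective H) h))

end Pool.Agent.Lib.MP_8f66f0_al_Wreath
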